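import Pool.Agent.LibBcast.Search

namespace Pool.Agent.LibBcast

/-- ball table -/
def BT : Nat := nat_lit 561377439276726958867304976013496898097206671252374641540871272059203149388070307277571654430059739926998222586320214602771469132117679640827802311024651566495723788422848556302665969559036103001014732919352832640580767964292322846225378749487727327407159584613570562215261393934880099214331394621937067571943812663239111642067358108373002554849517594724604267988254075650281187169279999665912301254518013321232135061921455454906972942816675629697954630571938994905242336991064945054468780934726890796633175203234818710844153644655447062873189098665451140866924627778603235591814639313231772479900977878580875650618316918348249631691550681280812535326212228763865175364670204248395325379402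65117589559699113453751167939719263092722005331564425958823134544080002692812889459825694379209011357420997746712539295129609657836369708191748785265560382208514103151042835483861027899669845105479010404001961506370645455310460909981464647089037408008011199153545854219340628524078159343950037630255005941151767880064793423027741268598514616082157751035008820214048267016307478545436139912418293121714594337867858092142123658573696116226482614944507746444456670312553599743217507330462346784375450021669915902154443376091816051866798596171447976937446080122894195653711132302350883289926401798230046635309566191961323574424315903356366019676814866543291896167544691354974497099481116600348351162193822717812535763595776576381378450590416264601826100827676884096485914888150800094742969248027229043390711200153521309790524215842670436678147449632572905877667182476626914945033960682309822673569712975416083819918817374276024403174736021872304919148110354896761390722006863149639553156054584414900053881840128445458831622786206979931240642716277145601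

/-- distance table -/
def DT : Nat := nat_lit 7994338400181895059556944288910813776297185106456798236936834136080164882222289956864199325426343025404508415176115886878183804796635679909872532531300266668306799897695283794302110167751785438250870664029406309562069572381375264904787727119305767400022427885631089096565370696370738212225682081121386412971920354365313235908257390914956346866566650970156314220129906811610889589268554639951005675524355966082764429495327823503009424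

/-- eccentricity table -/
def ECT : Nat := nat_lit 69870036080259023620284

/-- target mask -/
def T0 : Nat := nat_lit 111

def rec0 : Rec := ⟨nat_lit 0, nat_lit 1, nat_lit 65601,
 [⟨nat_lit 0,nat_lit 1,nat_lit 589889,nat_lit 65601⟩, ⟨nat_lit 6,nat_lit 1,nat_lit 33816641,nat_lit 262209⟩, ⟨nat_lit 16,nat_lit 1,nat_lit 34359967745,nat_lit 229377⟩, ⟨nat_lit 0,nat_lit 2,nat_lit 1015873,nat_lit 425984⟩, ⟨nat_lit 6,nat_lit 2,nat_lit 33882177,nat_lit 65536⟩, ⟨nat_lit 15,nat_lit 2,nat_lit 17180123137,nat_lit 139265⟩, ⟨nat_lit 16,nat_lit 2,nat_lit 34359984193,nat_lit 16448⟩, ⟨nat_lit 17,nat_lit 2,nat_lit 68719706113,nat_lit 32769⟩, ⟨nat_lit 18,nat_lit 2,nat_lit 137439215681,nat_lit 1⟩, ⟨nat_lit 0,nat_lit 3,nat_lit 1032257,nat_lit 16384⟩, ⟨nat_lit 6,nat_lit 3,nat_lit 34046017,nat_lit 163840⟩, ⟨nat_lit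 14,nat_lit 3,nat_lit 8590192677,nat_lit 135173⟩, ⟨nat_lit 15,nat_lit 3,nat_lit 17180123233,nat_lit 96⟩, ⟨nat_lit 16,nat_lit 3,nat_lit 34360254529,nat_lit 270336⟩, ⟨nat_lit 17,nat_lit 3,nat_lit 68719722561,nat_lit 16448⟩, ⟨nat_lit 18,nat_lit 3,nat_lit 137439281217,nat_lit 65536⟩, ⟨nat_lit 0,nat_lit 4,nat_lit 1040449,nat_lit 8192⟩, ⟨nat_lit 6,nat_lit 4,nat_lit 34062401,nat_lit 16384⟩, ⟨nat_lit 13,nat_lit 4,nat_lit 4295225909,nat_lit 131585⟩, ⟨nat_lit 14,nat_lit 4,nat_lit 8590192757,nat_lit 80⟩, ⟨nat_lit 15,nat_lit 4,nat_lit 17180389477,nat_lit 266244⟩, ⟨nat_lit 16,nat_lit 4,nat_lit 34360254561,nat_lit 32⟩, ⟨nat_lit 17,nat_lit 4,nat_lit 68719992897,nat_lit 270336⟩, ⟨nat_lit 18,nat_lit 4,nat_lit 137439445057,nat_lit 163840⟩, ⟨nat_lit 0,nat_lit 5,nat_lit 1040481,nat_lit 32⟩, ⟨nat_lit 5,nat_lit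 5,nat_lit 17036991,nat_lit 131209⟩, ⟨nat_lit 6,nat_lit 5,nat_lit 34070593,nat_lit 8192⟩, ⟨nat_lit 13,nat_lit 5,nat_lit 4295226999,nat_lit 1090⟩, ⟨nat_lit 14,nat_lit 5,nat_lit 8590455413,nat_lit 262656⟩, ⟨nat_lit 15,nat_lit 5,nat_lit 17180389493,nat_lit 16⟩, ⟨nat_lit 16,nat_lit 5,nat_lit 34360258661,nat_lit 4100⟩, ⟨nat_lit 17,nat_lit 5,nat_lit 68719992929,nat_lit 32⟩, ⟨nat_lit 18,nat_lit 5,nat_lit 137439461441,nat_lit 16384⟩, ⟨nat_lit 0,nat_lit 6,nat_lit 1044581,nat_lit 4100⟩, ⟨nat_lit 2,nat_lit 6,nat_lit 2359231,nat_lit 133121⟩, ⟨nat_lit 5,nat_lit 6,nat_lit 17037311,nat_lit 320⟩, ⟨nat_lit 6,nat_lit 6,nat_lit 34070625,nat_lit 32⟩, ⟨nat_lit 12,nat_lit 6,nat_lit 2147743679,nat_lit 131329⟩, ⟨nat_lit 13,nat_lit 6,nat_lit 4295489279,nat_lit 262280⟩, ⟨nat_lit 14,nat_lit 6,nat_lit 8590456439,nat_lit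 1026⟩, ⟨nat_lit 15,nat_lit 6,nat_lit 17180390005,nat_lit 512⟩, ⟨nat_lit 16,nat_lit 6,nat_lit 34360258677,nat_lit 16⟩, ⟨nat_lit 17,nat_lit 6,nat_lit 68719997029,nat_lit 4100⟩, ⟨nat_lit 18,nat_lit 6,nat_lit 137439469633,nat_lit 8192⟩],
 [⟨nat_lit 15,nat_lit 1,nat_lit 17179983872,nat_lit 114688⟩, ⟨nat_lit 17,nat_lit 1,nat_lit 68719673344,nat_lit 196608⟩, ⟨nat_lit 18,nat_lit 1,nat_lit 137439215680,nat_lit 262208⟩, ⟨nat_lit 14,nat_lit 2,nat_lit 8590057504,nat_lit 65568⟩, ⟨nat_lit 13,nat_lit 3,nat_lit 4295094324,nat_lit 65552⟩, ⟨nat_lit 5,nat_lit 4,nat_lit 16905782,nat_lit 66562⟩, ⟨nat_lit 2,nat_lit 5,nat_lit 2226110,nat_lit 65792⟩, ⟨nat_lit 12,nat_lit 5,nat_lit 2147612350,nat_lit 65672⟩, ⟨nat_lit 4,nat_lit 6,nat_lit 8519614,nat_lit 65536⟩]⟩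

def rec1 : Rec := ⟨nat_lit 1, nat_lit 2, nat_lit 650,
 [⟨nat_lit 1,nat_lit 1,nat_lit 1049226,nat_lit 650⟩, ⟨nat_lit 3,nat_lit 1,nat_lit 4194698,nat_lit 394⟩, ⟨nat_lit 7,nat_lit 1,nat_lit 67109002,nat_lit 138⟩, ⟨nat_lit 9,nat_lit 1,nat_lit 268437010,nat_lit 1554⟩, ⟨nat_lit 1,nat_lit 2,nat_lit 1050522,nat_lit 1296⟩, ⟨nat_lit 3,nat_lit 2,nat_lit 4197258,nat_lit 2560⟩, ⟨nat_lit 4,nat_lit 2,nat_lit 8394294,nat_lit 5154⟩, ⟨nat_lit 7,nat_lit 2,nat_lit 67109770,nat_lit 768⟩, ⟨nat_lit 8,nat_lit 2,nat_lit 134220170,nat_lit 130⟩, ⟨nat_lit 9,nat_lit 2,nat_lit 268437150,nat_lit 140⟩, ⟨nat_lit 10,nat_lit 2,nat_lit 536872466,nat_lit 18⟩, ⟨nat_lit 1,nat_lit 3,nat_lit 1052574,nat_lit 2052⟩, ⟨nat_lit 2,nat_lit 3,nat_lit 2127414,nat_lit 17410⟩, ⟨nat_lit 3,nat_lit 3,nat_lit 4198298,nat_lit 1040⟩, ⟨nat_lit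 4,nat_lit 3,nat_lit 8402622,nat_lit 8328⟩, ⟨nat_lit 7,nat_lit 3,nat_lit 67112858,nat_lit 3088⟩, ⟨nat_lit 8,nat_lit 3,nat_lit 134220682,nat_lit 512⟩, ⟨nat_lit 9,nat_lit 3,nat_lit 268441534,nat_lit 4384⟩, ⟨nat_lit 10,nat_lit 3,nat_lit 536872606,nat_lit 140⟩, ⟨nat_lit 11,nat_lit 3,nat_lit 1073744266,nat_lit 130⟩, ⟨nat_lit 1,nat_lit 4,nat_lit 1056702,nat_lit 4128⟩, ⟨nat_lit 2,nat_lit 4,nat_lit 2160318,nat_lit 32904⟩, ⟨nat_lit 3,nat_lit 4,nat_lit 4198302,nat_lit 4⟩, ⟨nat_lit 4,nat_lit 4,nat_lit 8419262,nat_lit 16640⟩, ⟨nat_lit 5,nat_lit 4,nat_lit 16905782,nat_lit 66562⟩, ⟨nat_lit 7,nat_lit 4,nat_lit 67112862,nat_lit 4⟩, ⟨nat_lit 8,nat_lit 4,nat_lit 134221722,nat_lit 1040⟩, ⟨nat_lit 9,nat_lit 4,nat_lit 268451774,nat_lit 10240⟩, ⟨nat_lit 10,nat_lit 4,nat_lit 536876990,nat_lit 4384⟩, ⟨nat_lit 11,nat_lit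 4,nat_lit 1073744778,nat_lit 512⟩, ⟨nat_lit 12,nat_lit 4,nat_lit 2147546678,nat_lit 33794⟩, ⟨nat_lit 1,nat_lit 5,nat_lit 1064894,nat_lit 8192⟩, ⟨nat_lit 2,nat_lit 5,nat_lit 2226110,nat_lit 65792⟩, ⟨nat_lit 3,nat_lit 5,nat_lit 4202430,nat_lit 4128⟩, ⟨nat_lit 4,nat_lit 5,nat_lit 8454078,nat_lit 34816⟩, ⟨nat_lit 5,nat_lit 5,nat_lit 17036991,nat_lit 131209⟩, ⟨nat_lit 7,nat_lit 5,nat_lit 67116990,nat_lit 4128⟩, ⟨nat_lit 8,nat_lit 5,nat_lit 134221726,nat_lit 4⟩, ⟨nat_lit 9,nat_lit 5,nat_lit 268468158,nat_lit 16384⟩, ⟨nat_lit 10,nat_lit 5,nat_lit 536887230,nat_lit 10240⟩, ⟨nat_lit 11,nat_lit 5,nat_lit 1073745818,nat_lit 1040⟩, ⟨nat_lit 12,nat_lit 5,nat_lit 2147612350,nat_lit 65672⟩, ⟨nat_lit 13,nat_lit 5,nat_lit 4295226999,nat_lit 1090⟩, ⟨nat_lit 1,nat_lit 6,nat_lit 1081278,nat_lit 16384⟩, ⟨nat_lit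 2,nat_lit 6,nat_lit 2359231,nat_lit 133121⟩, ⟨nat_lit 3,nat_lit 6,nat_lit 4210622,nat_lit 8192⟩, ⟨nat_lit 4,nat_lit 6,nat_lit 8519614,nat_lit 65536⟩, ⟨nat_lit 5,nat_lit 6,nat_lit 17037311,nat_lit 320⟩, ⟨nat_lit 7,nat_lit 6,nat_lit 67125182,nat_lit 8192⟩, ⟨nat_lit 8,nat_lit 6,nat_lit 134225854,nat_lit 4128⟩, ⟨nat_lit 9,nat_lit 6,nat_lit 268500926,nat_lit 32768⟩, ⟨nat_lit 10,nat_lit 6,nat_lit 536903614,nat_lit 16384⟩, ⟨nat_lit 11,nat_lit 6,nat_lit 1073745822,nat_lit 4⟩, ⟨nat_lit 12,nat_lit 6,nat_lit 2147743679,nat_lit 131329⟩, ⟨nat_lit 13,nat_lit 6,nat_lit 4295489279,nat_lit 262280⟩, ⟨nat_lit 14,nat_lit 6,nat_lit 8590456439,nat_lit 1026⟩],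
 [⟨nat_lit 4,nat_lit 1,nat_lit 8389140,nat_lit 532⟩, ⟨nat_lit 8,nat_lit 1,nat_lit 134220040,nat_lit 2312⟩, ⟨nat_lit 10,nat_lit 1,nat_lit 536872448,nat_lit 1536⟩, ⟨nat_lit 2,nat_lit 2,nat_lit 2110004,nat_lit 8704⟩, ⟨nat_lit 11,nat_lit 2,nat_lit 1073744136,nat_lit 8⟩, ⟨nat_lit 5,nat_lit 3,nat_lit 16839220,nat_lit 33280⟩, ⟨nat_lit 12,nat_lit 3,nat_lit 2147512884,nat_lit 16896⟩, ⟨nat_lit 13,nat_lit 4,nat_lit 4295225909,nat_lit 131585⟩, ⟨nat_lit 14,nat_lit 5,nat_lit 8590455413,nat_lit 262656⟩, ⟨nat_lit 15,nat_lit 6,nat_lit 17180390005,nat_lit 512⟩]⟩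

def rec2 : Rec := ⟨nat_lit 2, nat_lit 4, nat_lit 4148,
 [⟨nat_lit 2,nat_lit 1,nat_lit 2101300,nat_lit 4148⟩, ⟨nat_lit 4,nat_lit 1,nat_lit 8389140,nat_lit 532⟩, ⟨nat_lit 5,nat_lit 1,nat_lit 16789540,nat_lit 12324⟩, ⟨nat_lit 12,nat_lit 1,nat_lit 2147487780,nat_lit 4132⟩, ⟨nat_lit 2,nat_lit 2,nat_lit 2110004,nat_lit 8704⟩, ⟨nat_lit 4,nat_lit 2,nat_lit 8394294,nat_lit 5154⟩, ⟨nat_lit 5,nat_lit 2,nat_lit 16805940,nat_lit 16400⟩, ⟨nat_lit 9,nat_lit 2,nat_lit 268437150,nat_lit 140⟩, ⟨nat_lit 12,nat_lit 2,nat_lit 2147495988,nat_lit 8208⟩, ⟨nat_lit 13,nat_lit 2,nat_lit 4295028772,nat_lit 36868⟩, ⟨nat_lit 1,nat_lit 3,nat_lit 1052574,nat_lit 2052⟩, ⟨nat_lit 2,nat_lit 3,nat_lit 2127414,nat_lit 17410⟩, ⟨nat_lit 4,nat_lit 3,nat_lit 8402622,nat_lit 8328⟩, ⟨nat_lit 5,nat_lit 3,nat_lit 16839220,nat_lit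 33280⟩, ⟨nat_lit 9,nat_lit 3,nat_lit 268441534,nat_lit 4384⟩, ⟨nat_lit 10,nat_lit 3,nat_lit 536872606,nat_lit 140⟩, ⟨nat_lit 12,nat_lit 3,nat_lit 2147512884,nat_lit 16896⟩, ⟨nat_lit 13,nat_lit 3,nat_lit 4295094324,nat_lit 65552⟩, ⟨nat_lit 14,nat_lit 3,nat_lit 8590192677,nat_lit 135173⟩, ⟨nat_lit 1,nat_lit 4,nat_lit 1056702,nat_lit 4128⟩, ⟨nat_lit 2,nat_lit 4,nat_lit 2160318,nat_lit 32904⟩, ⟨nat_lit 3,nat_lit 4,nat_lit 4198302,nat_lit 4⟩, ⟨nat_lit 4,nat_lit 4,nat_lit 8419262,nat_lit 16640⟩, ⟨nat_lit 5,nat_lit 4,nat_lit 16905782,nat_lit 66562⟩, ⟨nat_lit 7,nat_lit 4,nat_lit 67112862,nat_lit 4⟩, ⟨nat_lit 9,nat_lit 4,nat_lit 268451774,nat_lit 10240⟩, ⟨nat_lit 10,nat_lit 4,nat_lit 536876990,nat_lit 4384⟩, ⟨nat_lit 12,nat_lit 4,nat_lit 2147546678,nat_lit 33794⟩, ⟨nat_lit 13,nat_lit 4,nat_lit 4295225909,nat_lit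 131585⟩, ⟨nat_lit 14,nat_lit 4,nat_lit 8590192757,nat_lit 80⟩, ⟨nat_lit 15,nat_lit 4,nat_lit 17180389477,nat_lit 266244⟩, ⟨nat_lit 1,nat_lit 5,nat_lit 1064894,nat_lit 8192⟩, ⟨nat_lit 2,nat_lit 5,nat_lit 2226110,nat_lit 65792⟩, ⟨nat_lit 3,nat_lit 5,nat_lit 4202430,nat_lit 4128⟩, ⟨nat_lit 4,nat_lit 5,nat_lit 8454078,nat_lit 34816⟩, ⟨nat_lit 5,nat_lit 5,nat_lit 17036991,nat_lit 131209⟩, ⟨nat_lit 7,nat_lit 5,nat_lit 67116990,nat_lit 4128⟩, ⟨nat_lit 8,nat_lit 5,nat_lit 134221726,nat_lit 4⟩, ⟨nat_lit 9,nat_lit 5,nat_lit 268468158,nat_lit 16384⟩, ⟨nat_lit 10,nat_lit 5,nat_lit 536887230,nat_lit 10240⟩, ⟨nat_lit 12,nat_lit 5,nat_lit 2147612350,nat_lit 65672⟩, ⟨nat_lit 13,nat_lit 5,nat_lit 4295226999,nat_lit 1090⟩, ⟨nat_lit 14,nat_lit 5,nat_lit 8590455413,nat_lit 262656⟩, ⟨nat_lit 15,nat_lit 5,nat_lit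 17180389493,nat_lit 16⟩, ⟨nat_lit 16,nat_lit 5,nat_lit 34360258661,nat_lit 4100⟩, ⟨nat_lit 0,nat_lit 6,nat_lit 1044581,nat_lit 4100⟩, ⟨nat_lit 1,nat_lit 6,nat_lit 1081278,nat_lit 16384⟩, ⟨nat_lit 2,nat_lit 6,nat_lit 2359231,nat_lit 133121⟩, ⟨nat_lit 3,nat_lit 6,nat_lit 4210622,nat_lit 8192⟩, ⟨nat_lit 4,nat_lit 6,nat_lit 8519614,nat_lit 65536⟩, ⟨nat_lit 5,nat_lit 6,nat_lit 17037311,nat_lit 320⟩, ⟨nat_lit 7,nat_lit 6,nat_lit 67125182,nat_lit 8192⟩, ⟨nat_lit 8,nat_lit 6,nat_lit 134225854,nat_lit 4128⟩, ⟨nat_lit 9,nat_lit 6,nat_lit 268500926,nat_lit 32768⟩, ⟨nat_lit 10,nat_lit 6,nat_lit 536903614,nat_lit 16384⟩, ⟨nat_lit 11,nat_lit 6,nat_lit 1073745822,nat_lit 4⟩, ⟨nat_lit 12,nat_lit 6,nat_lit 2147743679,nat_lit 131329⟩, ⟨nat_lit 13,nat_lit 6,nat_lit 4295489279,nat_lit 262280⟩, ⟨nat_lit 14,nat_lit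 6,nat_lit 8590456439,nat_lit 1026⟩, ⟨nat_lit 15,nat_lit 6,nat_lit 17180390005,nat_lit 512⟩, ⟨nat_lit 16,nat_lit 6,nat_lit 34360258677,nat_lit 16⟩, ⟨nat_lit 17,nat_lit 6,nat_lit 68719997029,nat_lit 4100⟩],
 [⟨nat_lit 9,nat_lit 1,nat_lit 268437010,nat_lit 1554⟩, ⟨nat_lit 13,nat_lit 1,nat_lit 4294991904,nat_lit 24608⟩, ⟨nat_lit 1,nat_lit 2,nat_lit 1050522,nat_lit 1296⟩, ⟨nat_lit 10,nat_lit 2,nat_lit 536872466,nat_lit 18⟩, ⟨nat_lit 14,nat_lit 2,nat_lit 8590057504,nat_lit 65568⟩, ⟨nat_lit 3,nat_lit 3,nat_lit 4198298,nat_lit 1040⟩, ⟨nat_lit 7,nat_lit 3,nat_lit 67112858,nat_lit 3088⟩, ⟨nat_lit 15,nat_lit 3,nat_lit 17180123233,nat_lit 96⟩, ⟨nat_lit 8,nat_lit 4,nat_lit 134221722,nat_lit 1040⟩, ⟨nat_lit 16,nat_lit 4,nat_lit 34360254561,nat_lit 32⟩, ⟨nat_lit 0,nat_lit 5,nat_lit 1040481,nat_lit 32⟩,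 ⟨nat_lit 11,nat_lit 5,nat_lit 1073745818,nat_lit 1040⟩, ⟨nat_lit 17,nat_lit 5,nat_lit 68719992929,nat_lit 32⟩, ⟨nat_lit 6,nat_lit 6,nat_lit 34070625,nat_lit 32⟩]⟩

def rec3 : Rec := ⟨nat_lit 3, nat_lit 8, nat_lit 394,
 [⟨nat_lit 1,nat_lit 1,nat_lit 1049226,nat_lit 650⟩, ⟨nat_lit 3,nat_lit 1,nat_lit 4194698,nat_lit 394⟩, ⟨nat_lit 7,nat_lit 1,nat_lit 67109002,nat_lit 138⟩, ⟨nat_lit 8,nat_lit 1,nat_lit 134220040,nat_lit 2312⟩, ⟨nat_lit 1,nat_lit 2,nat_lit 1050522,nat_lit 1296⟩, ⟨nat_lit 3,nat_lit 2,nat_lit 4197258,nat_lit 2560⟩, ⟨nat_lit 7,nat_lit 2,nat_lit 67109770,nat_lit 768⟩, ⟨nat_lit 8,nat_lit 2,nat_lit 134220170,nat_lit 130⟩, ⟨nat_lit 9,nat_lit 2,nat_lit 268437150,nat_lit 140⟩, ⟨nat_lit 11,nat_lit 2,nat_lit 1073744136,nat_lit 8⟩, ⟨nat_lit 1,nat_lit 3,nat_lit 1052574,nat_lit 2052⟩, ⟨nat_lit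 3,nat_lit 3,nat_lit 4198298,nat_lit 1040⟩, ⟨nat_lit 4,nat_lit 3,nat_lit 8402622,nat_lit 8328⟩, ⟨nat_lit 7,nat_lit 3,nat_lit 67112858,nat_lit 3088⟩, ⟨nat_lit 8,nat_lit 3,nat_lit 134220682,nat_lit 512⟩, ⟨nat_lit 9,nat_lit 3,nat_lit 268441534,nat_lit 4384⟩, ⟨nat_lit 10,nat_lit 3,nat_lit 536872606,nat_lit 140⟩, ⟨nat_lit 11,nat_lit 3,nat_lit 1073744266,nat_lit 130⟩, ⟨nat_lit 1,nat_lit 4,nat_lit 1056702,nat_lit 4128⟩, ⟨nat_lit 2,nat_lit 4,nat_lit 2160318,nat_lit 32904⟩, ⟨nat_lit 3,nat_lit 4,nat_lit 4198302,nat_lit 4⟩, ⟨nat_lit 4,nat_lit 4,nat_lit 8419262,nat_lit 16640⟩, ⟨nat_lit 7,nat_lit 4,nat_lit 67112862,nat_lit 4⟩, ⟨nat_lit 8,nat_lit 4,nat_lit 134221722,nat_lit 1040⟩, ⟨nat_lit 9,nat_lit 4,nat_lit 268451774,nat_lit 10240⟩, ⟨nat_lit 10,nat_lit 4,nat_lit 536876990,nat_lit 4384⟩, ⟨nat_lit 11,nat_lit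 4,nat_lit 1073744778,nat_lit 512⟩, ⟨nat_lit 1,nat_lit 5,nat_lit 1064894,nat_lit 8192⟩, ⟨nat_lit 2,nat_lit 5,nat_lit 2226110,nat_lit 65792⟩, ⟨nat_lit 3,nat_lit 5,nat_lit 4202430,nat_lit 4128⟩, ⟨nat_lit 4,nat_lit 5,nat_lit 8454078,nat_lit 34816⟩, ⟨nat_lit 5,nat_lit 5,nat_lit 17036991,nat_lit 131209⟩, ⟨nat_lit 7,nat_lit 5,nat_lit 67116990,nat_lit 4128⟩, ⟨nat_lit 8,nat_lit 5,nat_lit 134221726,nat_lit 4⟩, ⟨nat_lit 9,nat_lit 5,nat_lit 268468158,nat_lit 16384⟩, ⟨nat_lit 10,nat_lit 5,nat_lit 536887230,nat_lit 10240⟩, ⟨nat_lit 11,nat_lit 5,nat_lit 1073745818,nat_lit 1040⟩, ⟨nat_lit 12,nat_lit 5,nat_lit 2147612350,nat_lit 65672⟩, ⟨nat_lit 1,nat_lit 6,nat_lit 1081278,nat_lit 16384⟩, ⟨nat_lit 2,nat_lit 6,nat_lit 2359231,nat_lit 133121⟩, ⟨nat_lit 3,nat_lit 6,nat_lit 4210622,nat_lit 8192⟩, ⟨nat_lit 4,nat_lit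 6,nat_lit 8519614,nat_lit 65536⟩, ⟨nat_lit 5,nat_lit 6,nat_lit 17037311,nat_lit 320⟩, ⟨nat_lit 7,nat_lit 6,nat_lit 67125182,nat_lit 8192⟩, ⟨nat_lit 8,nat_lit 6,nat_lit 134225854,nat_lit 4128⟩, ⟨nat_lit 9,nat_lit 6,nat_lit 268500926,nat_lit 32768⟩, ⟨nat_lit 10,nat_lit 6,nat_lit 536903614,nat_lit 16384⟩, ⟨nat_lit 11,nat_lit 6,nat_lit 1073745822,nat_lit 4⟩, ⟨nat_lit 12,nat_lit 6,nat_lit 2147743679,nat_lit 131329⟩, ⟨nat_lit 13,nat_lit 6,nat_lit 4295489279,nat_lit 262280⟩],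
 [⟨nat_lit 9,nat_lit 1,nat_lit 268437010,nat_lit 1554⟩, ⟨nat_lit 11,nat_lit 1,nat_lit 1073744128,nat_lit 2304⟩, ⟨nat_lit 4,nat_lit 2,nat_lit 8394294,nat_lit 5154⟩, ⟨nat_lit 10,nat_lit 2,nat_lit 536872466,nat_lit 18⟩, ⟨nat_lit 2,nat_lit 3,nat_lit 2127414,nat_lit 17410⟩, ⟨nat_lit 5,nat_lit 4,nat_lit 16905782,nat_lit 66562⟩, ⟨nat_lit 12,nat_lit 4,nat_lit 2147546678,nat_lit 33794⟩, ⟨nat_lit 13,nat_lit 5,nat_lit 4295226999,nat_lit 1090⟩, ⟨nat_lit 14,nat_lit 6,nat_lit 8590456439,nat_lit 1026⟩]⟩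

def rec4 : Rec := ⟨nat_lit 4, nat_lit 16, nat_lit 532,
 [⟨nat_lit 2,nat_lit 1,nat_lit 2101300,nat_lit 4148⟩, ⟨nat_lit 4,nat_lit 1,nat_lit 8389140,nat_lit 532⟩, ⟨nat_lit 9,nat_lit 1,nat_lit 268437010,nat_lit 1554⟩, ⟨nat_lit 1,nat_lit 2,nat_lit 1050522,nat_lit 1296⟩, ⟨nat_lit 2,nat_lit 2,nat_lit 2110004,nat_lit 8704⟩, ⟨nat_lit 4,nat_lit 2,nat_lit 8394294,nat_lit 5154⟩, ⟨nat_lit 5,nat_lit 2,nat_lit 16805940,nat_lit 16400⟩, ⟨nat_lit 9,nat_lit 2,nat_lit 268437150,nat_lit 140⟩, ⟨nat_lit 10,nat_lit 2,nat_lit 536872466,nat_lit 18⟩, ⟨nat_lit 12,nat_lit 2,nat_lit 2147495988,nat_lit 8208⟩, ⟨nat_lit 1,nat_lit 3,nat_lit 1052574,nat_lit 2052⟩, ⟨nat_lit 2,nat_lit 3,nat_lit 2127414,nat_lit 17410⟩, ⟨nat_lit 3,nat_lit 3,nat_lit 4198298,nat_lit 1040⟩, ⟨nat_lit 4,nat_lit 3,nat_lit 8402622,nat_lit 8328⟩, ⟨nat_lit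 5,nat_lit 3,nat_lit 16839220,nat_lit 33280⟩, ⟨nat_lit 7,nat_lit 3,nat_lit 67112858,nat_lit 3088⟩, ⟨nat_lit 9,nat_lit 3,nat_lit 268441534,nat_lit 4384⟩, ⟨nat_lit 10,nat_lit 3,nat_lit 536872606,nat_lit 140⟩, ⟨nat_lit 12,nat_lit 3,nat_lit 2147512884,nat_lit 16896⟩, ⟨nat_lit 13,nat_lit 3,nat_lit 4295094324,nat_lit 65552⟩, ⟨nat_lit 1,nat_lit 4,nat_lit 1056702,nat_lit 4128⟩, ⟨nat_lit 2,nat_lit 4,nat_lit 2160318,nat_lit 32904⟩, ⟨nat_lit 3,nat_lit 4,nat_lit 4198302,nat_lit 4⟩, ⟨nat_lit 4,nat_lit 4,nat_lit 8419262,nat_lit 16640⟩, ⟨nat_lit 5,nat_lit 4,nat_lit 16905782,nat_lit 66562⟩, ⟨nat_lit 7,nat_lit 4,nat_lit 67112862,nat_lit 4⟩, ⟨nat_lit 8,nat_lit 4,nat_lit 134221722,nat_lit 1040⟩, ⟨nat_lit 9,nat_lit 4,nat_lit 268451774,nat_lit 10240⟩, ⟨nat_lit 10,nat_lit 4,nat_lit 536876990,nat_lit 4384⟩, ⟨nat_lit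 12,nat_lit 4,nat_lit 2147546678,nat_lit 33794⟩, ⟨nat_lit 13,nat_lit 4,nat_lit 4295225909,nat_lit 131585⟩, ⟨nat_lit 14,nat_lit 4,nat_lit 8590192757,nat_lit 80⟩, ⟨nat_lit 1,nat_lit 5,nat_lit 1064894,nat_lit 8192⟩, ⟨nat_lit 2,nat_lit 5,nat_lit 2226110,nat_lit 65792⟩, ⟨nat_lit 3,nat_lit 5,nat_lit 4202430,nat_lit 4128⟩, ⟨nat_lit 4,nat_lit 5,nat_lit 8454078,nat_lit 34816⟩, ⟨nat_lit 5,nat_lit 5,nat_lit 17036991,nat_lit 131209⟩, ⟨nat_lit 7,nat_lit 5,nat_lit 67116990,nat_lit 4128⟩, ⟨nat_lit 8,nat_lit 5,nat_lit 134221726,nat_lit 4⟩, ⟨nat_lit 9,nat_lit 5,nat_lit 268468158,nat_lit 16384⟩, ⟨nat_lit 10,nat_lit 5,nat_lit 536887230,nat_lit 10240⟩, ⟨nat_lit 11,nat_lit 5,nat_lit 1073745818,nat_lit 1040⟩, ⟨nat_lit 12,nat_lit 5,nat_lit 2147612350,nat_lit 65672⟩, ⟨nat_lit 13,nat_lit 5,nat_lit 4295226999,nat_lit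 1090⟩, ⟨nat_lit 14,nat_lit 5,nat_lit 8590455413,nat_lit 262656⟩, ⟨nat_lit 15,nat_lit 5,nat_lit 17180389493,nat_lit 16⟩, ⟨nat_lit 1,nat_lit 6,nat_lit 1081278,nat_lit 16384⟩, ⟨nat_lit 2,nat_lit 6,nat_lit 2359231,nat_lit 133121⟩, ⟨nat_lit 3,nat_lit 6,nat_lit 4210622,nat_lit 8192⟩, ⟨nat_lit 4,nat_lit 6,nat_lit 8519614,nat_lit 65536⟩, ⟨nat_lit 5,nat_lit 6,nat_lit 17037311,nat_lit 320⟩, ⟨nat_lit 7,nat_lit 6,nat_lit 67125182,nat_lit 8192⟩, ⟨nat_lit 8,nat_lit 6,nat_lit 134225854,nat_lit 4128⟩, ⟨nat_lit 9,nat_lit 6,nat_lit 268500926,nat_lit 32768⟩, ⟨nat_lit 10,nat_lit 6,nat_lit 536903614,nat_lit 16384⟩, ⟨nat_lit 11,nat_lit 6,nat_lit 1073745822,nat_lit 4⟩, ⟨nat_lit 12,nat_lit 6,nat_lit 2147743679,nat_lit 131329⟩, ⟨nat_lit 13,nat_lit 6,nat_lit 4295489279,nat_lit 262280⟩, ⟨nat_lit 14,nat_lit 6,nat_lit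 8590456439,nat_lit 1026⟩, ⟨nat_lit 15,nat_lit 6,nat_lit 17180390005,nat_lit 512⟩, ⟨nat_lit 16,nat_lit 6,nat_lit 34360258677,nat_lit 16⟩],
 [⟨nat_lit 1,nat_lit 1,nat_lit 1049226,nat_lit 650⟩, ⟨nat_lit 5,nat_lit 1,nat_lit 16789540,nat_lit 12324⟩, ⟨nat_lit 10,nat_lit 1,nat_lit 536872448,nat_lit 1536⟩, ⟨nat_lit 12,nat_lit 1,nat_lit 2147487780,nat_lit 4132⟩, ⟨nat_lit 3,nat_lit 2,nat_lit 4197258,nat_lit 2560⟩, ⟨nat_lit 7,nat_lit 2,nat_lit 67109770,nat_lit 768⟩, ⟨nat_lit 13,nat_lit 2,nat_lit 4295028772,nat_lit 36868⟩, ⟨nat_lit 8,nat_lit 3,nat_lit 134220682,nat_lit 512⟩, ⟨nat_lit 14,nat_lit 3,nat_lit 8590192677,nat_lit 135173⟩, ⟨nat_lit 11,nat_lit 4,nat_lit 1073744778,nat_lit 512⟩, ⟨nat_lit 15,nat_lit 4,nat_lit 17180389477,nat_lit 266244⟩, ⟨nat_lit 16,nat_lit 5,nat_lit 34360258661,nat_lit 4100⟩,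 ⟨nat_lit 0,nat_lit 6,nat_lit 1044581,nat_lit 4100⟩, ⟨nat_lit 17,nat_lit 6,nat_lit 68719997029,nat_lit 4100⟩]⟩

def rec5 : Rec := ⟨nat_lit 5, nat_lit 32, nat_lit 12324,
 [⟨nat_lit 2,nat_lit 1,nat_lit 2101300,nat_lit 4148⟩, ⟨nat_lit 5,nat_lit 1,nat_lit 16789540,nat_lit 12324⟩, ⟨nat_lit 12,nat_lit 1,nat_lit 2147487780,nat_lit 4132⟩, ⟨nat_lit 13,nat_lit 1,nat_lit 4294991904,nat_lit 24608⟩, ⟨nat_lit 2,nat_lit 2,nat_lit 2110004,nat_lit 8704⟩, ⟨nat_lit 4,nat_lit 2,nat_lit 8394294,nat_lit 5154⟩, ⟨nat_lit 5,nat_lit 2,nat_lit 16805940,nat_lit 16400⟩, ⟨nat_lit 12,nat_lit 2,nat_lit 2147495988,nat_lit 8208⟩, ⟨nat_lit 13,nat_lit 2,nat_lit 4295028772,nat_lit 36868⟩, ⟨nat_lit 14,nat_lit 2,nat_lit 8590057504,nat_lit 65568⟩, ⟨nat_lit 2,nat_lit 3,nat_lit 2127414,nat_lit 17410⟩, ⟨nat_lit 4,nat_lit 3,nat_lit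 8402622,nat_lit 8328⟩, ⟨nat_lit 5,nat_lit 3,nat_lit 16839220,nat_lit 33280⟩, ⟨nat_lit 9,nat_lit 3,nat_lit 268441534,nat_lit 4384⟩, ⟨nat_lit 12,nat_lit 3,nat_lit 2147512884,nat_lit 16896⟩, ⟨nat_lit 13,nat_lit 3,nat_lit 4295094324,nat_lit 65552⟩, ⟨nat_lit 14,nat_lit 3,nat_lit 8590192677,nat_lit 135173⟩, ⟨nat_lit 15,nat_lit 3,nat_lit 17180123233,nat_lit 96⟩, ⟨nat_lit 1,nat_lit 4,nat_lit 1056702,nat_lit 4128⟩, ⟨nat_lit 2,nat_lit 4,nat_lit 2160318,nat_lit 32904⟩, ⟨nat_lit 4,nat_lit 4,nat_lit 8419262,nat_lit 16640⟩, ⟨nat_lit 5,nat_lit 4,nat_lit 16905782,nat_lit 66562⟩, ⟨nat_lit 9,nat_lit 4,nat_lit 268451774,nat_lit 10240⟩, ⟨nat_lit 10,nat_lit 4,nat_lit 536876990,nat_lit 4384⟩, ⟨nat_lit 12,nat_lit 4,nat_lit 2147546678,nat_lit 33794⟩, ⟨nat_lit 13,nat_lit 4,nat_lit 4295225909,nat_lit 131585⟩, ⟨nat_lit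 14,nat_lit 4,nat_lit 8590192757,nat_lit 80⟩, ⟨nat_lit 15,nat_lit 4,nat_lit 17180389477,nat_lit 266244⟩, ⟨nat_lit 16,nat_lit 4,nat_lit 34360254561,nat_lit 32⟩, ⟨nat_lit 0,nat_lit 5,nat_lit 1040481,nat_lit 32⟩, ⟨nat_lit 1,nat_lit 5,nat_lit 1064894,nat_lit 8192⟩, ⟨nat_lit 2,nat_lit 5,nat_lit 2226110,nat_lit 65792⟩, ⟨nat_lit 3,nat_lit 5,nat_lit 4202430,nat_lit 4128⟩, ⟨nat_lit 4,nat_lit 5,nat_lit 8454078,nat_lit 34816⟩, ⟨nat_lit 5,nat_lit 5,nat_lit 17036991,nat_lit 131209⟩, ⟨nat_lit 7,nat_lit 5,nat_lit 67116990,nat_lit 4128⟩, ⟨nat_lit 9,nat_lit 5,nat_lit 268468158,nat_lit 16384⟩, ⟨nat_lit 10,nat_lit 5,nat_lit 536887230,nat_lit 10240⟩, ⟨nat_lit 12,nat_lit 5,nat_lit 2147612350,nat_lit 65672⟩, ⟨nat_lit 13,nat_lit 5,nat_lit 4295226999,nat_lit 1090⟩, ⟨nat_lit 14,nat_lit 5,nat_lit 8590455413,nat_lit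 262656⟩, ⟨nat_lit 15,nat_lit 5,nat_lit 17180389493,nat_lit 16⟩, ⟨nat_lit 16,nat_lit 5,nat_lit 34360258661,nat_lit 4100⟩, ⟨nat_lit 17,nat_lit 5,nat_lit 68719992929,nat_lit 32⟩, ⟨nat_lit 0,nat_lit 6,nat_lit 1044581,nat_lit 4100⟩, ⟨nat_lit 1,nat_lit 6,nat_lit 1081278,nat_lit 16384⟩, ⟨nat_lit 2,nat_lit 6,nat_lit 2359231,nat_lit 133121⟩, ⟨nat_lit 3,nat_lit 6,nat_lit 4210622,nat_lit 8192⟩, ⟨nat_lit 4,nat_lit 6,nat_lit 8519614,nat_lit 65536⟩, ⟨nat_lit 5,nat_lit 6,nat_lit 17037311,nat_lit 320⟩, ⟨nat_lit 6,nat_lit 6,nat_lit 34070625,nat_lit 32⟩, ⟨nat_lit 7,nat_lit 6,nat_lit 67125182,nat_lit 8192⟩, ⟨nat_lit 8,nat_lit 6,nat_lit 134225854,nat_lit 4128⟩, ⟨nat_lit 9,nat_lit 6,nat_lit 268500926,nat_lit 32768⟩, ⟨nat_lit 10,nat_lit 6,nat_lit 536903614,nat_lit 16384⟩, ⟨nat_lit 12,nat_lit 6,nat_lit 2147743679,nat_lit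 131329⟩, ⟨nat_lit 13,nat_lit 6,nat_lit 4295489279,nat_lit 262280⟩, ⟨nat_lit 14,nat_lit 6,nat_lit 8590456439,nat_lit 1026⟩, ⟨nat_lit 15,nat_lit 6,nat_lit 17180390005,nat_lit 512⟩, ⟨nat_lit 16,nat_lit 6,nat_lit 34360258677,nat_lit 16⟩, ⟨nat_lit 17,nat_lit 6,nat_lit 68719997029,nat_lit 4100⟩],
 [⟨nat_lit 4,nat_lit 1,nat_lit 8389140,nat_lit 532⟩, ⟨nat_lit 14,nat_lit 1,nat_lit 8589991936,nat_lit 57344⟩, ⟨nat_lit 9,nat_lit 2,nat_lit 268437150,nat_lit 140⟩, ⟨nat_lit 15,nat_lit 2,nat_lit 17180123137,nat_lit 139265⟩, ⟨nat_lit 1,nat_lit 3,nat_lit 1052574,nat_lit 2052⟩, ⟨nat_lit 10,nat_lit 3,nat_lit 536872606,nat_lit 140⟩, ⟨nat_lit 16,nat_lit 3,nat_lit 34360254529,nat_lit 270336⟩, ⟨nat_lit 0,nat_lit 4,nat_lit 1040449,nat_lit 8192⟩, ⟨nat_lit 3,nat_lit 4,nat_lit 4198302,nat_lit 4⟩, ⟨nat_lit 7,nat_lit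 4,nat_lit 67112862,nat_lit 4⟩, ⟨nat_lit 17,nat_lit 4,nat_lit 68719992897,nat_lit 270336⟩, ⟨nat_lit 6,nat_lit 5,nat_lit 34070593,nat_lit 8192⟩, ⟨nat_lit 8,nat_lit 5,nat_lit 134221726,nat_lit 4⟩, ⟨nat_lit 11,nat_lit 6,nat_lit 1073745822,nat_lit 4⟩, ⟨nat_lit 18,nat_lit 6,nat_lit 137439469633,nat_lit 8192⟩]⟩

def rec6 : Rec := ⟨nat_lit 6, nat_lit 64, nat_lit 262209,
 [⟨nat_lit 0,nat_lit 1,nat_lit 589889,nat_lit 65601⟩, ⟨nat_lit 6,nat_lit 1,nat_lit 33816641,nat_lit 262209⟩, ⟨nat_lit 18,nat_lit 1,nat_lit 137439215680,nat_lit 262208⟩, ⟨nat_lit 0,nat_lit 2,nat_lit 1015873,nat_lit 425984⟩, ⟨nat_lit 6,nat_lit 2,nat_lit 33882177,nat_lit 65536⟩, ⟨nat_lit 16,nat_lit 2,nat_lit 34359984193,nat_lit 16448⟩, ⟨nat_lit 18,nat_lit 2,nat_lit 137439215681,nat_lit 1⟩, ⟨nat_lit 0,nat_lit 3,nat_lit 1032257,nat_lit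 16384⟩, ⟨nat_lit 6,nat_lit 3,nat_lit 34046017,nat_lit 163840⟩, ⟨nat_lit 15,nat_lit 3,nat_lit 17180123233,nat_lit 96⟩, ⟨nat_lit 16,nat_lit 3,nat_lit 34360254529,nat_lit 270336⟩, ⟨nat_lit 17,nat_lit 3,nat_lit 68719722561,nat_lit 16448⟩, ⟨nat_lit 18,nat_lit 3,nat_lit 137439281217,nat_lit 65536⟩, ⟨nat_lit 0,nat_lit 4,nat_lit 1040449,nat_lit 8192⟩, ⟨nat_lit 6,nat_lit 4,nat_lit 34062401,nat_lit 16384⟩, ⟨nat_lit 14,nat_lit 4,nat_lit 8590192757,nat_lit 80⟩, ⟨nat_lit 15,nat_lit 4,nat_lit 17180389477,nat_lit 266244⟩, ⟨nat_lit 16,nat_lit 4,nat_lit 34360254561,nat_lit 32⟩, ⟨nat_lit 17,nat_lit 4,nat_lit 68719992897,nat_lit 270336⟩, ⟨nat_lit 18,nat_lit 4,nat_lit 137439445057,nat_lit 163840⟩, ⟨nat_lit 0,nat_lit 5,nat_lit 1040481,nat_lit 32⟩, ⟨nat_lit 6,nat_lit 5,nat_lit 34070593,nat_lit 8192⟩, ⟨nat_lit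 13,nat_lit 5,nat_lit 4295226999,nat_lit 1090⟩, ⟨nat_lit 14,nat_lit 5,nat_lit 8590455413,nat_lit 262656⟩, ⟨nat_lit 15,nat_lit 5,nat_lit 17180389493,nat_lit 16⟩, ⟨nat_lit 16,nat_lit 5,nat_lit 34360258661,nat_lit 4100⟩, ⟨nat_lit 17,nat_lit 5,nat_lit 68719992929,nat_lit 32⟩, ⟨nat_lit 18,nat_lit 5,nat_lit 137439461441,nat_lit 16384⟩, ⟨nat_lit 0,nat_lit 6,nat_lit 1044581,nat_lit 4100⟩, ⟨nat_lit 5,nat_lit 6,nat_lit 17037311,nat_lit 320⟩, ⟨nat_lit 6,nat_lit 6,nat_lit 34070625,nat_lit 32⟩, ⟨nat_lit 13,nat_lit 6,nat_lit 4295489279,nat_lit 262280⟩, ⟨nat_lit 14,nat_lit 6,nat_lit 8590456439,nat_lit 1026⟩, ⟨nat_lit 15,nat_lit 6,nat_lit 17180390005,nat_lit 512⟩, ⟨nat_lit 16,nat_lit 6,nat_lit 34360258677,nat_lit 16⟩, ⟨nat_lit 17,nat_lit 6,nat_lit 68719997029,nat_lit 4100⟩, ⟨nat_lit 18,nat_lit 6,nat_lit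 137439469633,nat_lit 8192⟩],
 [⟨nat_lit 16,nat_lit 1,nat_lit 34359967745,nat_lit 229377⟩, ⟨nat_lit 15,nat_lit 2,nat_lit 17180123137,nat_lit 139265⟩, ⟨nat_lit 17,nat_lit 2,nat_lit 68719706113,nat_lit 32769⟩, ⟨nat_lit 14,nat_lit 3,nat_lit 8590192677,nat_lit 135173⟩, ⟨nat_lit 13,nat_lit 4,nat_lit 4295225909,nat_lit 131585⟩, ⟨nat_lit 5,nat_lit 5,nat_lit 17036991,nat_lit 131209⟩, ⟨nat_lit 2,nat_lit 6,nat_lit 2359231,nat_lit 133121⟩, ⟨nat_lit 12,nat_lit 6,nat_lit 2147743679,nat_lit 131329⟩]⟩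

def rec7 : Rec := ⟨nat_lit 7, nat_lit 128, nat_lit 138,
 [⟨nat_lit 1,nat_lit 1,nat_lit 1049226,nat_lit 650⟩, ⟨nat_lit 3,nat_lit 1,nat_lit 4194698,nat_lit 394⟩, ⟨nat_lit 7,nat_lit 1,nat_lit 67109002,nat_lit 138⟩, ⟨nat_lit 1,nat_lit 2,nat_lit 1050522,nat_lit 1296⟩, ⟨nat_lit 3,nat_lit 2,nat_lit 4197258,nat_lit 2560⟩, ⟨nat_lit 7,nat_lit 2,nat_lit 67109770,nat_lit 768⟩, ⟨nat_lit 8,nat_lit 2,nat_lit 134220170,nat_lit 130⟩, ⟨nat_lit 9,nat_lit 2,nat_lit 268437150,nat_lit 140⟩, ⟨nat_lit 1,nat_lit 3,nat_lit 1052574,nat_lit 2052⟩, ⟨nat_lit 3,nat_lit 3,nat_lit 4198298,nat_lit 1040⟩, ⟨nat_lit 4,nat_lit 3,nat_lit 8402622,nat_lit 8328⟩, ⟨nat_lit 7,nat_lit 3,nat_lit 67112858,nat_lit 3088⟩, ⟨nat_lit 8,nat_lit 3,nat_lit 134220682,nat_lit 512⟩, ⟨nat_lit 9,nat_lit 3,nat_lit 268441534,nat_lit 4384⟩, ⟨nat_lit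 10,nat_lit 3,nat_lit 536872606,nat_lit 140⟩, ⟨nat_lit 11,nat_lit 3,nat_lit 1073744266,nat_lit 130⟩, ⟨nat_lit 1,nat_lit 4,nat_lit 1056702,nat_lit 4128⟩, ⟨nat_lit 2,nat_lit 4,nat_lit 2160318,nat_lit 32904⟩, ⟨nat_lit 3,nat_lit 4,nat_lit 4198302,nat_lit 4⟩, ⟨nat_lit 4,nat_lit 4,nat_lit 8419262,nat_lit 16640⟩, ⟨nat_lit 7,nat_lit 4,nat_lit 67112862,nat_lit 4⟩, ⟨nat_lit 8,nat_lit 4,nat_lit 134221722,nat_lit 1040⟩, ⟨nat_lit 9,nat_lit 4,nat_lit 268451774,nat_lit 10240⟩, ⟨nat_lit 10,nat_lit 4,nat_lit 536876990,nat_lit 4384⟩, ⟨nat_lit 11,nat_lit 4,nat_lit 1073744778,nat_lit 512⟩, ⟨nat_lit 1,nat_lit 5,nat_lit 1064894,nat_lit 8192⟩, ⟨nat_lit 2,nat_lit 5,nat_lit 2226110,nat_lit 65792⟩, ⟨nat_lit 3,nat_lit 5,nat_lit 4202430,nat_lit 4128⟩, ⟨nat_lit 4,nat_lit 5,nat_lit 8454078,nat_lit 34816⟩, ⟨nat_lit 5,nat_lit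 5,nat_lit 17036991,nat_lit 131209⟩, ⟨nat_lit 7,nat_lit 5,nat_lit 67116990,nat_lit 4128⟩, ⟨nat_lit 8,nat_lit 5,nat_lit 134221726,nat_lit 4⟩, ⟨nat_lit 9,nat_lit 5,nat_lit 268468158,nat_lit 16384⟩, ⟨nat_lit 10,nat_lit 5,nat_lit 536887230,nat_lit 10240⟩, ⟨nat_lit 11,nat_lit 5,nat_lit 1073745818,nat_lit 1040⟩, ⟨nat_lit 12,nat_lit 5,nat_lit 2147612350,nat_lit 65672⟩, ⟨nat_lit 1,nat_lit 6,nat_lit 1081278,nat_lit 16384⟩, ⟨nat_lit 2,nat_lit 6,nat_lit 2359231,nat_lit 133121⟩, ⟨nat_lit 3,nat_lit 6,nat_lit 4210622,nat_lit 8192⟩, ⟨nat_lit 4,nat_lit 6,nat_lit 8519614,nat_lit 65536⟩, ⟨nat_lit 5,nat_lit 6,nat_lit 17037311,nat_lit 320⟩, ⟨nat_lit 7,nat_lit 6,nat_lit 67125182,nat_lit 8192⟩, ⟨nat_lit 8,nat_lit 6,nat_lit 134225854,nat_lit 4128⟩, ⟨nat_lit 9,nat_lit 6,nat_lit 268500926,nat_lit 32768⟩, ⟨nat_lit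 10,nat_lit 6,nat_lit 536903614,nat_lit 16384⟩, ⟨nat_lit 11,nat_lit 6,nat_lit 1073745822,nat_lit 4⟩, ⟨nat_lit 12,nat_lit 6,nat_lit 2147743679,nat_lit 131329⟩, ⟨nat_lit 13,nat_lit 6,nat_lit 4295489279,nat_lit 262280⟩],
 [⟨nat_lit 8,nat_lit 1,nat_lit 134220040,nat_lit 2312⟩, ⟨nat_lit 9,nat_lit 1,nat_lit 268437010,nat_lit 1554⟩, ⟨nat_lit 4,nat_lit 2,nat_lit 8394294,nat_lit 5154⟩, ⟨nat_lit 10,nat_lit 2,nat_lit 536872466,nat_lit 18⟩, ⟨nat_lit 11,nat_lit 2,nat_lit 1073744136,nat_lit 8⟩, ⟨nat_lit 2,nat_lit 3,nat_lit 2127414,nat_lit 17410⟩, ⟨nat_lit 5,nat_lit 4,nat_lit 16905782,nat_lit 66562⟩, ⟨nat_lit 12,nat_lit 4,nat_lit 2147546678,nat_lit 33794⟩, ⟨nat_lit 13,nat_lit 5,nat_lit 4295226999,nat_lit 1090⟩, ⟨nat_lit 14,nat_lit 6,nat_lit 8590456439,nat_lit 1026⟩]⟩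

def rec8 : Rec := ⟨nat_lit 8, nat_lit 256, nat_lit 2312,
 [⟨nat_lit 3,nat_lit 1,nat_lit 4194698,nat_lit 394⟩, ⟨nat_lit 8,nat_lit 1,nat_lit 134220040,nat_lit 2312⟩, ⟨nat_lit 11,nat_lit 1,nat_lit 1073744128,nat_lit 2304⟩, ⟨nat_lit 1,nat_lit 2,nat_lit 1050522,nat_lit 1296⟩, ⟨nat_lit 3,nat_lit 2,nat_lit 4197258,nat_lit 2560⟩, ⟨nat_lit 7,nat_lit 2,nat_lit 67109770,nat_lit 768⟩, ⟨nat_lit 8,nat_lit 2,nat_lit 134220170,nat_lit 130⟩, ⟨nat_lit 11,nat_lit 2,nat_lit 1073744136,nat_lit 8⟩, ⟨nat_lit 1,nat_lit 3,nat_lit 1052574,nat_lit 2052⟩, ⟨nat_lit 3,nat_lit 3,nat_lit 4198298,nat_lit 1040⟩, ⟨nat_lit 7,nat_lit 3,nat_lit 67112858,nat_lit 3088⟩, ⟨nat_lit 8,nat_lit 3,nat_lit 134220682,nat_lit 512⟩, ⟨nat_lit 9,nat_lit 3,nat_lit 268441534,nat_lit 4384⟩, ⟨nat_lit 11,nat_lit 3,nat_lit 1073744266,nat_lit 130⟩,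 ⟨nat_lit 1,nat_lit 4,nat_lit 1056702,nat_lit 4128⟩, ⟨nat_lit 3,nat_lit 4,nat_lit 4198302,nat_lit 4⟩, ⟨nat_lit 4,nat_lit 4,nat_lit 8419262,nat_lit 16640⟩, ⟨nat_lit 7,nat_lit 4,nat_lit 67112862,nat_lit 4⟩, ⟨nat_lit 8,nat_lit 4,nat_lit 134221722,nat_lit 1040⟩, ⟨nat_lit 9,nat_lit 4,nat_lit 268451774,nat_lit 10240⟩, ⟨nat_lit 10,nat_lit 4,nat_lit 536876990,nat_lit 4384⟩, ⟨nat_lit 11,nat_lit 4,nat_lit 1073744778,nat_lit 512⟩, ⟨nat_lit 1,nat_lit 5,nat_lit 1064894,nat_lit 8192⟩, ⟨nat_lit 2,nat_lit 5,nat_lit 2226110,nat_lit 65792⟩, ⟨nat_lit 3,nat_lit 5,nat_lit 4202430,nat_lit 4128⟩, ⟨nat_lit 4,nat_lit 5,nat_lit 8454078,nat_lit 34816⟩, ⟨nat_lit 7,nat_lit 5,nat_lit 67116990,nat_lit 4128⟩, ⟨nat_lit 8,nat_lit 5,nat_lit 134221726,nat_lit 4⟩, ⟨nat_lit 9,nat_lit 5,nat_lit 268468158,nat_lit 16384⟩, ⟨nat_lit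 10,nat_lit 5,nat_lit 536887230,nat_lit 10240⟩, ⟨nat_lit 11,nat_lit 5,nat_lit 1073745818,nat_lit 1040⟩, ⟨nat_lit 1,nat_lit 6,nat_lit 1081278,nat_lit 16384⟩, ⟨nat_lit 2,nat_lit 6,nat_lit 2359231,nat_lit 133121⟩, ⟨nat_lit 3,nat_lit 6,nat_lit 4210622,nat_lit 8192⟩, ⟨nat_lit 4,nat_lit 6,nat_lit 8519614,nat_lit 65536⟩, ⟨nat_lit 5,nat_lit 6,nat_lit 17037311,nat_lit 320⟩, ⟨nat_lit 7,nat_lit 6,nat_lit 67125182,nat_lit 8192⟩, ⟨nat_lit 8,nat_lit 6,nat_lit 134225854,nat_lit 4128⟩, ⟨nat_lit 9,nat_lit 6,nat_lit 268500926,nat_lit 32768⟩, ⟨nat_lit 10,nat_lit 6,nat_lit 536903614,nat_lit 16384⟩, ⟨nat_lit 11,nat_lit 6,nat_lit 1073745822,nat_lit 4⟩, ⟨nat_lit 12,nat_lit 6,nat_lit 2147743679,nat_lit 131329⟩],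
 [⟨nat_lit 1,nat_lit 1,nat_lit 1049226,nat_lit 650⟩, ⟨nat_lit 7,nat_lit 1,nat_lit 67109002,nat_lit 138⟩, ⟨nat_lit 9,nat_lit 2,nat_lit 268437150,nat_lit 140⟩, ⟨nat_lit 4,nat_lit 3,nat_lit 8402622,nat_lit 8328⟩, ⟨nat_lit 10,nat_lit 3,nat_lit 536872606,nat_lit 140⟩, ⟨nat_lit 2,nat_lit 4,nat_lit 2160318,nat_lit 32904⟩, ⟨nat_lit 5,nat_lit 5,nat_lit 17036991,nat_lit 131209⟩, ⟨nat_lit 12,nat_lit 5,nat_lit 2147612350,nat_lit 65672⟩, ⟨nat_lit 13,nat_lit 6,nat_lit 4295489279,nat_lit 262280⟩]⟩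

def rec9 : Rec := ⟨nat_lit 9, nat_lit 512, nat_lit 1554,
 [⟨nat_lit 1,nat_lit 1,nat_lit 1049226,nat_lit 650⟩, ⟨nat_lit 4,nat_lit 1,nat_lit 8389140,nat_lit 532⟩, ⟨nat_lit 9,nat_lit 1,nat_lit 268437010,nat_lit 1554⟩, ⟨nat_lit 10,nat_lit 1,nat_lit 536872448,nat_lit 1536⟩, ⟨nat_lit 1,nat_lit 2,nat_lit 1050522,nat_lit 1296⟩, ⟨nat_lit 2,nat_lit 2,nat_lit 2110004,nat_lit 8704⟩, ⟨nat_lit 3,nat_lit 2,nat_lit 4197258,nat_lit 2560⟩, ⟨nat_lit 4,nat_lit 2,nat_lit 8394294,nat_lit 5154⟩, ⟨nat_lit 7,nat_lit 2,nat_lit 67109770,nat_lit 768⟩, ⟨nat_lit 9,nat_lit 2,nat_lit 268437150,nat_lit 140⟩, ⟨nat_lit 10,nat_lit 2,nat_lit 536872466,nat_lit 18⟩, ⟨nat_lit 1,nat_lit 3,nat_lit 1052574,nat_lit 2052⟩, ⟨nat_lit 2,nat_lit 3,nat_lit 2127414,nat_lit 17410⟩, ⟨nat_lit 3,nat_lit 3,nat_lit 4198298,nat_lit 1040⟩, ⟨nat_lit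 4,nat_lit 3,nat_lit 8402622,nat_lit 8328⟩, ⟨nat_lit 5,nat_lit 3,nat_lit 16839220,nat_lit 33280⟩, ⟨nat_lit 7,nat_lit 3,nat_lit 67112858,nat_lit 3088⟩, ⟨nat_lit 8,nat_lit 3,nat_lit 134220682,nat_lit 512⟩, ⟨nat_lit 9,nat_lit 3,nat_lit 268441534,nat_lit 4384⟩, ⟨nat_lit 10,nat_lit 3,nat_lit 536872606,nat_lit 140⟩, ⟨nat_lit 12,nat_lit 3,nat_lit 2147512884,nat_lit 16896⟩, ⟨nat_lit 1,nat_lit 4,nat_lit 1056702,nat_lit 4128⟩, ⟨nat_lit 2,nat_lit 4,nat_lit 2160318,nat_lit 32904⟩, ⟨nat_lit 3,nat_lit 4,nat_lit 4198302,nat_lit 4⟩, ⟨nat_lit 4,nat_lit 4,nat_lit 8419262,nat_lit 16640⟩, ⟨nat_lit 5,nat_lit 4,nat_lit 16905782,nat_lit 66562⟩, ⟨nat_lit 7,nat_lit 4,nat_lit 67112862,nat_lit 4⟩, ⟨nat_lit 8,nat_lit 4,nat_lit 134221722,nat_lit 1040⟩, ⟨nat_lit 9,nat_lit 4,nat_lit 268451774,nat_lit 10240⟩, ⟨nat_lit 10,nat_lit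 4,nat_lit 536876990,nat_lit 4384⟩, ⟨nat_lit 11,nat_lit 4,nat_lit 1073744778,nat_lit 512⟩, ⟨nat_lit 12,nat_lit 4,nat_lit 2147546678,nat_lit 33794⟩, ⟨nat_lit 13,nat_lit 4,nat_lit 4295225909,nat_lit 131585⟩, ⟨nat_lit 1,nat_lit 5,nat_lit 1064894,nat_lit 8192⟩, ⟨nat_lit 2,nat_lit 5,nat_lit 2226110,nat_lit 65792⟩, ⟨nat_lit 3,nat_lit 5,nat_lit 4202430,nat_lit 4128⟩, ⟨nat_lit 4,nat_lit 5,nat_lit 8454078,nat_lit 34816⟩, ⟨nat_lit 5,nat_lit 5,nat_lit 17036991,nat_lit 131209⟩, ⟨nat_lit 7,nat_lit 5,nat_lit 67116990,nat_lit 4128⟩, ⟨nat_lit 8,nat_lit 5,nat_lit 134221726,nat_lit 4⟩, ⟨nat_lit 9,nat_lit 5,nat_lit 268468158,nat_lit 16384⟩, ⟨nat_lit 10,nat_lit 5,nat_lit 536887230,nat_lit 10240⟩, ⟨nat_lit 11,nat_lit 5,nat_lit 1073745818,nat_lit 1040⟩, ⟨nat_lit 12,nat_lit 5,nat_lit 2147612350,nat_lit 65672⟩,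 ⟨nat_lit 13,nat_lit 5,nat_lit 4295226999,nat_lit 1090⟩, ⟨nat_lit 14,nat_lit 5,nat_lit 8590455413,nat_lit 262656⟩, ⟨nat_lit 1,nat_lit 6,nat_lit 1081278,nat_lit 16384⟩, ⟨nat_lit 2,nat_lit 6,nat_lit 2359231,nat_lit 133121⟩, ⟨nat_lit 3,nat_lit 6,nat_lit 4210622,nat_lit 8192⟩, ⟨nat_lit 4,nat_lit 6,nat_lit 8519614,nat_lit 65536⟩, ⟨nat_lit 5,nat_lit 6,nat_lit 17037311,nat_lit 320⟩, ⟨nat_lit 7,nat_lit 6,nat_lit 67125182,nat_lit 8192⟩, ⟨nat_lit 8,nat_lit 6,nat_lit 134225854,nat_lit 4128⟩, ⟨nat_lit 9,nat_lit 6,nat_lit 268500926,nat_lit 32768⟩, ⟨nat_lit 10,nat_lit 6,nat_lit 536903614,nat_lit 16384⟩, ⟨nat_lit 11,nat_lit 6,nat_lit 1073745822,nat_lit 4⟩, ⟨nat_lit 12,nat_lit 6,nat_lit 2147743679,nat_lit 131329⟩, ⟨nat_lit 13,nat_lit 6,nat_lit 4295489279,nat_lit 262280⟩, ⟨nat_lit 14,nat_lit 6,nat_lit 8590456439,nat_lit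 1026⟩, ⟨nat_lit 15,nat_lit 6,nat_lit 17180390005,nat_lit 512⟩],
 [⟨nat_lit 2,nat_lit 1,nat_lit 2101300,nat_lit 4148⟩, ⟨nat_lit 3,nat_lit 1,nat_lit 4194698,nat_lit 394⟩, ⟨nat_lit 7,nat_lit 1,nat_lit 67109002,nat_lit 138⟩, ⟨nat_lit 5,nat_lit 2,nat_lit 16805940,nat_lit 16400⟩, ⟨nat_lit 8,nat_lit 2,nat_lit 134220170,nat_lit 130⟩, ⟨nat_lit 12,nat_lit 2,nat_lit 2147495988,nat_lit 8208⟩, ⟨nat_lit 11,nat_lit 3,nat_lit 1073744266,nat_lit 130⟩, ⟨nat_lit 13,nat_lit 3,nat_lit 4295094324,nat_lit 65552⟩, ⟨nat_lit 14,nat_lit 4,nat_lit 8590192757,nat_lit 80⟩, ⟨nat_lit 15,nat_lit 5,nat_lit 17180389493,nat_lit 16⟩, ⟨nat_lit 16,nat_lit 6,nat_lit 34360258677,nat_lit 16⟩]⟩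

def rec10 : Rec := ⟨nat_lit 10, nat_lit 1024, nat_lit 1536,
 [⟨nat_lit 9,nat_lit 1,nat_lit 268437010,nat_lit 1554⟩, ⟨nat_lit 10,nat_lit 1,nat_lit 536872448,nat_lit 1536⟩, ⟨nat_lit 1,nat_lit 2,nat_lit 1050522,nat_lit 1296⟩, ⟨nat_lit 4,nat_lit 2,nat_lit 8394294,nat_lit 5154⟩, ⟨nat_lit 9,nat_lit 2,nat_lit 268437150,nat_lit 140⟩, ⟨nat_lit 10,nat_lit 2,nat_lit 536872466,nat_lit 18⟩, ⟨nat_lit 1,nat_lit 3,nat_lit 1052574,nat_lit 2052⟩, ⟨nat_lit 2,nat_lit 3,nat_lit 2127414,nat_lit 17410⟩, ⟨nat_lit 3,nat_lit 3,nat_lit 4198298,nat_lit 1040⟩, ⟨nat_lit 4,nat_lit 3,nat_lit 8402622,nat_lit 8328⟩, ⟨nat_lit 7,nat_lit 3,nat_lit 67112858,nat_lit 3088⟩, ⟨nat_lit 9,nat_lit 3,nat_lit 268441534,nat_lit 4384⟩, ⟨nat_lit 10,nat_lit 3,nat_lit 536872606,nat_lit 140⟩, ⟨nat_lit 1,nat_lit 4,nat_lit 1056702,nat_lit 4128⟩,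 ⟨nat_lit 2,nat_lit 4,nat_lit 2160318,nat_lit 32904⟩, ⟨nat_lit 3,nat_lit 4,nat_lit 4198302,nat_lit 4⟩, ⟨nat_lit 4,nat_lit 4,nat_lit 8419262,nat_lit 16640⟩, ⟨nat_lit 5,nat_lit 4,nat_lit 16905782,nat_lit 66562⟩, ⟨nat_lit 7,nat_lit 4,nat_lit 67112862,nat_lit 4⟩, ⟨nat_lit 8,nat_lit 4,nat_lit 134221722,nat_lit 1040⟩, ⟨nat_lit 9,nat_lit 4,nat_lit 268451774,nat_lit 10240⟩, ⟨nat_lit 10,nat_lit 4,nat_lit 536876990,nat_lit 4384⟩, ⟨nat_lit 12,nat_lit 4,nat_lit 2147546678,nat_lit 33794⟩, ⟨nat_lit 1,nat_lit 5,nat_lit 1064894,nat_lit 8192⟩, ⟨nat_lit 2,nat_lit 5,nat_lit 2226110,nat_lit 65792⟩, ⟨nat_lit 3,nat_lit 5,nat_lit 4202430,nat_lit 4128⟩, ⟨nat_lit 4,nat_lit 5,nat_lit 8454078,nat_lit 34816⟩, ⟨nat_lit 5,nat_lit 5,nat_lit 17036991,nat_lit 131209⟩, ⟨nat_lit 7,nat_lit 5,nat_lit 67116990,nat_lit 4128⟩,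 ⟨nat_lit 8,nat_lit 5,nat_lit 134221726,nat_lit 4⟩, ⟨nat_lit 9,nat_lit 5,nat_lit 268468158,nat_lit 16384⟩, ⟨nat_lit 10,nat_lit 5,nat_lit 536887230,nat_lit 10240⟩, ⟨nat_lit 11,nat_lit 5,nat_lit 1073745818,nat_lit 1040⟩, ⟨nat_lit 12,nat_lit 5,nat_lit 2147612350,nat_lit 65672⟩, ⟨nat_lit 13,nat_lit 5,nat_lit 4295226999,nat_lit 1090⟩, ⟨nat_lit 1,nat_lit 6,nat_lit 1081278,nat_lit 16384⟩, ⟨nat_lit 2,nat_lit 6,nat_lit 2359231,nat_lit 133121⟩, ⟨nat_lit 3,nat_lit 6,nat_lit 4210622,nat_lit 8192⟩, ⟨nat_lit 4,nat_lit 6,nat_lit 8519614,nat_lit 65536⟩, ⟨nat_lit 5,nat_lit 6,nat_lit 17037311,nat_lit 320⟩, ⟨nat_lit 7,nat_lit 6,nat_lit 67125182,nat_lit 8192⟩, ⟨nat_lit 8,nat_lit 6,nat_lit 134225854,nat_lit 4128⟩, ⟨nat_lit 9,nat_lit 6,nat_lit 268500926,nat_lit 32768⟩, ⟨nat_lit 10,nat_lit 6,nat_lit 536903614,nat_lit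 16384⟩, ⟨nat_lit 11,nat_lit 6,nat_lit 1073745822,nat_lit 4⟩, ⟨nat_lit 12,nat_lit 6,nat_lit 2147743679,nat_lit 131329⟩, ⟨nat_lit 13,nat_lit 6,nat_lit 4295489279,nat_lit 262280⟩, ⟨nat_lit 14,nat_lit 6,nat_lit 8590456439,nat_lit 1026⟩],
 [⟨nat_lit 1,nat_lit 1,nat_lit 1049226,nat_lit 650⟩, ⟨nat_lit 4,nat_lit 1,nat_lit 8389140,nat_lit 532⟩, ⟨nat_lit 2,nat_lit 2,nat_lit 2110004,nat_lit 8704⟩, ⟨nat_lit 3,nat_lit 2,nat_lit 4197258,nat_lit 2560⟩, ⟨nat_lit 7,nat_lit 2,nat_lit 67109770,nat_lit 768⟩, ⟨nat_lit 5,nat_lit 3,nat_lit 16839220,nat_lit 33280⟩, ⟨nat_lit 8,nat_lit 3,nat_lit 134220682,nat_lit 512⟩, ⟨nat_lit 12,nat_lit 3,nat_lit 2147512884,nat_lit 16896⟩, ⟨nat_lit 11,nat_lit 4,nat_lit 1073744778,nat_lit 512⟩, ⟨nat_lit 13,nat_lit 4,nat_lit 4295225909,nat_lit 131585⟩, ⟨nat_lit 14,nat_lit 5,nat_lit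 8590455413,nat_lit 262656⟩, ⟨nat_lit 15,nat_lit 6,nat_lit 17180390005,nat_lit 512⟩]⟩

def rec11 : Rec := ⟨nat_lit 11, nat_lit 2048, nat_lit 2304,
 [⟨nat_lit 8,nat_lit 1,nat_lit 134220040,nat_lit 2312⟩, ⟨nat_lit 11,nat_lit 1,nat_lit 1073744128,nat_lit 2304⟩, ⟨nat_lit 3,nat_lit 2,nat_lit 4197258,nat_lit 2560⟩, ⟨nat_lit 8,nat_lit 2,nat_lit 134220170,nat_lit 130⟩, ⟨nat_lit 11,nat_lit 2,nat_lit 1073744136,nat_lit 8⟩, ⟨nat_lit 1,nat_lit 3,nat_lit 1052574,nat_lit 2052⟩, ⟨nat_lit 3,nat_lit 3,nat_lit 4198298,nat_lit 1040⟩, ⟨nat_lit 7,nat_lit 3,nat_lit 67112858,nat_lit 3088⟩, ⟨nat_lit 8,nat_lit 3,nat_lit 134220682,nat_lit 512⟩, ⟨nat_lit 11,nat_lit 3,nat_lit 1073744266,nat_lit 130⟩, ⟨nat_lit 1,nat_lit 4,nat_lit 1056702,nat_lit 4128⟩, ⟨nat_lit 3,nat_lit 4,nat_lit 4198302,nat_lit 4⟩, ⟨nat_lit 7,nat_lit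 4,nat_lit 67112862,nat_lit 4⟩, ⟨nat_lit 8,nat_lit 4,nat_lit 134221722,nat_lit 1040⟩, ⟨nat_lit 9,nat_lit 4,nat_lit 268451774,nat_lit 10240⟩, ⟨nat_lit 11,nat_lit 4,nat_lit 1073744778,nat_lit 512⟩, ⟨nat_lit 1,nat_lit 5,nat_lit 1064894,nat_lit 8192⟩, ⟨nat_lit 3,nat_lit 5,nat_lit 4202430,nat_lit 4128⟩, ⟨nat_lit 4,nat_lit 5,nat_lit 8454078,nat_lit 34816⟩, ⟨nat_lit 7,nat_lit 5,nat_lit 67116990,nat_lit 4128⟩, ⟨nat_lit 8,nat_lit 5,nat_lit 134221726,nat_lit 4⟩, ⟨nat_lit 9,nat_lit 5,nat_lit 268468158,nat_lit 16384⟩, ⟨nat_lit 10,nat_lit 5,nat_lit 536887230,nat_lit 10240⟩, ⟨nat_lit 11,nat_lit 5,nat_lit 1073745818,nat_lit 1040⟩, ⟨nat_lit 1,nat_lit 6,nat_lit 1081278,nat_lit 16384⟩, ⟨nat_lit 2,nat_lit 6,nat_lit 2359231,nat_lit 133121⟩, ⟨nat_lit 3,nat_lit 6,nat_lit 4210622,nat_lit 8192⟩, ⟨nat_lit 4,nat_lit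 6,nat_lit 8519614,nat_lit 65536⟩, ⟨nat_lit 7,nat_lit 6,nat_lit 67125182,nat_lit 8192⟩, ⟨nat_lit 8,nat_lit 6,nat_lit 134225854,nat_lit 4128⟩, ⟨nat_lit 9,nat_lit 6,nat_lit 268500926,nat_lit 32768⟩, ⟨nat_lit 10,nat_lit 6,nat_lit 536903614,nat_lit 16384⟩, ⟨nat_lit 11,nat_lit 6,nat_lit 1073745822,nat_lit 4⟩],
 [⟨nat_lit 3,nat_lit 1,nat_lit 4194698,nat_lit 394⟩, ⟨nat_lit 1,nat_lit 2,nat_lit 1050522,nat_lit 1296⟩, ⟨nat_lit 7,nat_lit 2,nat_lit 67109770,nat_lit 768⟩, ⟨nat_lit 9,nat_lit 3,nat_lit 268441534,nat_lit 4384⟩, ⟨nat_lit 4,nat_lit 4,nat_lit 8419262,nat_lit 16640⟩, ⟨nat_lit 10,nat_lit 4,nat_lit 536876990,nat_lit 4384⟩, ⟨nat_lit 2,nat_lit 5,nat_lit 2226110,nat_lit 65792⟩, ⟨nat_lit 5,nat_lit 6,nat_lit 17037311,nat_lit 320⟩, ⟨nat_lit 12,nat_lit 6,nat_lit 2147743679,nat_lit 131329⟩]⟩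

def rec12 : Rec := ⟨nat_lit 12, nat_lit 4096, nat_lit 4132,
 [⟨nat_lit 2,nat_lit 1,nat_lit 2101300,nat_lit 4148⟩, ⟨nat_lit 5,nat_lit 1,nat_lit 16789540,nat_lit 12324⟩, ⟨nat_lit 12,nat_lit 1,nat_lit 2147487780,nat_lit 4132⟩, ⟨nat_lit 2,nat_lit 2,nat_lit 2110004,nat_lit 8704⟩, ⟨nat_lit 4,nat_lit 2,nat_lit 8394294,nat_lit 5154⟩, ⟨nat_lit 5,nat_lit 2,nat_lit 16805940,nat_lit 16400⟩, ⟨nat_lit 12,nat_lit 2,nat_lit 2147495988,nat_lit 8208⟩, ⟨nat_lit 13,nat_lit 2,nat_lit 4295028772,nat_lit 36868⟩, ⟨nat_lit 2,nat_lit 3,nat_lit 2127414,nat_lit 17410⟩, ⟨nat_lit 4,nat_lit 3,nat_lit 8402622,nat_lit 8328⟩, ⟨nat_lit 5,nat_lit 3,nat_lit 16839220,nat_lit 33280⟩, ⟨nat_lit 9,nat_lit 3,nat_lit 268441534,nat_lit 4384⟩, ⟨nat_lit 12,nat_lit 3,nat_lit 2147512884,nat_lit 16896⟩, ⟨nat_lit 13,nat_lit 3,nat_lit 4295094324,nat_lit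 65552⟩, ⟨nat_lit 14,nat_lit 3,nat_lit 8590192677,nat_lit 135173⟩, ⟨nat_lit 1,nat_lit 4,nat_lit 1056702,nat_lit 4128⟩, ⟨nat_lit 2,nat_lit 4,nat_lit 2160318,nat_lit 32904⟩, ⟨nat_lit 4,nat_lit 4,nat_lit 8419262,nat_lit 16640⟩, ⟨nat_lit 5,nat_lit 4,nat_lit 16905782,nat_lit 66562⟩, ⟨nat_lit 9,nat_lit 4,nat_lit 268451774,nat_lit 10240⟩, ⟨nat_lit 10,nat_lit 4,nat_lit 536876990,nat_lit 4384⟩, ⟨nat_lit 12,nat_lit 4,nat_lit 2147546678,nat_lit 33794⟩, ⟨nat_lit 13,nat_lit 4,nat_lit 4295225909,nat_lit 131585⟩, ⟨nat_lit 14,nat_lit 4,nat_lit 8590192757,nat_lit 80⟩, ⟨nat_lit 15,nat_lit 4,nat_lit 17180389477,nat_lit 266244⟩, ⟨nat_lit 1,nat_lit 5,nat_lit 1064894,nat_lit 8192⟩, ⟨nat_lit 2,nat_lit 5,nat_lit 2226110,nat_lit 65792⟩, ⟨nat_lit 3,nat_lit 5,nat_lit 4202430,nat_lit 4128⟩, ⟨nat_lit 4,nat_lit 5,nat_lit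 8454078,nat_lit 34816⟩, ⟨nat_lit 5,nat_lit 5,nat_lit 17036991,nat_lit 131209⟩, ⟨nat_lit 7,nat_lit 5,nat_lit 67116990,nat_lit 4128⟩, ⟨nat_lit 9,nat_lit 5,nat_lit 268468158,nat_lit 16384⟩, ⟨nat_lit 10,nat_lit 5,nat_lit 536887230,nat_lit 10240⟩, ⟨nat_lit 12,nat_lit 5,nat_lit 2147612350,nat_lit 65672⟩, ⟨nat_lit 13,nat_lit 5,nat_lit 4295226999,nat_lit 1090⟩, ⟨nat_lit 14,nat_lit 5,nat_lit 8590455413,nat_lit 262656⟩, ⟨nat_lit 15,nat_lit 5,nat_lit 17180389493,nat_lit 16⟩, ⟨nat_lit 16,nat_lit 5,nat_lit 34360258661,nat_lit 4100⟩, ⟨nat_lit 0,nat_lit 6,nat_lit 1044581,nat_lit 4100⟩, ⟨nat_lit 1,nat_lit 6,nat_lit 1081278,nat_lit 16384⟩, ⟨nat_lit 2,nat_lit 6,nat_lit 2359231,nat_lit 133121⟩, ⟨nat_lit 3,nat_lit 6,nat_lit 4210622,nat_lit 8192⟩, ⟨nat_lit 4,nat_lit 6,nat_lit 8519614,nat_lit 65536⟩, ⟨nat_lit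 5,nat_lit 6,nat_lit 17037311,nat_lit 320⟩, ⟨nat_lit 7,nat_lit 6,nat_lit 67125182,nat_lit 8192⟩, ⟨nat_lit 8,nat_lit 6,nat_lit 134225854,nat_lit 4128⟩, ⟨nat_lit 9,nat_lit 6,nat_lit 268500926,nat_lit 32768⟩, ⟨nat_lit 10,nat_lit 6,nat_lit 536903614,nat_lit 16384⟩, ⟨nat_lit 12,nat_lit 6,nat_lit 2147743679,nat_lit 131329⟩, ⟨nat_lit 13,nat_lit 6,nat_lit 4295489279,nat_lit 262280⟩, ⟨nat_lit 14,nat_lit 6,nat_lit 8590456439,nat_lit 1026⟩, ⟨nat_lit 15,nat_lit 6,nat_lit 17180390005,nat_lit 512⟩, ⟨nat_lit 16,nat_lit 6,nat_lit 34360258677,nat_lit 16⟩, ⟨nat_lit 17,nat_lit 6,nat_lit 68719997029,nat_lit 4100⟩],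
 [⟨nat_lit 4,nat_lit 1,nat_lit 8389140,nat_lit 532⟩, ⟨nat_lit 13,nat_lit 1,nat_lit 4294991904,nat_lit 24608⟩, ⟨nat_lit 9,nat_lit 2,nat_lit 268437150,nat_lit 140⟩, ⟨nat_lit 14,nat_lit 2,nat_lit 8590057504,nat_lit 65568⟩, ⟨nat_lit 1,nat_lit 3,nat_lit 1052574,nat_lit 2052⟩, ⟨nat_lit 10,nat_lit 3,nat_lit 536872606,nat_lit 140⟩, ⟨nat_lit 15,nat_lit 3,nat_lit 17180123233,nat_lit 96⟩, ⟨nat_lit 3,nat_lit 4,nat_lit 4198302,nat_lit 4⟩, ⟨nat_lit 7,nat_lit 4,nat_lit 67112862,nat_lit 4⟩, ⟨nat_lit 16,nat_lit 4,nat_lit 34360254561,nat_lit 32⟩, ⟨nat_lit 0,nat_lit 5,nat_lit 1040481,nat_lit 32⟩, ⟨nat_lit 8,nat_lit 5,nat_lit 134221726,nat_lit 4⟩, ⟨nat_lit 17,nat_lit 5,nat_lit 68719992929,nat_lit 32⟩, ⟨nat_lit 6,nat_lit 6,nat_lit 34070625,nat_lit 32⟩, ⟨nat_lit 11,nat_lit 6,nat_lit 1073745822,nat_lit 4⟩]⟩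

def rec13 : Rec := ⟨nat_lit 13, nat_lit 8192, nat_lit 24608,
 [⟨nat_lit 5,nat_lit 1,nat_lit 16789540,nat_lit 12324⟩, ⟨nat_lit 13,nat_lit 1,nat_lit 4294991904,nat_lit 24608⟩, ⟨nat_lit 14,nat_lit 1,nat_lit 8589991936,nat_lit 57344⟩, ⟨nat_lit 2,nat_lit 2,nat_lit 2110004,nat_lit 8704⟩, ⟨nat_lit 5,nat_lit 2,nat_lit 16805940,nat_lit 16400⟩, ⟨nat_lit 12,nat_lit 2,nat_lit 2147495988,nat_lit 8208⟩, ⟨nat_lit 13,nat_lit 2,nat_lit 4295028772,nat_lit 36868⟩, ⟨nat_lit 14,nat_lit 2,nat_lit 8590057504,nat_lit 65568⟩, ⟨nat_lit 15,nat_lit 2,nat_lit 17180123137,nat_lit 139265⟩, ⟨nat_lit 2,nat_lit 3,nat_lit 2127414,nat_lit 17410⟩, ⟨nat_lit 4,nat_lit 3,nat_lit 8402622,nat_lit 8328⟩, ⟨nat_lit 5,nat_lit 3,nat_lit 16839220,nat_lit 33280⟩, ⟨nat_lit 12,nat_lit 3,nat_lit 2147512884,nat_lit 16896⟩, ⟨nat_lit 13,nat_lit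 3,nat_lit 4295094324,nat_lit 65552⟩, ⟨nat_lit 14,nat_lit 3,nat_lit 8590192677,nat_lit 135173⟩, ⟨nat_lit 15,nat_lit 3,nat_lit 17180123233,nat_lit 96⟩, ⟨nat_lit 16,nat_lit 3,nat_lit 34360254529,nat_lit 270336⟩, ⟨nat_lit 0,nat_lit 4,nat_lit 1040449,nat_lit 8192⟩, ⟨nat_lit 2,nat_lit 4,nat_lit 2160318,nat_lit 32904⟩, ⟨nat_lit 4,nat_lit 4,nat_lit 8419262,nat_lit 16640⟩, ⟨nat_lit 5,nat_lit 4,nat_lit 16905782,nat_lit 66562⟩, ⟨nat_lit 9,nat_lit 4,nat_lit 268451774,nat_lit 10240⟩, ⟨nat_lit 12,nat_lit 4,nat_lit 2147546678,nat_lit 33794⟩, ⟨nat_lit 13,nat_lit 4,nat_lit 4295225909,nat_lit 131585⟩, ⟨nat_lit 14,nat_lit 4,nat_lit 8590192757,nat_lit 80⟩, ⟨nat_lit 15,nat_lit 4,nat_lit 17180389477,nat_lit 266244⟩, ⟨nat_lit 16,nat_lit 4,nat_lit 34360254561,nat_lit 32⟩, ⟨nat_lit 17,nat_lit 4,nat_lit 68719992897,nat_lit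 270336⟩, ⟨nat_lit 0,nat_lit 5,nat_lit 1040481,nat_lit 32⟩, ⟨nat_lit 1,nat_lit 5,nat_lit 1064894,nat_lit 8192⟩, ⟨nat_lit 2,nat_lit 5,nat_lit 2226110,nat_lit 65792⟩, ⟨nat_lit 4,nat_lit 5,nat_lit 8454078,nat_lit 34816⟩, ⟨nat_lit 5,nat_lit 5,nat_lit 17036991,nat_lit 131209⟩, ⟨nat_lit 6,nat_lit 5,nat_lit 34070593,nat_lit 8192⟩, ⟨nat_lit 9,nat_lit 5,nat_lit 268468158,nat_lit 16384⟩, ⟨nat_lit 10,nat_lit 5,nat_lit 536887230,nat_lit 10240⟩, ⟨nat_lit 12,nat_lit 5,nat_lit 2147612350,nat_lit 65672⟩, ⟨nat_lit 13,nat_lit 5,nat_lit 4295226999,nat_lit 1090⟩, ⟨nat_lit 14,nat_lit 5,nat_lit 8590455413,nat_lit 262656⟩, ⟨nat_lit 15,nat_lit 5,nat_lit 17180389493,nat_lit 16⟩, ⟨nat_lit 16,nat_lit 5,nat_lit 34360258661,nat_lit 4100⟩, ⟨nat_lit 17,nat_lit 5,nat_lit 68719992929,nat_lit 32⟩, ⟨nat_lit 0,nat_lit 6,nat_lit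 1044581,nat_lit 4100⟩, ⟨nat_lit 1,nat_lit 6,nat_lit 1081278,nat_lit 16384⟩, ⟨nat_lit 2,nat_lit 6,nat_lit 2359231,nat_lit 133121⟩, ⟨nat_lit 3,nat_lit 6,nat_lit 4210622,nat_lit 8192⟩, ⟨nat_lit 4,nat_lit 6,nat_lit 8519614,nat_lit 65536⟩, ⟨nat_lit 5,nat_lit 6,nat_lit 17037311,nat_lit 320⟩, ⟨nat_lit 6,nat_lit 6,nat_lit 34070625,nat_lit 32⟩, ⟨nat_lit 7,nat_lit 6,nat_lit 67125182,nat_lit 8192⟩, ⟨nat_lit 9,nat_lit 6,nat_lit 268500926,nat_lit 32768⟩, ⟨nat_lit 10,nat_lit 6,nat_lit 536903614,nat_lit 16384⟩, ⟨nat_lit 12,nat_lit 6,nat_lit 2147743679,nat_lit 131329⟩, ⟨nat_lit 13,nat_lit 6,nat_lit 4295489279,nat_lit 262280⟩, ⟨nat_lit 14,nat_lit 6,nat_lit 8590456439,nat_lit 1026⟩, ⟨nat_lit 15,nat_lit 6,nat_lit 17180390005,nat_lit 512⟩, ⟨nat_lit 16,nat_lit 6,nat_lit 34360258677,nat_lit 16⟩, ⟨nat_lit 17,nat_lit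 6,nat_lit 68719997029,nat_lit 4100⟩, ⟨nat_lit 18,nat_lit 6,nat_lit 137439469633,nat_lit 8192⟩],
 [⟨nat_lit 2,nat_lit 1,nat_lit 2101300,nat_lit 4148⟩, ⟨nat_lit 12,nat_lit 1,nat_lit 2147487780,nat_lit 4132⟩, ⟨nat_lit 15,nat_lit 1,nat_lit 17179983872,nat_lit 114688⟩, ⟨nat_lit 4,nat_lit 2,nat_lit 8394294,nat_lit 5154⟩, ⟨nat_lit 16,nat_lit 2,nat_lit 34359984193,nat_lit 16448⟩, ⟨nat_lit 0,nat_lit 3,nat_lit 1032257,nat_lit 16384⟩, ⟨nat_lit 9,nat_lit 3,nat_lit 268441534,nat_lit 4384⟩, ⟨nat_lit 17,nat_lit 3,nat_lit 68719722561,nat_lit 16448⟩, ⟨nat_lit 1,nat_lit 4,nat_lit 1056702,nat_lit 4128⟩, ⟨nat_lit 6,nat_lit 4,nat_lit 34062401,nat_lit 16384⟩, ⟨nat_lit 10,nat_lit 4,nat_lit 536876990,nat_lit 4384⟩, ⟨nat_lit 3,nat_lit 5,nat_lit 4202430,nat_lit 4128⟩, ⟨nat_lit 7,nat_lit 5,nat_lit 67116990,nat_lit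 4128⟩, ⟨nat_lit 18,nat_lit 5,nat_lit 137439461441,nat_lit 16384⟩, ⟨nat_lit 8,nat_lit 6,nat_lit 134225854,nat_lit 4128⟩]⟩

def rec14 : Rec := ⟨nat_lit 14, nat_lit 16384, nat_lit 57344,
 [⟨nat_lit 13,nat_lit 1,nat_lit 4294991904,nat_lit 24608⟩, ⟨nat_lit 14,nat_lit 1,nat_lit 8589991936,nat_lit 57344⟩, ⟨nat_lit 15,nat_lit 1,nat_lit 17179983872,nat_lit 114688⟩, ⟨nat_lit 5,nat_lit 2,nat_lit 16805940,nat_lit 16400⟩, ⟨nat_lit 13,nat_lit 2,nat_lit 4295028772,nat_lit 36868⟩, ⟨nat_lit 14,nat_lit 2,nat_lit 8590057504,nat_lit 65568⟩, ⟨nat_lit 15,nat_lit 2,nat_lit 17180123137,nat_lit 139265⟩, ⟨nat_lit 16,nat_lit 2,nat_lit 34359984193,nat_lit 16448⟩, ⟨nat_lit 0,nat_lit 3,nat_lit 1032257,nat_lit 16384⟩, ⟨nat_lit 2,nat_lit 3,nat_lit 2127414,nat_lit 17410⟩, ⟨nat_lit 5,nat_lit 3,nat_lit 16839220,nat_lit 33280⟩,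 ⟨nat_lit 12,nat_lit 3,nat_lit 2147512884,nat_lit 16896⟩, ⟨nat_lit 13,nat_lit 3,nat_lit 4295094324,nat_lit 65552⟩, ⟨nat_lit 14,nat_lit 3,nat_lit 8590192677,nat_lit 135173⟩, ⟨nat_lit 15,nat_lit 3,nat_lit 17180123233,nat_lit 96⟩, ⟨nat_lit 16,nat_lit 3,nat_lit 34360254529,nat_lit 270336⟩, ⟨nat_lit 17,nat_lit 3,nat_lit 68719722561,nat_lit 16448⟩, ⟨nat_lit 0,nat_lit 4,nat_lit 1040449,nat_lit 8192⟩, ⟨nat_lit 2,nat_lit 4,nat_lit 2160318,nat_lit 32904⟩, ⟨nat_lit 4,nat_lit 4,nat_lit 8419262,nat_lit 16640⟩, ⟨nat_lit 5,nat_lit 4,nat_lit 16905782,nat_lit 66562⟩, ⟨nat_lit 6,nat_lit 4,nat_lit 34062401,nat_lit 16384⟩, ⟨nat_lit 12,nat_lit 4,nat_lit 2147546678,nat_lit 33794⟩, ⟨nat_lit 13,nat_lit 4,nat_lit 4295225909,nat_lit 131585⟩, ⟨nat_lit 14,nat_lit 4,nat_lit 8590192757,nat_lit 80⟩, ⟨nat_lit 15,nat_lit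 4,nat_lit 17180389477,nat_lit 266244⟩, ⟨nat_lit 16,nat_lit 4,nat_lit 34360254561,nat_lit 32⟩, ⟨nat_lit 17,nat_lit 4,nat_lit 68719992897,nat_lit 270336⟩, ⟨nat_lit 0,nat_lit 5,nat_lit 1040481,nat_lit 32⟩, ⟨nat_lit 2,nat_lit 5,nat_lit 2226110,nat_lit 65792⟩, ⟨nat_lit 4,nat_lit 5,nat_lit 8454078,nat_lit 34816⟩, ⟨nat_lit 5,nat_lit 5,nat_lit 17036991,nat_lit 131209⟩, ⟨nat_lit 6,nat_lit 5,nat_lit 34070593,nat_lit 8192⟩, ⟨nat_lit 9,nat_lit 5,nat_lit 268468158,nat_lit 16384⟩, ⟨nat_lit 12,nat_lit 5,nat_lit 2147612350,nat_lit 65672⟩, ⟨nat_lit 13,nat_lit 5,nat_lit 4295226999,nat_lit 1090⟩, ⟨nat_lit 14,nat_lit 5,nat_lit 8590455413,nat_lit 262656⟩, ⟨nat_lit 15,nat_lit 5,nat_lit 17180389493,nat_lit 16⟩, ⟨nat_lit 16,nat_lit 5,nat_lit 34360258661,nat_lit 4100⟩, ⟨nat_lit 17,nat_lit 5,nat_lit 68719992929,nat_lit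 32⟩, ⟨nat_lit 18,nat_lit 5,nat_lit 137439461441,nat_lit 16384⟩, ⟨nat_lit 0,nat_lit 6,nat_lit 1044581,nat_lit 4100⟩, ⟨nat_lit 1,nat_lit 6,nat_lit 1081278,nat_lit 16384⟩, ⟨nat_lit 2,nat_lit 6,nat_lit 2359231,nat_lit 133121⟩, ⟨nat_lit 4,nat_lit 6,nat_lit 8519614,nat_lit 65536⟩, ⟨nat_lit 5,nat_lit 6,nat_lit 17037311,nat_lit 320⟩, ⟨nat_lit 6,nat_lit 6,nat_lit 34070625,nat_lit 32⟩, ⟨nat_lit 9,nat_lit 6,nat_lit 268500926,nat_lit 32768⟩, ⟨nat_lit 10,nat_lit 6,nat_lit 536903614,nat_lit 16384⟩, ⟨nat_lit 12,nat_lit 6,nat_lit 2147743679,nat_lit 131329⟩, ⟨nat_lit 13,nat_lit 6,nat_lit 4295489279,nat_lit 262280⟩, ⟨nat_lit 14,nat_lit 6,nat_lit 8590456439,nat_lit 1026⟩, ⟨nat_lit 15,nat_lit 6,nat_lit 17180390005,nat_lit 512⟩, ⟨nat_lit 16,nat_lit 6,nat_lit 34360258677,nat_lit 16⟩, ⟨nat_lit 17,nat_lit 6,nat_lit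 68719997029,nat_lit 4100⟩, ⟨nat_lit 18,nat_lit 6,nat_lit 137439469633,nat_lit 8192⟩],
 [⟨nat_lit 5,nat_lit 1,nat_lit 16789540,nat_lit 12324⟩, ⟨nat_lit 16,nat_lit 1,nat_lit 34359967745,nat_lit 229377⟩, ⟨nat_lit 0,nat_lit 2,nat_lit 1015873,nat_lit 425984⟩, ⟨nat_lit 2,nat_lit 2,nat_lit 2110004,nat_lit 8704⟩, ⟨nat_lit 12,nat_lit 2,nat_lit 2147495988,nat_lit 8208⟩, ⟨nat_lit 17,nat_lit 2,nat_lit 68719706113,nat_lit 32769⟩, ⟨nat_lit 4,nat_lit 3,nat_lit 8402622,nat_lit 8328⟩, ⟨nat_lit 6,nat_lit 3,nat_lit 34046017,nat_lit 163840⟩, ⟨nat_lit 9,nat_lit 4,nat_lit 268451774,nat_lit 10240⟩, ⟨nat_lit 18,nat_lit 4,nat_lit 137439445057,nat_lit 163840⟩, ⟨nat_lit 1,nat_lit 5,nat_lit 1064894,nat_lit 8192⟩, ⟨nat_lit 10,nat_lit 5,nat_lit 536887230,nat_lit 10240⟩, ⟨nat_lit 3,nat_lit 6,nat_lit 4210622,nat_lit 8192⟩,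 ⟨nat_lit 7,nat_lit 6,nat_lit 67125182,nat_lit 8192⟩]⟩

def rec15 : Rec := ⟨nat_lit 15, nat_lit 32768, nat_lit 114688,
 [⟨nat_lit 14,nat_lit 1,nat_lit 8589991936,nat_lit 57344⟩, ⟨nat_lit 15,nat_lit 1,nat_lit 17179983872,nat_lit 114688⟩, ⟨nat_lit 16,nat_lit 1,nat_lit 34359967745,nat_lit 229377⟩, ⟨nat_lit 0,nat_lit 2,nat_lit 1015873,nat_lit 425984⟩, ⟨nat_lit 13,nat_lit 2,nat_lit 4295028772,nat_lit 36868⟩, ⟨nat_lit 14,nat_lit 2,nat_lit 8590057504,nat_lit 65568⟩, ⟨nat_lit 15,nat_lit 2,nat_lit 17180123137,nat_lit 139265⟩, ⟨nat_lit 16,nat_lit 2,nat_lit 34359984193,nat_lit 16448⟩, ⟨nat_lit 17,nat_lit 2,nat_lit 68719706113,nat_lit 32769⟩, ⟨nat_lit 0,nat_lit 3,nat_lit 1032257,nat_lit 16384⟩, ⟨nat_lit 5,nat_lit 3,nat_lit 16839220,nat_lit 33280⟩, ⟨nat_lit 6,nat_lit 3,nat_lit 34046017,nat_lit 163840⟩,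 ⟨nat_lit 13,nat_lit 3,nat_lit 4295094324,nat_lit 65552⟩, ⟨nat_lit 14,nat_lit 3,nat_lit 8590192677,nat_lit 135173⟩, ⟨nat_lit 15,nat_lit 3,nat_lit 17180123233,nat_lit 96⟩, ⟨nat_lit 16,nat_lit 3,nat_lit 34360254529,nat_lit 270336⟩, ⟨nat_lit 17,nat_lit 3,nat_lit 68719722561,nat_lit 16448⟩, ⟨nat_lit 0,nat_lit 4,nat_lit 1040449,nat_lit 8192⟩, ⟨nat_lit 2,nat_lit 4,nat_lit 2160318,nat_lit 32904⟩, ⟨nat_lit 5,nat_lit 4,nat_lit 16905782,nat_lit 66562⟩, ⟨nat_lit 6,nat_lit 4,nat_lit 34062401,nat_lit 16384⟩, ⟨nat_lit 12,nat_lit 4,nat_lit 2147546678,nat_lit 33794⟩, ⟨nat_lit 13,nat_lit 4,nat_lit 4295225909,nat_lit 131585⟩, ⟨nat_lit 14,nat_lit 4,nat_lit 8590192757,nat_lit 80⟩, ⟨nat_lit 15,nat_lit 4,nat_lit 17180389477,nat_lit 266244⟩, ⟨nat_lit 16,nat_lit 4,nat_lit 34360254561,nat_lit 32⟩, ⟨nat_lit 17,nat_lit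 4,nat_lit 68719992897,nat_lit 270336⟩, ⟨nat_lit 18,nat_lit 4,nat_lit 137439445057,nat_lit 163840⟩, ⟨nat_lit 0,nat_lit 5,nat_lit 1040481,nat_lit 32⟩, ⟨nat_lit 2,nat_lit 5,nat_lit 2226110,nat_lit 65792⟩, ⟨nat_lit 4,nat_lit 5,nat_lit 8454078,nat_lit 34816⟩, ⟨nat_lit 5,nat_lit 5,nat_lit 17036991,nat_lit 131209⟩, ⟨nat_lit 6,nat_lit 5,nat_lit 34070593,nat_lit 8192⟩, ⟨nat_lit 12,nat_lit 5,nat_lit 2147612350,nat_lit 65672⟩, ⟨nat_lit 13,nat_lit 5,nat_lit 4295226999,nat_lit 1090⟩, ⟨nat_lit 14,nat_lit 5,nat_lit 8590455413,nat_lit 262656⟩, ⟨nat_lit 15,nat_lit 5,nat_lit 17180389493,nat_lit 16⟩, ⟨nat_lit 16,nat_lit 5,nat_lit 34360258661,nat_lit 4100⟩, ⟨nat_lit 17,nat_lit 5,nat_lit 68719992929,nat_lit 32⟩, ⟨nat_lit 18,nat_lit 5,nat_lit 137439461441,nat_lit 16384⟩, ⟨nat_lit 0,nat_lit 6,nat_lit 1044581,nat_lit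 4100⟩, ⟨nat_lit 2,nat_lit 6,nat_lit 2359231,nat_lit 133121⟩, ⟨nat_lit 4,nat_lit 6,nat_lit 8519614,nat_lit 65536⟩, ⟨nat_lit 5,nat_lit 6,nat_lit 17037311,nat_lit 320⟩, ⟨nat_lit 6,nat_lit 6,nat_lit 34070625,nat_lit 32⟩, ⟨nat_lit 9,nat_lit 6,nat_lit 268500926,nat_lit 32768⟩, ⟨nat_lit 12,nat_lit 6,nat_lit 2147743679,nat_lit 131329⟩, ⟨nat_lit 13,nat_lit 6,nat_lit 4295489279,nat_lit 262280⟩, ⟨nat_lit 14,nat_lit 6,nat_lit 8590456439,nat_lit 1026⟩, ⟨nat_lit 15,nat_lit 6,nat_lit 17180390005,nat_lit 512⟩, ⟨nat_lit 16,nat_lit 6,nat_lit 34360258677,nat_lit 16⟩, ⟨nat_lit 17,nat_lit 6,nat_lit 68719997029,nat_lit 4100⟩, ⟨nat_lit 18,nat_lit 6,nat_lit 137439469633,nat_lit 8192⟩],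
 [⟨nat_lit 0,nat_lit 1,nat_lit 589889,nat_lit 65601⟩, ⟨nat_lit 13,nat_lit 1,nat_lit 4294991904,nat_lit 24608⟩, ⟨nat_lit 17,nat_lit 1,nat_lit 68719673344,nat_lit 196608⟩, ⟨nat_lit 5,nat_lit 2,nat_lit 16805940,nat_lit 16400⟩, ⟨nat_lit 6,nat_lit 2,nat_lit 33882177,nat_lit 65536⟩, ⟨nat_lit 2,nat_lit 3,nat_lit 2127414,nat_lit 17410⟩, ⟨nat_lit 12,nat_lit 3,nat_lit 2147512884,nat_lit 16896⟩, ⟨nat_lit 18,nat_lit 3,nat_lit 137439281217,nat_lit 65536⟩, ⟨nat_lit 4,nat_lit 4,nat_lit 8419262,nat_lit 16640⟩, ⟨nat_lit 9,nat_lit 5,nat_lit 268468158,nat_lit 16384⟩, ⟨nat_lit 1,nat_lit 6,nat_lit 1081278,nat_lit 16384⟩, ⟨nat_lit 10,nat_lit 6,nat_lit 536903614,nat_lit 16384⟩]⟩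

def rec16 : Rec := ⟨nat_lit 16, nat_lit 65536, nat_lit 229377,
 [⟨nat_lit 0,nat_lit 1,nat_lit 589889,nat_lit 65601⟩, ⟨nat_lit 15,nat_lit 1,nat_lit 17179983872,nat_lit 114688⟩, ⟨nat_lit 16,nat_lit 1,nat_lit 34359967745,nat_lit 229377⟩, ⟨nat_lit 17,nat_lit 1,nat_lit 68719673344,nat_lit 196608⟩, ⟨nat_lit 0,nat_lit 2,nat_lit 1015873,nat_lit 425984⟩, ⟨nat_lit 6,nat_lit 2,nat_lit 33882177,nat_lit 65536⟩, ⟨nat_lit 14,nat_lit 2,nat_lit 8590057504,nat_lit 65568⟩, ⟨nat_lit 15,nat_lit 2,nat_lit 17180123137,nat_lit 139265⟩, ⟨nat_lit 16,nat_lit 2,nat_lit 34359984193,nat_lit 16448⟩, ⟨nat_lit 17,nat_lit 2,nat_lit 68719706113,nat_lit 32769⟩, ⟨nat_lit 0,nat_lit 3,nat_lit 1032257,nat_lit 16384⟩, ⟨nat_lit 6,nat_lit 3,nat_lit 34046017,nat_lit 163840⟩, ⟨nat_lit 13,nat_lit 3,nat_lit 4295094324,nat_lit 65552⟩,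 ⟨nat_lit 14,nat_lit 3,nat_lit 8590192677,nat_lit 135173⟩, ⟨nat_lit 15,nat_lit 3,nat_lit 17180123233,nat_lit 96⟩, ⟨nat_lit 16,nat_lit 3,nat_lit 34360254529,nat_lit 270336⟩, ⟨nat_lit 17,nat_lit 3,nat_lit 68719722561,nat_lit 16448⟩, ⟨nat_lit 18,nat_lit 3,nat_lit 137439281217,nat_lit 65536⟩, ⟨nat_lit 0,nat_lit 4,nat_lit 1040449,nat_lit 8192⟩, ⟨nat_lit 5,nat_lit 4,nat_lit 16905782,nat_lit 66562⟩, ⟨nat_lit 6,nat_lit 4,nat_lit 34062401,nat_lit 16384⟩, ⟨nat_lit 13,nat_lit 4,nat_lit 4295225909,nat_lit 131585⟩, ⟨nat_lit 14,nat_lit 4,nat_lit 8590192757,nat_lit 80⟩, ⟨nat_lit 15,nat_lit 4,nat_lit 17180389477,nat_lit 266244⟩, ⟨nat_lit 16,nat_lit 4,nat_lit 34360254561,nat_lit 32⟩, ⟨nat_lit 17,nat_lit 4,nat_lit 68719992897,nat_lit 270336⟩, ⟨nat_lit 18,nat_lit 4,nat_lit 137439445057,nat_lit 163840⟩, ⟨nat_lit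 0,nat_lit 5,nat_lit 1040481,nat_lit 32⟩, ⟨nat_lit 2,nat_lit 5,nat_lit 2226110,nat_lit 65792⟩, ⟨nat_lit 5,nat_lit 5,nat_lit 17036991,nat_lit 131209⟩, ⟨nat_lit 6,nat_lit 5,nat_lit 34070593,nat_lit 8192⟩, ⟨nat_lit 12,nat_lit 5,nat_lit 2147612350,nat_lit 65672⟩, ⟨nat_lit 13,nat_lit 5,nat_lit 4295226999,nat_lit 1090⟩, ⟨nat_lit 14,nat_lit 5,nat_lit 8590455413,nat_lit 262656⟩, ⟨nat_lit 15,nat_lit 5,nat_lit 17180389493,nat_lit 16⟩, ⟨nat_lit 16,nat_lit 5,nat_lit 34360258661,nat_lit 4100⟩, ⟨nat_lit 17,nat_lit 5,nat_lit 68719992929,nat_lit 32⟩, ⟨nat_lit 18,nat_lit 5,nat_lit 137439461441,nat_lit 16384⟩, ⟨nat_lit 0,nat_lit 6,nat_lit 1044581,nat_lit 4100⟩, ⟨nat_lit 2,nat_lit 6,nat_lit 2359231,nat_lit 133121⟩, ⟨nat_lit 4,nat_lit 6,nat_lit 8519614,nat_lit 65536⟩, ⟨nat_lit 5,nat_lit 6,nat_lit 17037311,nat_lit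 320⟩, ⟨nat_lit 6,nat_lit 6,nat_lit 34070625,nat_lit 32⟩, ⟨nat_lit 12,nat_lit 6,nat_lit 2147743679,nat_lit 131329⟩, ⟨nat_lit 13,nat_lit 6,nat_lit 4295489279,nat_lit 262280⟩, ⟨nat_lit 14,nat_lit 6,nat_lit 8590456439,nat_lit 1026⟩, ⟨nat_lit 15,nat_lit 6,nat_lit 17180390005,nat_lit 512⟩, ⟨nat_lit 16,nat_lit 6,nat_lit 34360258677,nat_lit 16⟩, ⟨nat_lit 17,nat_lit 6,nat_lit 68719997029,nat_lit 4100⟩, ⟨nat_lit 18,nat_lit 6,nat_lit 137439469633,nat_lit 8192⟩],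
 [⟨nat_lit 6,nat_lit 1,nat_lit 33816641,nat_lit 262209⟩, ⟨nat_lit 14,nat_lit 1,nat_lit 8589991936,nat_lit 57344⟩, ⟨nat_lit 13,nat_lit 2,nat_lit 4295028772,nat_lit 36868⟩, ⟨nat_lit 18,nat_lit 2,nat_lit 137439215681,nat_lit 1⟩, ⟨nat_lit 5,nat_lit 3,nat_lit 16839220,nat_lit 33280⟩, ⟨nat_lit 2,nat_lit 4,nat_lit 2160318,nat_lit 32904⟩, ⟨nat_lit 12,nat_lit 4,nat_lit 2147546678,nat_lit 33794⟩, ⟨nat_lit 4,nat_lit 5,nat_lit 8454078,nat_lit 34816⟩, ⟨nat_lit 9,nat_lit 6,nat_lit 268500926,nat_lit 32768⟩]⟩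

def rec17 : Rec := ⟨nat_lit 17, nat_lit 131072, nat_lit 196608,
 [⟨nat_lit 16,nat_lit 1,nat_lit 34359967745,nat_lit 229377⟩, ⟨nat_lit 17,nat_lit 1,nat_lit 68719673344,nat_lit 196608⟩, ⟨nat_lit 0,nat_lit 2,nat_lit 1015873,nat_lit 425984⟩, ⟨nat_lit 15,nat_lit 2,nat_lit 17180123137,nat_lit 139265⟩, ⟨nat_lit 16,nat_lit 2,nat_lit 34359984193,nat_lit 16448⟩, ⟨nat_lit 17,nat_lit 2,nat_lit 68719706113,nat_lit 32769⟩, ⟨nat_lit 0,nat_lit 3,nat_lit 1032257,nat_lit 16384⟩, ⟨nat_lit 6,nat_lit 3,nat_lit 34046017,nat_lit 163840⟩, ⟨nat_lit 14,nat_lit 3,nat_lit 8590192677,nat_lit 135173⟩, ⟨nat_lit 15,nat_lit 3,nat_lit 17180123233,nat_lit 96⟩, ⟨nat_lit 16,nat_lit 3,nat_lit 34360254529,nat_lit 270336⟩, ⟨nat_lit 17,nat_lit 3,nat_lit 68719722561,nat_lit 16448⟩, ⟨nat_lit 0,nat_lit 4,nat_lit 1040449,nat_lit 8192⟩,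 ⟨nat_lit 6,nat_lit 4,nat_lit 34062401,nat_lit 16384⟩, ⟨nat_lit 13,nat_lit 4,nat_lit 4295225909,nat_lit 131585⟩, ⟨nat_lit 14,nat_lit 4,nat_lit 8590192757,nat_lit 80⟩, ⟨nat_lit 15,nat_lit 4,nat_lit 17180389477,nat_lit 266244⟩, ⟨nat_lit 16,nat_lit 4,nat_lit 34360254561,nat_lit 32⟩, ⟨nat_lit 17,nat_lit 4,nat_lit 68719992897,nat_lit 270336⟩, ⟨nat_lit 18,nat_lit 4,nat_lit 137439445057,nat_lit 163840⟩, ⟨nat_lit 0,nat_lit 5,nat_lit 1040481,nat_lit 32⟩, ⟨nat_lit 5,nat_lit 5,nat_lit 17036991,nat_lit 131209⟩, ⟨nat_lit 6,nat_lit 5,nat_lit 34070593,nat_lit 8192⟩, ⟨nat_lit 13,nat_lit 5,nat_lit 4295226999,nat_lit 1090⟩, ⟨nat_lit 14,nat_lit 5,nat_lit 8590455413,nat_lit 262656⟩, ⟨nat_lit 15,nat_lit 5,nat_lit 17180389493,nat_lit 16⟩, ⟨nat_lit 16,nat_lit 5,nat_lit 34360258661,nat_lit 4100⟩, ⟨nat_lit 17,nat_lit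 5,nat_lit 68719992929,nat_lit 32⟩, ⟨nat_lit 18,nat_lit 5,nat_lit 137439461441,nat_lit 16384⟩, ⟨nat_lit 0,nat_lit 6,nat_lit 1044581,nat_lit 4100⟩, ⟨nat_lit 2,nat_lit 6,nat_lit 2359231,nat_lit 133121⟩, ⟨nat_lit 5,nat_lit 6,nat_lit 17037311,nat_lit 320⟩, ⟨nat_lit 6,nat_lit 6,nat_lit 34070625,nat_lit 32⟩, ⟨nat_lit 12,nat_lit 6,nat_lit 2147743679,nat_lit 131329⟩, ⟨nat_lit 13,nat_lit 6,nat_lit 4295489279,nat_lit 262280⟩, ⟨nat_lit 14,nat_lit 6,nat_lit 8590456439,nat_lit 1026⟩, ⟨nat_lit 15,nat_lit 6,nat_lit 17180390005,nat_lit 512⟩, ⟨nat_lit 16,nat_lit 6,nat_lit 34360258677,nat_lit 16⟩, ⟨nat_lit 17,nat_lit 6,nat_lit 68719997029,nat_lit 4100⟩, ⟨nat_lit 18,nat_lit 6,nat_lit 137439469633,nat_lit 8192⟩],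
 [⟨nat_lit 0,nat_lit 1,nat_lit 589889,nat_lit 65601⟩, ⟨nat_lit 15,nat_lit 1,nat_lit 17179983872,nat_lit 114688⟩, ⟨nat_lit 6,nat_lit 2,nat_lit 33882177,nat_lit 65536⟩, ⟨nat_lit 14,nat_lit 2,nat_lit 8590057504,nat_lit 65568⟩, ⟨nat_lit 13,nat_lit 3,nat_lit 4295094324,nat_lit 65552⟩, ⟨nat_lit 18,nat_lit 3,nat_lit 137439281217,nat_lit 65536⟩, ⟨nat_lit 5,nat_lit 4,nat_lit 16905782,nat_lit 66562⟩, ⟨nat_lit 2,nat_lit 5,nat_lit 2226110,nat_lit 65792⟩, ⟨nat_lit 12,nat_lit 5,nat_lit 2147612350,nat_lit 65672⟩, ⟨nat_lit 4,nat_lit 6,nat_lit 8519614,nat_lit 65536⟩]⟩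

def rec18 : Rec := ⟨nat_lit 18, nat_lit 262144, nat_lit 262208,
 [⟨nat_lit 6,nat_lit 1,nat_lit 33816641,nat_lit 262209⟩, ⟨nat_lit 18,nat_lit 1,nat_lit 137439215680,nat_lit 262208⟩, ⟨nat_lit 0,nat_lit 2,nat_lit 1015873,nat_lit 425984⟩, ⟨nat_lit 6,nat_lit 2,nat_lit 33882177,nat_lit 65536⟩, ⟨nat_lit 18,nat_lit 2,nat_lit 137439215681,nat_lit 1⟩, ⟨nat_lit 0,nat_lit 3,nat_lit 1032257,nat_lit 16384⟩, ⟨nat_lit 6,nat_lit 3,nat_lit 34046017,nat_lit 163840⟩, ⟨nat_lit 16,nat_lit 3,nat_lit 34360254529,nat_lit 270336⟩, ⟨nat_lit 18,nat_lit 3,nat_lit 137439281217,nat_lit 65536⟩, ⟨nat_lit 0,nat_lit 4,nat_lit 1040449,nat_lit 8192⟩, ⟨nat_lit 6,nat_lit 4,nat_lit 34062401,nat_lit 16384⟩, ⟨nat_lit 15,nat_lit 4,nat_lit 17180389477,nat_lit 266244⟩, ⟨nat_lit 16,nat_lit 4,nat_lit 34360254561,nat_lit 32⟩, ⟨nat_lit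 17,nat_lit 4,nat_lit 68719992897,nat_lit 270336⟩, ⟨nat_lit 18,nat_lit 4,nat_lit 137439445057,nat_lit 163840⟩, ⟨nat_lit 0,nat_lit 5,nat_lit 1040481,nat_lit 32⟩, ⟨nat_lit 6,nat_lit 5,nat_lit 34070593,nat_lit 8192⟩, ⟨nat_lit 14,nat_lit 5,nat_lit 8590455413,nat_lit 262656⟩, ⟨nat_lit 15,nat_lit 5,nat_lit 17180389493,nat_lit 16⟩, ⟨nat_lit 16,nat_lit 5,nat_lit 34360258661,nat_lit 4100⟩, ⟨nat_lit 17,nat_lit 5,nat_lit 68719992929,nat_lit 32⟩, ⟨nat_lit 18,nat_lit 5,nat_lit 137439461441,nat_lit 16384⟩, ⟨nat_lit 0,nat_lit 6,nat_lit 1044581,nat_lit 4100⟩, ⟨nat_lit 6,nat_lit 6,nat_lit 34070625,nat_lit 32⟩, ⟨nat_lit 13,nat_lit 6,nat_lit 4295489279,nat_lit 262280⟩, ⟨nat_lit 14,nat_lit 6,nat_lit 8590456439,nat_lit 1026⟩, ⟨nat_lit 15,nat_lit 6,nat_lit 17180390005,nat_lit 512⟩, ⟨nat_lit 16,nat_lit 6,nat_lit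 34360258677,nat_lit 16⟩, ⟨nat_lit 17,nat_lit 6,nat_lit 68719997029,nat_lit 4100⟩, ⟨nat_lit 18,nat_lit 6,nat_lit 137439469633,nat_lit 8192⟩],
 [⟨nat_lit 0,nat_lit 1,nat_lit 589889,nat_lit 65601⟩, ⟨nat_lit 16,nat_lit 2,nat_lit 34359984193,nat_lit 16448⟩, ⟨nat_lit 15,nat_lit 3,nat_lit 17180123233,nat_lit 96⟩, ⟨nat_lit 17,nat_lit 3,nat_lit 68719722561,nat_lit 16448⟩, ⟨nat_lit 14,nat_lit 4,nat_lit 8590192757,nat_lit 80⟩, ⟨nat_lit 13,nat_lit 5,nat_lit 4295226999,nat_lit 1090⟩, ⟨nat_lit 5,nat_lit 6,nat_lit 17037311,nat_lit 320⟩]⟩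

def recs : List Rec := [rec18, rec17, rec16, rec15, rec14, rec13, rec12, rec11, rec10, rec9, rec8, rec7, rec6, rec5, rec4, rec3, rec2, rec1, rec0]

def wits0 : List Wit := [[(nat_lit 1,nat_lit 2), (nat_lit 3,nat_lit 2), (nat_lit 2,nat_lit 1), (nat_lit 13,nat_lit 1), (nat_lit 16,nat_lit 1), (nat_lit 6,nat_lit 1)],
 [(nat_lit 1,nat_lit 2), (nat_lit 3,nat_lit 2), (nat_lit 5,nat_lit 1), (nat_lit 13,nat_lit 1), (nat_lit 16,nat_lit 1), (nat_lit 6,nat_lit 1)],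
 [(nat_lit 1,nat_lit 1), (nat_lit 3,nat_lit 1), (nat_lit 12,nat_lit 2), (nat_lit 13,nat_lit 1), (nat_lit 16,nat_lit 1), (nat_lit 6,nat_lit 1)],
 [(nat_lit 3,nat_lit 2), (nat_lit 9,nat_lit 2), (nat_lit 13,nat_lit 1), (nat_lit 16,nat_lit 1), (nat_lit 6,nat_lit 1)],
 [(nat_lit 1,nat_lit 2), (nat_lit 3,nat_lit 2), (nat_lit 2,nat_lit 1), (nat_lit 14,nat_lit 1), (nat_lit 16,nat_lit 1), (nat_lit 6,nat_lit 1)],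
 [(nat_lit 1,nat_lit 2), (nat_lit 3,nat_lit 2), (nat_lit 5,nat_lit 1), (nat_lit 14,nat_lit 1), (nat_lit 16,nat_lit 1), (nat_lit 6,nat_lit 1)],
 [(nat_lit 1,nat_lit 1), (nat_lit 3,nat_lit 1), (nat_lit 12,nat_lit 2), (nat_lit 14,nat_lit 1), (nat_lit 16,nat_lit 1), (nat_lit 6,nat_lit 1)],
 [(nat_lit 3,nat_lit 1), (nat_lit 9,nat_lit 2), (nat_lit 14,nat_lit 2), (nat_lit 16,nat_lit 1), (nat_lit 6,nat_lit 1)],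
 [(nat_lit 1,nat_lit 1), (nat_lit 3,nat_lit 1), (nat_lit 5,nat_lit 1), (nat_lit 15,nat_lit 1), (nat_lit 16,nat_lit 1), (nat_lit 6,nat_lit 1), (nat_lit 2,nat_lit 1)],
 [(nat_lit 1,nat_lit 1), (nat_lit 3,nat_lit 1), (nat_lit 2,nat_lit 1), (nat_lit 15,nat_lit 1), (nat_lit 16,nat_lit 1), (nat_lit 6,nat_lit 1), (nat_lit 5,nat_lit 1)],
 [(nat_lit 1,nat_lit 1), (nat_lit 3,nat_lit 1), (nat_lit 12,nat_lit 2), (nat_lit 15,nat_lit 1), (nat_lit 16,nat_lit 1), (nat_lit 6,nat_lit 1)],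
 [(nat_lit 3,nat_lit 2), (nat_lit 9,nat_lit 2), (nat_lit 15,nat_lit 1), (nat_lit 16,nat_lit 1), (nat_lit 6,nat_lit 1)],
 [(nat_lit 1,nat_lit 2), (nat_lit 3,nat_lit 2), (nat_lit 5,nat_lit 2), (nat_lit 16,nat_lit 1), (nat_lit 6,nat_lit 1)],
 [(nat_lit 1,nat_lit 1), (nat_lit 3,nat_lit 1), (nat_lit 13,nat_lit 3), (nat_lit 16,nat_lit 1), (nat_lit 6,nat_lit 1)],
 [(nat_lit 1,nat_lit 2), (nat_lit 3,nat_lit 2), (nat_lit 14,nat_lit 2), (nat_lit 16,nat_lit 1), (nat_lit 6,nat_lit 1)],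
 [(nat_lit 2,nat_lit 1), (nat_lit 1,nat_lit 1), (nat_lit 3,nat_lit 1), (nat_lit 5,nat_lit 1), (nat_lit 16,nat_lit 1), (nat_lit 6,nat_lit 1), (nat_lit 15,nat_lit 1)],
 [(nat_lit 9,nat_lit 3), (nat_lit 5,nat_lit 1), (nat_lit 16,nat_lit 1), (nat_lit 6,nat_lit 1), (nat_lit 15,nat_lit 1)],
 [(nat_lit 3,nat_lit 1), (nat_lit 4,nat_lit 3), (nat_lit 16,nat_lit 1), (nat_lit 6,nat_lit 1), (nat_lit 15,nat_lit 1)],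
 [(nat_lit 1,nat_lit 2), (nat_lit 3,nat_lit 2), (nat_lit 2,nat_lit 1), (nat_lit 14,nat_lit 1), (nat_lit 17,nat_lit 1), (nat_lit 6,nat_lit 1)],
 [(nat_lit 1,nat_lit 1), (nat_lit 3,nat_lit 1), (nat_lit 5,nat_lit 2), (nat_lit 14,nat_lit 1), (nat_lit 17,nat_lit 1), (nat_lit 6,nat_lit 1)],
 [(nat_lit 1,nat_lit 1), (nat_lit 3,nat_lit 1), (nat_lit 12,nat_lit 2), (nat_lit 14,nat_lit 1), (nat_lit 17,nat_lit 1), (nat_lit 6,nat_lit 1)],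
 [(nat_lit 1,nat_lit 2), (nat_lit 3,nat_lit 2), (nat_lit 13,nat_lit 1), (nat_lit 14,nat_lit 1), (nat_lit 17,nat_lit 1), (nat_lit 6,nat_lit 1)],
 [(nat_lit 3,nat_lit 1), (nat_lit 9,nat_lit 2), (nat_lit 14,nat_lit 1), (nat_lit 17,nat_lit 1), (nat_lit 6,nat_lit 1), (nat_lit 13,nat_lit 1)],
 [(nat_lit 1,nat_lit 1), (nat_lit 3,nat_lit 1), (nat_lit 5,nat_lit 1), (nat_lit 15,nat_lit 1), (nat_lit 17,nat_lit 1), (nat_lit 6,nat_lit 1), (nat_lit 2,nat_lit 1)],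
 [(nat_lit 1,nat_lit 1), (nat_lit 3,nat_lit 1), (nat_lit 13,nat_lit 2), (nat_lit 17,nat_lit 1), (nat_lit 6,nat_lit 1), (nat_lit 2,nat_lit 1)],
 [(nat_lit 1,nat_lit 2), (nat_lit 3,nat_lit 2), (nat_lit 14,nat_lit 2), (nat_lit 17,nat_lit 1), (nat_lit 6,nat_lit 1)],
 [(nat_lit 1,nat_lit 1), (nat_lit 3,nat_lit 1), (nat_lit 5,nat_lit 1), (nat_lit 13,nat_lit 1), (nat_lit 17,nat_lit 2), (nat_lit 6,nat_lit 1)],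
 [(nat_lit 1,nat_lit 2), (nat_lit 3,nat_lit 2), (nat_lit 2,nat_lit 1), (nat_lit 15,nat_lit 2), (nat_lit 6,nat_lit 1)],
 [(nat_lit 1,nat_lit 1), (nat_lit 3,nat_lit 1), (nat_lit 5,nat_lit 2), (nat_lit 15,nat_lit 2), (nat_lit 6,nat_lit 1)],
 [(nat_lit 1,nat_lit 1), (nat_lit 3,nat_lit 1), (nat_lit 12,nat_lit 2), (nat_lit 15,nat_lit 2), (nat_lit 6,nat_lit 1)]]

def wits1 : List Wit := [[(nat_lit 1,nat_lit 1), (nat_lit 3,nat_lit 1), (nat_lit 13,nat_lit 2), (nat_lit 15,nat_lit 2), (nat_lit 6,nat_lit 1)],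
 [(nat_lit 3,nat_lit 1), (nat_lit 9,nat_lit 2), (nat_lit 15,nat_lit 2), (nat_lit 6,nat_lit 1), (nat_lit 13,nat_lit 1)],
 [(nat_lit 1,nat_lit 1), (nat_lit 3,nat_lit 1), (nat_lit 5,nat_lit 1), (nat_lit 16,nat_lit 2), (nat_lit 6,nat_lit 1), (nat_lit 2,nat_lit 1)],
 [(nat_lit 1,nat_lit 1), (nat_lit 3,nat_lit 1), (nat_lit 2,nat_lit 1), (nat_lit 16,nat_lit 2), (nat_lit 6,nat_lit 1), (nat_lit 5,nat_lit 1)],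
 [(nat_lit 1,nat_lit 1), (nat_lit 3,nat_lit 1), (nat_lit 12,nat_lit 2), (nat_lit 16,nat_lit 2), (nat_lit 6,nat_lit 1)],
 [(nat_lit 3,nat_lit 2), (nat_lit 9,nat_lit 2), (nat_lit 16,nat_lit 2), (nat_lit 6,nat_lit 1)],
 [(nat_lit 1,nat_lit 1), (nat_lit 3,nat_lit 1), (nat_lit 5,nat_lit 1), (nat_lit 17,nat_lit 2), (nat_lit 6,nat_lit 1), (nat_lit 2,nat_lit 1)],
 [(nat_lit 1,nat_lit 1), (nat_lit 3,nat_lit 1), (nat_lit 14,nat_lit 3), (nat_lit 6,nat_lit 1), (nat_lit 2,nat_lit 1)],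
 [(nat_lit 1,nat_lit 2), (nat_lit 3,nat_lit 2), (nat_lit 15,nat_lit 3), (nat_lit 6,nat_lit 1)],
 [(nat_lit 1,nat_lit 2), (nat_lit 3,nat_lit 2), (nat_lit 2,nat_lit 1), (nat_lit 14,nat_lit 1), (nat_lit 0,nat_lit 1), (nat_lit 6,nat_lit 1)],
 [(nat_lit 1,nat_lit 1), (nat_lit 3,nat_lit 1), (nat_lit 5,nat_lit 2), (nat_lit 14,nat_lit 1), (nat_lit 0,nat_lit 1), (nat_lit 6,nat_lit 1)],
 [(nat_lit 1,nat_lit 1), (nat_lit 3,nat_lit 1), (nat_lit 12,nat_lit 2), (nat_lit 14,nat_lit 1), (nat_lit 0,nat_lit 1), (nat_lit 6,nat_lit 1)],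
 [(nat_lit 1,nat_lit 2), (nat_lit 3,nat_lit 2), (nat_lit 13,nat_lit 1), (nat_lit 14,nat_lit 1), (nat_lit 0,nat_lit 1), (nat_lit 6,nat_lit 1)],
 [(nat_lit 3,nat_lit 1), (nat_lit 9,nat_lit 2), (nat_lit 14,nat_lit 1), (nat_lit 0,nat_lit 1), (nat_lit 6,nat_lit 1), (nat_lit 13,nat_lit 1)],
 [(nat_lit 1,nat_lit 1), (nat_lit 3,nat_lit 1), (nat_lit 13,nat_lit 2), (nat_lit 0,nat_lit 1), (nat_lit 6,nat_lit 1), (nat_lit 2,nat_lit 1)],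
 [(nat_lit 1,nat_lit 1), (nat_lit 3,nat_lit 1), (nat_lit 2,nat_lit 1), (nat_lit 13,nat_lit 2), (nat_lit 0,nat_lit 1), (nat_lit 6,nat_lit 1)],
 [(nat_lit 1,nat_lit 1), (nat_lit 3,nat_lit 1), (nat_lit 5,nat_lit 2), (nat_lit 13,nat_lit 2), (nat_lit 0,nat_lit 1), (nat_lit 6,nat_lit 1)],
 [(nat_lit 1,nat_lit 1), (nat_lit 3,nat_lit 1), (nat_lit 12,nat_lit 2), (nat_lit 13,nat_lit 1), (nat_lit 0,nat_lit 1), (nat_lit 6,nat_lit 1)],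
 [(nat_lit 3,nat_lit 1), (nat_lit 9,nat_lit 2), (nat_lit 13,nat_lit 1), (nat_lit 0,nat_lit 1), (nat_lit 6,nat_lit 1), (nat_lit 14,nat_lit 1)],
 [(nat_lit 1,nat_lit 1), (nat_lit 3,nat_lit 1), (nat_lit 5,nat_lit 2), (nat_lit 0,nat_lit 1), (nat_lit 6,nat_lit 1), (nat_lit 14,nat_lit 1)],
 [],
 [(nat_lit 9,nat_lit 3), (nat_lit 5,nat_lit 2), (nat_lit 0,nat_lit 1), (nat_lit 6,nat_lit 1)],
 [(nat_lit 3,nat_lit 2), (nat_lit 4,nat_lit 3), (nat_lit 0,nat_lit 1), (nat_lit 6,nat_lit 1)],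
 [(nat_lit 1,nat_lit 1), (nat_lit 3,nat_lit 1), (nat_lit 5,nat_lit 2), (nat_lit 13,nat_lit 2), (nat_lit 0,nat_lit 1), (nat_lit 6,nat_lit 1)],
 [(nat_lit 1,nat_lit 2), (nat_lit 3,nat_lit 2), (nat_lit 2,nat_lit 1), (nat_lit 14,nat_lit 1), (nat_lit 15,nat_lit 1), (nat_lit 6,nat_lit 1)],
 [(nat_lit 1,nat_lit 2), (nat_lit 3,nat_lit 2), (nat_lit 12,nat_lit 1), (nat_lit 14,nat_lit 1), (nat_lit 15,nat_lit 1), (nat_lit 6,nat_lit 1)],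
 [(nat_lit 3,nat_lit 2), (nat_lit 9,nat_lit 2), (nat_lit 14,nat_lit 1), (nat_lit 15,nat_lit 1), (nat_lit 6,nat_lit 1)],
 [(nat_lit 3,nat_lit 2), (nat_lit 9,nat_lit 2), (nat_lit 14,nat_lit 1), (nat_lit 15,nat_lit 1), (nat_lit 6,nat_lit 1)],
 [(nat_lit 1,nat_lit 1), (nat_lit 3,nat_lit 1), (nat_lit 13,nat_lit 2), (nat_lit 15,nat_lit 2), (nat_lit 6,nat_lit 1)],
 [(nat_lit 1,nat_lit 1), (nat_lit 3,nat_lit 1), (nat_lit 2,nat_lit 1), (nat_lit 14,nat_lit 3), (nat_lit 6,nat_lit 1)]]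

def wits2 : List Wit := [[(nat_lit 1,nat_lit 1), (nat_lit 3,nat_lit 1), (nat_lit 5,nat_lit 2), (nat_lit 14,nat_lit 2), (nat_lit 6,nat_lit 1)],
 [(nat_lit 1,nat_lit 1), (nat_lit 3,nat_lit 1), (nat_lit 12,nat_lit 2), (nat_lit 14,nat_lit 2), (nat_lit 6,nat_lit 1)],
 [(nat_lit 1,nat_lit 2), (nat_lit 3,nat_lit 2), (nat_lit 2,nat_lit 1), (nat_lit 13,nat_lit 1), (nat_lit 16,nat_lit 1), (nat_lit 18,nat_lit 1)],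
 [(nat_lit 1,nat_lit 2), (nat_lit 3,nat_lit 2), (nat_lit 5,nat_lit 1), (nat_lit 13,nat_lit 1), (nat_lit 16,nat_lit 1), (nat_lit 18,nat_lit 1)],
 [(nat_lit 1,nat_lit 1), (nat_lit 3,nat_lit 1), (nat_lit 12,nat_lit 2), (nat_lit 13,nat_lit 1), (nat_lit 16,nat_lit 1), (nat_lit 18,nat_lit 1)],
 [(nat_lit 3,nat_lit 2), (nat_lit 9,nat_lit 2), (nat_lit 13,nat_lit 1), (nat_lit 16,nat_lit 1), (nat_lit 18,nat_lit 1)],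
 [(nat_lit 1,nat_lit 2), (nat_lit 3,nat_lit 2), (nat_lit 2,nat_lit 1), (nat_lit 14,nat_lit 1), (nat_lit 16,nat_lit 1), (nat_lit 18,nat_lit 1)],
 [(nat_lit 1,nat_lit 2), (nat_lit 3,nat_lit 2), (nat_lit 5,nat_lit 1), (nat_lit 14,nat_lit 1), (nat_lit 16,nat_lit 1), (nat_lit 18,nat_lit 1)],
 [(nat_lit 1,nat_lit 1), (nat_lit 3,nat_lit 1), (nat_lit 12,nat_lit 2), (nat_lit 14,nat_lit 1), (nat_lit 16,nat_lit 1), (nat_lit 18,nat_lit 1)],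
 [(nat_lit 3,nat_lit 1), (nat_lit 9,nat_lit 2), (nat_lit 14,nat_lit 2), (nat_lit 16,nat_lit 1), (nat_lit 18,nat_lit 1)],
 [(nat_lit 1,nat_lit 1), (nat_lit 3,nat_lit 1), (nat_lit 5,nat_lit 1), (nat_lit 15,nat_lit 1), (nat_lit 16,nat_lit 1), (nat_lit 18,nat_lit 1), (nat_lit 2,nat_lit 1)],
 [(nat_lit 1,nat_lit 1), (nat_lit 3,nat_lit 1), (nat_lit 2,nat_lit 1), (nat_lit 15,nat_lit 1), (nat_lit 16,nat_lit 1), (nat_lit 18,nat_lit 1), (nat_lit 5,nat_lit 1)],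
 [(nat_lit 1,nat_lit 1), (nat_lit 3,nat_lit 1), (nat_lit 12,nat_lit 2), (nat_lit 15,nat_lit 1), (nat_lit 16,nat_lit 1), (nat_lit 18,nat_lit 1)],
 [(nat_lit 3,nat_lit 2), (nat_lit 9,nat_lit 2), (nat_lit 15,nat_lit 1), (nat_lit 16,nat_lit 1), (nat_lit 18,nat_lit 1)],
 [(nat_lit 1,nat_lit 2), (nat_lit 3,nat_lit 2), (nat_lit 5,nat_lit 2), (nat_lit 16,nat_lit 1), (nat_lit 18,nat_lit 1)],
 [(nat_lit 1,nat_lit 1), (nat_lit 3,nat_lit 1), (nat_lit 13,nat_lit 3), (nat_lit 16,nat_lit 1), (nat_lit 18,nat_lit 1)],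
 [(nat_lit 1,nat_lit 2), (nat_lit 3,nat_lit 2), (nat_lit 14,nat_lit 2), (nat_lit 16,nat_lit 1), (nat_lit 18,nat_lit 1)],
 [(nat_lit 2,nat_lit 1), (nat_lit 1,nat_lit 1), (nat_lit 3,nat_lit 1), (nat_lit 5,nat_lit 1), (nat_lit 16,nat_lit 1), (nat_lit 18,nat_lit 1), (nat_lit 15,nat_lit 1)],
 [(nat_lit 9,nat_lit 3), (nat_lit 5,nat_lit 1), (nat_lit 16,nat_lit 1), (nat_lit 18,nat_lit 1), (nat_lit 15,nat_lit 1)],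
 [(nat_lit 3,nat_lit 1), (nat_lit 4,nat_lit 3), (nat_lit 16,nat_lit 1), (nat_lit 18,nat_lit 1), (nat_lit 15,nat_lit 1)],
 [(nat_lit 1,nat_lit 2), (nat_lit 3,nat_lit 2), (nat_lit 2,nat_lit 1), (nat_lit 15,nat_lit 2), (nat_lit 18,nat_lit 1)],
 [(nat_lit 1,nat_lit 1), (nat_lit 3,nat_lit 1), (nat_lit 5,nat_lit 2), (nat_lit 15,nat_lit 2), (nat_lit 18,nat_lit 1)],
 [(nat_lit 1,nat_lit 1), (nat_lit 3,nat_lit 1), (nat_lit 12,nat_lit 2), (nat_lit 15,nat_lit 2), (nat_lit 18,nat_lit 1)],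
 [(nat_lit 1,nat_lit 1), (nat_lit 3,nat_lit 1), (nat_lit 13,nat_lit 2), (nat_lit 15,nat_lit 2), (nat_lit 18,nat_lit 1)],
 [(nat_lit 3,nat_lit 1), (nat_lit 9,nat_lit 2), (nat_lit 15,nat_lit 2), (nat_lit 18,nat_lit 1), (nat_lit 13,nat_lit 1)],
 [(nat_lit 1,nat_lit 1), (nat_lit 3,nat_lit 1), (nat_lit 5,nat_lit 1), (nat_lit 16,nat_lit 2), (nat_lit 18,nat_lit 1), (nat_lit 2,nat_lit 1)],
 [(nat_lit 1,nat_lit 1), (nat_lit 3,nat_lit 1), (nat_lit 2,nat_lit 1), (nat_lit 16,nat_lit 2), (nat_lit 18,nat_lit 1), (nat_lit 5,nat_lit 1)],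
 [(nat_lit 1,nat_lit 1), (nat_lit 3,nat_lit 1), (nat_lit 12,nat_lit 2), (nat_lit 16,nat_lit 2), (nat_lit 18,nat_lit 1)],
 [(nat_lit 3,nat_lit 2), (nat_lit 9,nat_lit 2), (nat_lit 16,nat_lit 2), (nat_lit 18,nat_lit 1)],
 [(nat_lit 1,nat_lit 1), (nat_lit 3,nat_lit 1), (nat_lit 14,nat_lit 3), (nat_lit 18,nat_lit 1), (nat_lit 2,nat_lit 1)]]

def wits3 : List Wit := [[(nat_lit 1,nat_lit 2), (nat_lit 3,nat_lit 2), (nat_lit 15,nat_lit 3), (nat_lit 18,nat_lit 1)],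
 [(nat_lit 1,nat_lit 1), (nat_lit 3,nat_lit 1), (nat_lit 2,nat_lit 1), (nat_lit 14,nat_lit 1), (nat_lit 15,nat_lit 1), (nat_lit 18,nat_lit 2)],
 [(nat_lit 1,nat_lit 1), (nat_lit 3,nat_lit 1), (nat_lit 12,nat_lit 1), (nat_lit 14,nat_lit 1), (nat_lit 15,nat_lit 1), (nat_lit 18,nat_lit 2)],
 [(nat_lit 3,nat_lit 1), (nat_lit 9,nat_lit 2), (nat_lit 14,nat_lit 1), (nat_lit 15,nat_lit 1), (nat_lit 18,nat_lit 2)],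
 [(nat_lit 3,nat_lit 1), (nat_lit 9,nat_lit 2), (nat_lit 14,nat_lit 1), (nat_lit 15,nat_lit 1), (nat_lit 18,nat_lit 2)],
 [(nat_lit 1,nat_lit 1), (nat_lit 3,nat_lit 1), (nat_lit 13,nat_lit 2), (nat_lit 15,nat_lit 1), (nat_lit 18,nat_lit 2)],
 [(nat_lit 1,nat_lit 1), (nat_lit 3,nat_lit 1), (nat_lit 2,nat_lit 1), (nat_lit 14,nat_lit 2), (nat_lit 18,nat_lit 2)],
 [(nat_lit 1,nat_lit 1), (nat_lit 3,nat_lit 1), (nat_lit 5,nat_lit 1), (nat_lit 14,nat_lit 2), (nat_lit 18,nat_lit 2)],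
 [(nat_lit 1,nat_lit 1), (nat_lit 3,nat_lit 1), (nat_lit 12,nat_lit 1), (nat_lit 14,nat_lit 2), (nat_lit 18,nat_lit 2)],
 [(nat_lit 1,nat_lit 2), (nat_lit 3,nat_lit 2), (nat_lit 2,nat_lit 1), (nat_lit 13,nat_lit 1), (nat_lit 0,nat_lit 2)],
 [(nat_lit 1,nat_lit 2), (nat_lit 3,nat_lit 2), (nat_lit 5,nat_lit 1), (nat_lit 13,nat_lit 1), (nat_lit 0,nat_lit 2)],
 [(nat_lit 1,nat_lit 1), (nat_lit 3,nat_lit 1), (nat_lit 12,nat_lit 2), (nat_lit 13,nat_lit 1), (nat_lit 0,nat_lit 2)],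
 [(nat_lit 3,nat_lit 2), (nat_lit 9,nat_lit 2), (nat_lit 13,nat_lit 1), (nat_lit 0,nat_lit 2)],
 [(nat_lit 1,nat_lit 2), (nat_lit 3,nat_lit 2), (nat_lit 2,nat_lit 1), (nat_lit 14,nat_lit 1), (nat_lit 0,nat_lit 2)],
 [(nat_lit 1,nat_lit 2), (nat_lit 3,nat_lit 2), (nat_lit 5,nat_lit 1), (nat_lit 14,nat_lit 1), (nat_lit 0,nat_lit 2)],
 [(nat_lit 1,nat_lit 1), (nat_lit 3,nat_lit 1), (nat_lit 12,nat_lit 2), (nat_lit 14,nat_lit 1), (nat_lit 0,nat_lit 2)],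
 [(nat_lit 3,nat_lit 1), (nat_lit 9,nat_lit 2), (nat_lit 14,nat_lit 2), (nat_lit 0,nat_lit 2)],
 [(nat_lit 1,nat_lit 1), (nat_lit 3,nat_lit 1), (nat_lit 5,nat_lit 1), (nat_lit 15,nat_lit 1), (nat_lit 0,nat_lit 2), (nat_lit 2,nat_lit 1)],
 [(nat_lit 1,nat_lit 1), (nat_lit 3,nat_lit 1), (nat_lit 2,nat_lit 1), (nat_lit 15,nat_lit 1), (nat_lit 0,nat_lit 2), (nat_lit 5,nat_lit 1)],
 [(nat_lit 1,nat_lit 1), (nat_lit 3,nat_lit 1), (nat_lit 12,nat_lit 1), (nat_lit 15,nat_lit 2), (nat_lit 0,nat_lit 2)],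
 [(nat_lit 3,nat_lit 1), (nat_lit 9,nat_lit 2), (nat_lit 15,nat_lit 2), (nat_lit 0,nat_lit 2)],
 [(nat_lit 1,nat_lit 2), (nat_lit 3,nat_lit 2), (nat_lit 5,nat_lit 2), (nat_lit 0,nat_lit 2)],
 [(nat_lit 1,nat_lit 1), (nat_lit 3,nat_lit 1), (nat_lit 13,nat_lit 3), (nat_lit 0,nat_lit 2)],
 [(nat_lit 1,nat_lit 1), (nat_lit 3,nat_lit 1), (nat_lit 14,nat_lit 3), (nat_lit 0,nat_lit 2)],
 [(nat_lit 2,nat_lit 1), (nat_lit 1,nat_lit 1), (nat_lit 3,nat_lit 1), (nat_lit 5,nat_lit 1), (nat_lit 0,nat_lit 2), (nat_lit 15,nat_lit 1)],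
 [(nat_lit 9,nat_lit 3), (nat_lit 5,nat_lit 1), (nat_lit 0,nat_lit 2), (nat_lit 15,nat_lit 1)],
 [(nat_lit 3,nat_lit 1), (nat_lit 4,nat_lit 3), (nat_lit 0,nat_lit 2), (nat_lit 15,nat_lit 1)],
 [(nat_lit 1,nat_lit 1), (nat_lit 3,nat_lit 1), (nat_lit 2,nat_lit 1), (nat_lit 14,nat_lit 1), (nat_lit 6,nat_lit 3)],
 [(nat_lit 1,nat_lit 1), (nat_lit 3,nat_lit 1), (nat_lit 5,nat_lit 1), (nat_lit 14,nat_lit 1), (nat_lit 6,nat_lit 3)],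
 [(nat_lit 1,nat_lit 1), (nat_lit 3,nat_lit 1), (nat_lit 12,nat_lit 1), (nat_lit 14,nat_lit 1), (nat_lit 6,nat_lit 3)]]

def wits4 : List Wit := [[(nat_lit 1,nat_lit 2), (nat_lit 3,nat_lit 2), (nat_lit 13,nat_lit 1), (nat_lit 14,nat_lit 1), (nat_lit 6,nat_lit 2)],
 [(nat_lit 3,nat_lit 1), (nat_lit 9,nat_lit 2), (nat_lit 14,nat_lit 1), (nat_lit 6,nat_lit 2), (nat_lit 13,nat_lit 1)],
 [(nat_lit 1,nat_lit 1), (nat_lit 3,nat_lit 1), (nat_lit 13,nat_lit 2), (nat_lit 6,nat_lit 2), (nat_lit 2,nat_lit 1)],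
 [(nat_lit 1,nat_lit 1), (nat_lit 3,nat_lit 1), (nat_lit 2,nat_lit 1), (nat_lit 13,nat_lit 1), (nat_lit 6,nat_lit 3)],
 [(nat_lit 1,nat_lit 1), (nat_lit 3,nat_lit 1), (nat_lit 5,nat_lit 1), (nat_lit 13,nat_lit 1), (nat_lit 6,nat_lit 3)],
 [(nat_lit 1,nat_lit 1), (nat_lit 3,nat_lit 1), (nat_lit 12,nat_lit 1), (nat_lit 13,nat_lit 1), (nat_lit 6,nat_lit 3)],
 [(nat_lit 3,nat_lit 1), (nat_lit 9,nat_lit 2), (nat_lit 13,nat_lit 1), (nat_lit 6,nat_lit 2), (nat_lit 14,nat_lit 1)],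
 [(nat_lit 1,nat_lit 1), (nat_lit 3,nat_lit 1), (nat_lit 5,nat_lit 2), (nat_lit 6,nat_lit 2), (nat_lit 14,nat_lit 1)],
 [(nat_lit 2,nat_lit 1), (nat_lit 1,nat_lit 1), (nat_lit 3,nat_lit 1), (nat_lit 5,nat_lit 1), (nat_lit 6,nat_lit 3)],
 [(nat_lit 9,nat_lit 3), (nat_lit 5,nat_lit 1), (nat_lit 6,nat_lit 3)],
 [(nat_lit 3,nat_lit 1), (nat_lit 4,nat_lit 3), (nat_lit 6,nat_lit 3)],
 [(nat_lit 1,nat_lit 1), (nat_lit 3,nat_lit 1), (nat_lit 5,nat_lit 1), (nat_lit 13,nat_lit 1), (nat_lit 6,nat_lit 3)],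
 [(nat_lit 1,nat_lit 1), (nat_lit 3,nat_lit 1), (nat_lit 5,nat_lit 1), (nat_lit 0,nat_lit 3), (nat_lit 2,nat_lit 1)],
 [(nat_lit 1,nat_lit 1), (nat_lit 3,nat_lit 1), (nat_lit 2,nat_lit 1), (nat_lit 0,nat_lit 3), (nat_lit 5,nat_lit 1)],
 [(nat_lit 1,nat_lit 1), (nat_lit 3,nat_lit 1), (nat_lit 12,nat_lit 1), (nat_lit 0,nat_lit 4)],
 [(nat_lit 3,nat_lit 1), (nat_lit 9,nat_lit 2), (nat_lit 0,nat_lit 4)],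
 [(nat_lit 1,nat_lit 2), (nat_lit 3,nat_lit 2), (nat_lit 2,nat_lit 1), (nat_lit 16,nat_lit 3)],
 [(nat_lit 1,nat_lit 1), (nat_lit 3,nat_lit 1), (nat_lit 5,nat_lit 2), (nat_lit 16,nat_lit 3)],
 [(nat_lit 1,nat_lit 1), (nat_lit 3,nat_lit 1), (nat_lit 12,nat_lit 2), (nat_lit 16,nat_lit 3)],
 [(nat_lit 1,nat_lit 1), (nat_lit 3,nat_lit 1), (nat_lit 13,nat_lit 2), (nat_lit 16,nat_lit 3)],
 [(nat_lit 3,nat_lit 1), (nat_lit 9,nat_lit 2), (nat_lit 16,nat_lit 3), (nat_lit 13,nat_lit 1)],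
 [(nat_lit 1,nat_lit 1), (nat_lit 3,nat_lit 1), (nat_lit 15,nat_lit 4), (nat_lit 2,nat_lit 1)],
 [(nat_lit 1,nat_lit 1), (nat_lit 3,nat_lit 1), (nat_lit 16,nat_lit 5)],
 [(nat_lit 1,nat_lit 2), (nat_lit 3,nat_lit 2), (nat_lit 2,nat_lit 1), (nat_lit 13,nat_lit 1), (nat_lit 16,nat_lit 1), (nat_lit 0,nat_lit 1)],
 [(nat_lit 1,nat_lit 2), (nat_lit 3,nat_lit 2), (nat_lit 5,nat_lit 1), (nat_lit 13,nat_lit 1), (nat_lit 16,nat_lit 1), (nat_lit 0,nat_lit 1)],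
 [(nat_lit 1,nat_lit 1), (nat_lit 3,nat_lit 1), (nat_lit 12,nat_lit 2), (nat_lit 13,nat_lit 1), (nat_lit 16,nat_lit 1), (nat_lit 0,nat_lit 1)],
 [(nat_lit 3,nat_lit 2), (nat_lit 9,nat_lit 2), (nat_lit 13,nat_lit 1), (nat_lit 16,nat_lit 1), (nat_lit 0,nat_lit 1)],
 [(nat_lit 1,nat_lit 2), (nat_lit 3,nat_lit 2), (nat_lit 2,nat_lit 1), (nat_lit 14,nat_lit 1), (nat_lit 16,nat_lit 1), (nat_lit 0,nat_lit 1)],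
 [(nat_lit 1,nat_lit 2), (nat_lit 3,nat_lit 2), (nat_lit 5,nat_lit 1), (nat_lit 14,nat_lit 1), (nat_lit 16,nat_lit 1), (nat_lit 0,nat_lit 1)],
 [(nat_lit 1,nat_lit 1), (nat_lit 3,nat_lit 1), (nat_lit 12,nat_lit 2), (nat_lit 14,nat_lit 1), (nat_lit 16,nat_lit 1), (nat_lit 0,nat_lit 1)]]

def wits5 : List Wit := [[(nat_lit 3,nat_lit 1), (nat_lit 9,nat_lit 2), (nat_lit 14,nat_lit 2), (nat_lit 16,nat_lit 1), (nat_lit 0,nat_lit 1)],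
 [(nat_lit 1,nat_lit 1), (nat_lit 3,nat_lit 1), (nat_lit 5,nat_lit 1), (nat_lit 15,nat_lit 1), (nat_lit 16,nat_lit 1), (nat_lit 0,nat_lit 1), (nat_lit 2,nat_lit 1)],
 [(nat_lit 1,nat_lit 1), (nat_lit 3,nat_lit 1), (nat_lit 2,nat_lit 1), (nat_lit 15,nat_lit 1), (nat_lit 16,nat_lit 1), (nat_lit 0,nat_lit 1), (nat_lit 5,nat_lit 1)],
 [(nat_lit 1,nat_lit 1), (nat_lit 3,nat_lit 1), (nat_lit 12,nat_lit 2), (nat_lit 15,nat_lit 1), (nat_lit 16,nat_lit 1), (nat_lit 0,nat_lit 1)],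
 [(nat_lit 3,nat_lit 2), (nat_lit 9,nat_lit 2), (nat_lit 15,nat_lit 1), (nat_lit 16,nat_lit 1), (nat_lit 0,nat_lit 1)],
 [(nat_lit 1,nat_lit 2), (nat_lit 3,nat_lit 2), (nat_lit 5,nat_lit 2), (nat_lit 16,nat_lit 1), (nat_lit 0,nat_lit 1)],
 [(nat_lit 1,nat_lit 1), (nat_lit 3,nat_lit 1), (nat_lit 13,nat_lit 3), (nat_lit 16,nat_lit 1), (nat_lit 0,nat_lit 1)],
 [(nat_lit 1,nat_lit 2), (nat_lit 3,nat_lit 2), (nat_lit 14,nat_lit 2), (nat_lit 16,nat_lit 1), (nat_lit 0,nat_lit 1)],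
 [(nat_lit 2,nat_lit 1), (nat_lit 1,nat_lit 1), (nat_lit 3,nat_lit 1), (nat_lit 5,nat_lit 1), (nat_lit 16,nat_lit 1), (nat_lit 0,nat_lit 1), (nat_lit 15,nat_lit 1)],
 [(nat_lit 9,nat_lit 3), (nat_lit 5,nat_lit 1), (nat_lit 16,nat_lit 1), (nat_lit 0,nat_lit 1), (nat_lit 15,nat_lit 1)],
 [(nat_lit 3,nat_lit 1), (nat_lit 4,nat_lit 3), (nat_lit 16,nat_lit 1), (nat_lit 0,nat_lit 1), (nat_lit 15,nat_lit 1)],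
 [(nat_lit 1,nat_lit 1), (nat_lit 3,nat_lit 1), (nat_lit 2,nat_lit 1), (nat_lit 15,nat_lit 2), (nat_lit 0,nat_lit 2)],
 [(nat_lit 1,nat_lit 1), (nat_lit 3,nat_lit 1), (nat_lit 5,nat_lit 2), (nat_lit 15,nat_lit 2), (nat_lit 0,nat_lit 1)],
 [(nat_lit 1,nat_lit 1), (nat_lit 3,nat_lit 1), (nat_lit 12,nat_lit 1), (nat_lit 15,nat_lit 2), (nat_lit 0,nat_lit 2)],
 [(nat_lit 1,nat_lit 1), (nat_lit 3,nat_lit 1), (nat_lit 13,nat_lit 2), (nat_lit 15,nat_lit 2), (nat_lit 0,nat_lit 1)],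
 [(nat_lit 3,nat_lit 1), (nat_lit 9,nat_lit 2), (nat_lit 15,nat_lit 2), (nat_lit 0,nat_lit 1), (nat_lit 13,nat_lit 1)],
 [(nat_lit 1,nat_lit 1), (nat_lit 3,nat_lit 1), (nat_lit 5,nat_lit 1), (nat_lit 17,nat_lit 2), (nat_lit 0,nat_lit 1), (nat_lit 2,nat_lit 1)],
 [(nat_lit 1,nat_lit 1), (nat_lit 3,nat_lit 1), (nat_lit 14,nat_lit 3), (nat_lit 0,nat_lit 1), (nat_lit 2,nat_lit 1)],
 [(nat_lit 1,nat_lit 2), (nat_lit 3,nat_lit 2), (nat_lit 2,nat_lit 1), (nat_lit 13,nat_lit 1), (nat_lit 16,nat_lit 2)],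
 [(nat_lit 1,nat_lit 2), (nat_lit 3,nat_lit 2), (nat_lit 12,nat_lit 1), (nat_lit 13,nat_lit 1), (nat_lit 16,nat_lit 2)],
 [(nat_lit 3,nat_lit 1), (nat_lit 9,nat_lit 2), (nat_lit 13,nat_lit 1), (nat_lit 16,nat_lit 3)],
 [(nat_lit 1,nat_lit 2), (nat_lit 3,nat_lit 2), (nat_lit 2,nat_lit 1), (nat_lit 14,nat_lit 1), (nat_lit 16,nat_lit 2)],
 [(nat_lit 1,nat_lit 2), (nat_lit 3,nat_lit 2), (nat_lit 12,nat_lit 1), (nat_lit 14,nat_lit 1), (nat_lit 16,nat_lit 2)],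
 [(nat_lit 3,nat_lit 1), (nat_lit 9,nat_lit 2), (nat_lit 14,nat_lit 2), (nat_lit 16,nat_lit 2)],
 [(nat_lit 3,nat_lit 1), (nat_lit 9,nat_lit 2), (nat_lit 14,nat_lit 2), (nat_lit 16,nat_lit 2)],
 [(nat_lit 1,nat_lit 1), (nat_lit 3,nat_lit 1), (nat_lit 5,nat_lit 2), (nat_lit 16,nat_lit 3)],
 [(nat_lit 1,nat_lit 1), (nat_lit 3,nat_lit 1), (nat_lit 13,nat_lit 2), (nat_lit 16,nat_lit 3)],
 [(nat_lit 1,nat_lit 1), (nat_lit 3,nat_lit 1), (nat_lit 14,nat_lit 2), (nat_lit 16,nat_lit 3)],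
 [(nat_lit 4,nat_lit 4), (nat_lit 16,nat_lit 3)],
 [(nat_lit 1,nat_lit 1), (nat_lit 3,nat_lit 1), (nat_lit 2,nat_lit 1), (nat_lit 15,nat_lit 4)]]

def wits6 : List Wit := [[(nat_lit 1,nat_lit 1), (nat_lit 3,nat_lit 1), (nat_lit 5,nat_lit 2), (nat_lit 15,nat_lit 3)],
 [(nat_lit 1,nat_lit 1), (nat_lit 3,nat_lit 1), (nat_lit 12,nat_lit 2), (nat_lit 15,nat_lit 3)]]

def wits : List Wit := wits0 ++ wits1 ++ wits2 ++ wits3 ++ wits4 ++ wits5 ++ wits6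


end Pool.Agent.LibBcast
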