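import Pool.Agent.LibBcast.Leaf
import Pool.Agent.LibBcast.Tables

/-!
The tables are right, and the kernel runs the search.
-/

namespace Pool.Agent.LibBcast

/-- the distance -/
def dd (v x : ℕ) : ℕ := Nat.land (Nat.shiftRight DT (Nat.mul 4 (Nat.add (Nat.mul 19 v) x))) 15

/-- the eccentricity -/
def ec (v : ℕ) : ℕ := Nat.land (Nat.shiftRight ECT (Nat.mul 4 v)) 15

/-- boundary mask -/
def bm (v k : ℕ) : ℕ := if k = 1 then Bt BT v 1 else Nat.xor (Bt BT v k) (Bt BT v (k - 1))

def mk (v k : ℕ) : Ent := ⟨v, k, Nat.lor (Bt BT v k) (Nat.shiftLeft 1 (19 + v)), bm v k⟩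

def ok (v k : ℕ) : Bool := decide (v < 19 ∧ 0 < k ∧ k ≤ ec v)

set_option maxRecDepth 100000

theorem bt_spec : ∀ v < 19, ∀ k < 15, ∀ x < 19,
    (Bt BT v k).testBit x = decide (dd v x ≤ k) := by
  decide +kernel

theorem ec_le : ∀ v < 19, ec v ≤ 14 := by decide +kernel

theorem bt_high (v k : ℕ) {x : ℕ} (hx : 19 ≤ x) : (Bt BT v k).testBit x = false := by
  have h : (524287 : ℕ) = 2 ^ 19 - 1 := by norm_num
  unfold Bt
  rw [tb_and, h, Nat.testBit_two_pow_sub_one]
  simp [hx]

theorem mkOk : MkOk dd ec mk ok := by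
  refine ⟨fun _ _ => rfl, fun _ _ => rfl, ?_, ?_⟩
  · intro v k h
    unfold ok at h
    rw [decide_eq_true_eq] at h
    obtain ⟨hv, hk0, hk⟩ := h
    have hk15 : k < 15 := lt_of_le_of_lt (le_trans hk (ec_le v hv)) (by norm_num)
    refine ⟨hv, hk0, ?_, ?_, ?_⟩
    · intro x hx
      show (Nat.lor (Bt BT v k) (Nat.shiftLeft 1 (19 + v))).testBit x = true ↔ dd v x ≤ k
      rw [tb_or, bt_spec v hv k hk15 x hx]
      have h1 : (Nat.shiftLeft 1 (19 + v)).testBit x = false := by
        show (1 <<< (19 + v)).testBit x = false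
        rw [Nat.testBit_shiftLeft]
        have : ¬ (x ≥ 19 + v) := by omega
        simp [this]
      rw [h1]
      simp
    · intro w
      show (Nat.lor (Bt BT v k) (Nat.shiftLeft 1 (19 + v))).testBit (19 + w) = true ↔ w = v
      rw [tb_or, bt_high v k (by omega)]
      show (false || (1 <<< (19 + v)).testBit (19 + w)) = true ↔ w = v
      rw [Bool.false_or, Nat.one_shiftLeft, Nat.testBit_two_pow]
      constructor
      · intro h
        have := of_decide_eq_true h
        omega
      · rintro rfl
        simp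
    · intro x
      show (bm v k).testBit x = true ↔ InB dd v k x
      unfold bm InB
      by_cases hx : x < 19
      · by_cases hk1 : k = 1
        · rw [if_pos hk1, bt_spec v hv 1 (by norm_num) x hx]
          subst hk1
          simp [hx]
        · rw [if_neg hk1, tb_xor, bt_spec v hv k hk15 x hx, bt_spec v hv (k - 1) (by omega) x hx]
          by_cases h1 : dd v x ≤ k
          · by_cases h2 : dd v x ≤ k - 1
            · simp [h1, h2, hk1]
            · simp only [h1, h2, hx, true_and]
              simp only [decide_true, decide_false, Bool.xor_false, true_iff]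
              right
              omega
          · have h2 : ¬ dd v x ≤ k - 1 := by omega
            simp [h1, h2]
      · have hx' : 19 ≤ x := by omega
        by_cases hk1 : k = 1
        · rw [if_pos hk1, bt_high v 1 hx']
          simp [hx]
        · rw [if_neg hk1, tb_xor, bt_high v k hx', bt_high v _ hx']
          simp [hx]
  · intro v k h
    unfold ok at h
    rw [decide_eq_true_eq] at h
    exact h.2.2

def mkA (u : ℕ) : List Ent :=
  (List.range' 1 6).flatMap fun k =>
    ((List.range 19).filter fun v => decide (dd v u ≤ k ∧ k ≤ ec v)).map fun v => mk v k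

def mkK (u : ℕ) : List Ent :=
  (List.range' 1 6).flatMap fun k =>
    ((List.range 19).filter fun v => decide (dd v u = k + 1 ∧ k ≤ ec v)).map fun v => mk v k

def mkRec (u : ℕ) : Rec := ⟨u, 2 ^ u, Bt BT u 1, mkA u, mkK u⟩

theorem sorted_aux (l : ℕ → List ℕ) :
    ((List.range' 1 6).flatMap fun k => (l k).map fun v => mk v k).Pairwise
      (fun a b => a.k ≤ b.k) := by
  rw [List.pairwise_flatMap]
  constructor
  · intro k _
    rw [List.pairwise_map]
    exact List.pairwise_of_forall (fun _ _ => le_refl _)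
  · refine (List.pairwise_lt_range' (s := 1) (n := 6) (step := 1)).imp ?_
    intro a b hab x hx y hy
    rw [List.mem_map] at hx hy
    obtain ⟨v, _, rfl⟩ := hx
    obtain ⟨w, _, rfl⟩ := hy
    exact le_of_lt hab

theorem recOk {u : ℕ} (hu : u < 19) : RecOk dd ec (mkRec u) := by
  refine ⟨hu, ?_, ?_,
    sorted_aux (fun k => (List.range 19).filter fun v => decide (dd v u ≤ k ∧ k ≤ ec v)),
    sorted_aux (fun k => (List.range 19).filter fun v => decide (dd v u = k + 1 ∧ k ≤ ec v)),
    ?_, ?_, ?_, ?_⟩
  · intro x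
    show (2 ^ u).testBit x = true ↔ x = u
    rw [Nat.testBit_two_pow]
    constructor
    · intro h
      exact (of_decide_eq_true h).symm
    · rintro rfl
      simp
  · intro x hx
    show (Bt BT u 1).testBit x = true ↔ dd u x ≤ 1
    rw [bt_spec u hu 1 (by norm_num) x hx]
    simp
  · intro e he
    have he' : e ∈ mkA u := he
    unfold mkA at he'
    rw [List.mem_flatMap] at he'
    obtain ⟨k, hk, he'⟩ := he'
    rw [List.mem_map] at he'
    obtain ⟨v, hv, rfl⟩ := he'
    rw [List.mem_filter, List.mem_range, decide_eq_true_eq] at hv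
    rw [List.mem_range'_1] at hk
    apply mkOk.valid
    unfold ok
    rw [decide_eq_true_eq]
    exact ⟨hv.1, by omega, hv.2.2⟩
  · intro e he
    have he' : e ∈ mkK u := he
    unfold mkK at he'
    rw [List.mem_flatMap] at he'
    obtain ⟨k, hk, he'⟩ := he'
    rw [List.mem_map] at he'
    obtain ⟨v, hv, rfl⟩ := he'
    rw [List.mem_filter, List.mem_range, decide_eq_true_eq] at hv
    rw [List.mem_range'_1] at hk
    apply mkOk.valid
    unfold ok
    rw [decide_eq_true_eq]
    exact ⟨hv.1, by omega, hv.2.2⟩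
  · intro v hv k hk0 hk6 hke hd
    refine ⟨mk v k, ?_, rfl, rfl⟩
    show mk v k ∈ mkA u
    unfold mkA
    rw [List.mem_flatMap]
    refine ⟨k, List.mem_range'_1.2 ⟨by omega, by omega⟩, ?_⟩
    rw [List.mem_map]
    refine ⟨v, ?_, rfl⟩
    rw [List.mem_filter, List.mem_range, decide_eq_true_eq]
    exact ⟨hv, hd, hke⟩
  · intro v hv k hk0 hk6 hke hd
    refine ⟨mk v k, ?_, rfl, rfl⟩
    show mk v k ∈ mkK u
    unfold mkK
    rw [List.mem_flatMap]
    refine ⟨k, List.mem_range'_1.2 ⟨by omega, by omega⟩, ?_⟩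
    rw [List.mem_map]
    refine ⟨v, ?_, rfl⟩
    rw [List.mem_filter, List.mem_range, decide_eq_true_eq]
    exact ⟨hv, hd, hke⟩

deriving instance DecidableEq for Ent
deriving instance DecidableEq for Rec

theorem recs_eq : recs = (List.range 19).reverse.map mkRec := by decide +kernel

theorem recs_ok : ∀ r ∈ recs, RecOk dd ec r := by
  intro r hr
  rw [recs_eq, List.mem_map] at hr
  obtain ⟨u, hu, rfl⟩ := hr
  rw [List.mem_reverse, List.mem_range] at hu
  exact recOk hu

theorem recs_all : ∀ x < 19, ∃ r ∈ recs, r.u = x := by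
  intro x hx
  refine ⟨mkRec x, ?_, rfl⟩
  rw [recs_eq, List.mem_map]
  exact ⟨x, by rw [List.mem_reverse, List.mem_range]; exact hx, rfl⟩

theorem dd_symm : ∀ v < 19, ∀ x < 19, dd v x = dd x v := by decide +kernel

theorem dd_tri : ∀ v < 19, ∀ x < 19, ∀ w < 19, dd v w ≤ dd v x + dd x w := by decide +kernel

/-- the targets -/
def tg : List ℕ := [0, 1, 2, 3, 5, 6]

/-- values -/
def kk : List ℕ := [1, 2, 3, 4, 5, 6, 7, 8, 9, 10, 11, 12, 13, 14]

theorem target_irr : irrW mk ok (tg.map fun v => (v, 1)) 0 0 [] = true := by decide +kernel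

theorem target_max : runA mk ok kk tg 0 0 [] 0 = true := by decide +kernel

/-- masks of the six target entries -/
def tgF : List Ent := (tg.map fun v => mk v 1).reverse

def tgC : ℕ := tgF.foldr (fun e c => Nat.lor c e.X) 0

def tgT : ℕ := (tgF.foldr (fun e p => (Nat.lor p.1 e.X, Nat.lor p.2 (Nat.land p.1 e.X)))
  ((0, 0) : ℕ × ℕ)).2

theorem target_max2 : ∀ x < 19, x ∉ tg → runA mk ok kk [x] tgC tgT (tgF.map Ent.b) 1 = true := by
  decide +kernel

theorem run_ok : (run (leafC mk ok T0) recs [] [] 0 0 0 0 6 wits).isSome = true := by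
  decide +kernel

end Pool.Agent.LibBcast
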