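import Mathlib

/-!
Broadcasts in finite connected graphs: domination, irredundance, and the two parameters.
-/

namespace Pool.Agent.LibBcast

variable {V : Type} [Fintype V] [DecidableEq V] (G : SimpleGraph V)

/-- The eccentricity of a vertex of a finite connected graph. -/
noncomputable def ecc (v : V) : ℕ := Finset.univ.sup fun u => G.dist v u

/-- The diameter of a finite connected graph. -/
noncomputable def diam : ℕ := Finset.univ.sup fun v => ecc G v

/-- A broadcast on a finite connected graph: values at most the diameter, and at most the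
eccentricity of the vertex. -/
def IsBroadcast (f : V → ℕ) : Prop := ∀ v, f v ≤ diam G ∧ f v ≤ ecc G v

/-- The cost of a broadcast. -/
def cost (f : V → ℕ) : ℕ := ∑ v, f v

/-- The vertex `u` hears `f` from the vertex `v`. -/
def Hears (f : V → ℕ) (u v : V) : Prop := 0 < f v ∧ G.dist u v ≤ f v

/-- Dominating broadcasts. -/
def Dominating (f : V → ℕ) : Prop := IsBroadcast G f ∧ ∀ u, ∃ v, Hears G f u v

/-- The private boundary of `v`: the vertices at distance at most `f v` from `v` which hear no
vertex after the value at `v` is lowered by one. -/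
def PB (f : V → ℕ) (v : V) : Set V :=
  {u | G.dist u v ≤ f v ∧ ∀ w, ¬ Hears G (Function.update f v (f v - 1)) u w}

/-- Irredundant broadcasts. -/
def Irredundant (f : V → ℕ) : Prop := IsBroadcast G f ∧ ∀ v, 0 < f v → (PB G f v).Nonempty

/-- Maximal irredundant broadcasts. -/
def MaximalIrredundant (f : V → ℕ) : Prop :=
  Irredundant G f ∧ ∀ g, IsBroadcast G g → (∀ v, f v ≤ g v) → g ≠ f → ¬ Irredundant G g

/-- The broadcast number: the minimum cost of a dominating broadcast. -/
noncomputable def gammaB : ℕ := sInf {c | ∃ f, Dominating G f ∧ cost f = c}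

/-- The broadcast irredundance number: the minimum cost of a maximal irredundant broadcast. -/
noncomputable def irB : ℕ := sInf {c | ∃ f, MaximalIrredundant G f ∧ cost f = c}

/-- Maximal irredundant broadcasts of minimum cost. -/
def IrbBroadcast (f : V → ℕ) : Prop := MaximalIrredundant G f ∧ cost f = irB G

/-- The disjoint union of `r` copies of the complete graph on two vertices. -/
def rK2 (r : ℕ) : SimpleGraph (Fin r × Fin 2) where
  Adj a b := a.1 = b.1 ∧ a.2 ≠ b.2
  symm := ⟨fun _ _ h => ⟨h.1.symm, h.2.symm⟩⟩
  loopless := ⟨fun _ h => h.2 rfl⟩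

end Pool.Agent.LibBcast
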