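import Pool.Agent.LibBcast.Graph
import Pool.Agent.LibBcast.Defs

/-!
The graph on 19 vertices and its broadcasts.
-/

namespace Pool.Agent.LibBcast

theorem dd_self : ∀ v < 19, dd v v = 0 := by decide +kernel

theorem dd_zero : ∀ v < 19, ∀ u < 19, dd v u = 0 → v = u := by decide +kernel

theorem dd_step : ∀ v < 19, ∀ u < 19, 0 < dd v u →
    ∃ w < 19, dd w u = 1 ∧ dd v w + 1 = dd v u := by decide +kernel

theorem ec_spec : ∀ v < 19, (∀ u < 19, dd v u ≤ ec v) ∧ ∃ u < 19, dd v u = ec v := by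
  decide +kernel

theorem ec_pos : ∀ v < 19, 1 ≤ ec v := by decide +kernel

/-- The graph. -/
def theG : SimpleGraph (Fin 19) where
  Adj u v := dd u v = 1
  symm := ⟨fun u v h => by rw [dd_symm v v.2 u u.2]; exact h⟩
  loopless := ⟨fun u h => by rw [dd_self u u.2] at h; exact absurd h (by norm_num)⟩

theorem walk_of_dd : ∀ (k : ℕ) (v u : Fin 19), dd v u = k →
    ∃ p : theG.Walk v u, p.length = k := by
  intro k
  induction k with
  | zero =>
    intro v u h
    have := Fin.ext (dd_zero v v.2 u u.2 h)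
    subst this
    exact ⟨SimpleGraph.Walk.nil, rfl⟩
  | succ k ih =>
    intro v u h
    obtain ⟨w, hw, h1, h2⟩ := dd_step v v.2 u u.2 (by omega)
    obtain ⟨p, hp⟩ := ih v ⟨w, hw⟩ (by show dd v w = k; omega)
    have hadj : theG.Adj ⟨w, hw⟩ u := h1
    exact ⟨p.concat hadj, by rw [SimpleGraph.Walk.length_concat, hp]⟩

theorem dd_le_walk {v u : Fin 19} (p : theG.Walk v u) : dd v u ≤ p.length := by
  induction p with
  | nil => rw [dd_self _ (Fin.is_lt _)]; exact Nat.zero_le _
  | @cons a b c h p ih =>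
    rw [SimpleGraph.Walk.length_cons]
    have h1 := dd_tri a a.2 b b.2 c c.2
    have h2 : dd a b = 1 := h
    omega

theorem theG_connected : theG.Connected := by
  have : Nonempty (Fin 19) := ⟨0⟩
  refine ⟨fun v u => ?_⟩
  obtain ⟨p, -⟩ := walk_of_dd _ v u rfl
  exact ⟨p⟩

theorem dist_eq (v u : Fin 19) : theG.dist v u = dd v u := by
  apply le_antisymm
  · obtain ⟨p, hp⟩ := walk_of_dd _ v u rfl
    rw [← hp]
    exact SimpleGraph.dist_le p
  · obtain ⟨p, hp⟩ := (theG_connected v u).exists_walk_length_eq_dist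
    rw [← hp]
    exact dd_le_walk p

theorem ecc_eq (v : Fin 19) : ecc theG v = ec v := by
  unfold ecc
  obtain ⟨h1, u, hu, h2⟩ := ec_spec v v.2
  apply le_antisymm
  · apply Finset.sup_le
    intro u _
    rw [dist_eq]
    exact h1 u u.2
  · rw [← h2]
    have := Finset.le_sup (f := fun u => theG.dist v u) (Finset.mem_univ (⟨u, hu⟩ : Fin 19))
    rw [dist_eq] at this
    exact this

theorem isBroadcast_iff (f : Fin 19 → ℕ) : IsBroadcast theG f ↔ ∀ v, f v ≤ ec v := by
  unfold IsBroadcast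
  constructor
  · intro h v
    rw [← ecc_eq]
    exact (h v).2
  · intro h v
    have h2 : f v ≤ ecc theG v := by rw [ecc_eq]; exact h v
    exact ⟨le_trans h2 (Finset.le_sup (f := fun v => ecc theG v) (Finset.mem_univ v)), h2⟩

/-- extension by zero -/
def ext (f : Fin 19 → ℕ) (v : ℕ) : ℕ := if h : v < 19 then f ⟨v, h⟩ else 0

theorem ext_val (f : Fin 19 → ℕ) (v : Fin 19) : ext f v = f v := by
  unfold ext
  rw [dif_pos v.2]

theorem ext_supp (f : Fin 19 → ℕ) {v : ℕ} (h : 19 ≤ v) : ext f v = 0 := by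
  unfold ext
  rw [dif_neg (by omega)]

theorem ext_pos {f : Fin 19 → ℕ} {v : ℕ} (h : 0 < ext f v) : v < 19 := by
  by_contra hc
  rw [ext_supp f (by omega)] at h
  omega

theorem mem_PB {f : Fin 19 → ℕ} {v : Fin 19} (hv : 0 < f v) (u : Fin 19) :
    u ∈ PB theG f v ↔ InB dd v (f v) u ∧ ¬ TW dd (ext f) u := by
  have hd : ∀ w : Fin 19, theG.dist u w = dd w u := by
    intro w
    rw [dist_eq, dd_symm u u.2 w w.2]
  unfold PB Hears InB TW
  simp only [Set.mem_ofPred_eq, hd]
  constructor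
  · rintro ⟨h1, h2⟩
    refine ⟨⟨u.2, h1, ?_⟩, ?_⟩
    · have h3 := h2 v
      rw [Function.update_self] at h3
      by_contra hc
      push Not at hc
      exact h3 ⟨by omega, by omega⟩
    · rintro ⟨a, b, hab, ha, hb, h3, h4⟩
      have key : ∀ x : ℕ, x ≠ v → 0 < ext f x → dd x u ≤ ext f x → False := by
        intro x hx h5 h6
        have hx19 := ext_pos h5
        have h7 := h2 ⟨x, hx19⟩
        have hne : (⟨x, hx19⟩ : Fin 19) ≠ v := by
          intro h; exact hx (congrArg Fin.val h)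
        rw [Function.update_of_ne hne] at h7
        apply h7
        have h8 := ext_val f ⟨x, hx19⟩
        exact ⟨by rw [← h8]; exact h5, by rw [← h8]; exact h6⟩
      by_cases hav : a = v
      · exact key b (by rw [← hav]; exact hab.symm) hb h4
      · exact key a hav ha h3
  · rintro ⟨⟨_, h1, h2⟩, h3⟩
    refine ⟨h1, ?_⟩
    intro w hw
    by_cases hwv : w = v
    · subst hwv
      rw [Function.update_self] at hw
      omega
    · rw [Function.update_of_ne hwv] at hw
      apply h3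
      refine ⟨w, v, fun h => hwv (Fin.ext h), ?_, ?_, ?_, ?_⟩
      · rw [ext_val]; exact hw.1
      · rw [ext_val]; exact hv
      · rw [ext_val]; exact hw.2
      · rw [ext_val]; exact h1

theorem irredundant_iff (f : Fin 19 → ℕ) : Irredundant theG f ↔ IrrF dd ec (ext f) := by
  unfold Irredundant
  rw [isBroadcast_iff]
  constructor
  · rintro ⟨h1, h2⟩
    refine ⟨fun v hv => ext_supp f hv, ?_, ?_⟩
    · intro v
      by_cases hv : v < 19
      · have := h1 ⟨v, hv⟩
        have h3 := ext_val f ⟨v, hv⟩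
        rw [← h3] at this
        exact this
      · rw [ext_supp f (by omega)]; exact Nat.zero_le _
    · intro v hv
      have hv19 := ext_pos hv
      have h3 := ext_val f ⟨v, hv19⟩
      have h3' : ext f v = f ⟨v, hv19⟩ := h3
      obtain ⟨u, hu⟩ := h2 ⟨v, hv19⟩ (by rw [← h3]; exact hv)
      rw [mem_PB (by rw [← h3]; exact hv)] at hu
      rw [h3']
      exact ⟨u, hu⟩
  · intro h
    refine ⟨fun v => by rw [← ext_val f v]; exact h.ecc v, ?_⟩
    intro v hv
    obtain ⟨x, h1, h2⟩ := h.irr v (by rw [ext_val]; exact hv)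
    refine ⟨⟨x, h1.1⟩, ?_⟩
    rw [mem_PB hv]
    rw [ext_val] at h1
    exact ⟨h1, h2⟩

theorem ext_res {g : ℕ → ℕ} (hg : ∀ v, 19 ≤ v → g v = 0) : ext (fun v : Fin 19 => g v) = g := by
  funext v
  by_cases hv : v < 19
  · exact ext_val (fun v : Fin 19 => g v) ⟨v, hv⟩
  · rw [ext_supp _ (by omega), hg v (by omega)]

theorem sum_ext (f : Fin 19 → ℕ) : ∑ v ∈ Finset.range 19, ext f v = cost f := by
  unfold cost
  rw [← Fin.sum_univ_eq_sum_range]
  exact Finset.sum_congr rfl (fun v _ => ext_val f v)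

/-- maximality, with tables -/
theorem max_ext {f : Fin 19 → ℕ} (h : MaximalIrredundant theG f) :
    ∀ g, IrrF dd ec g → (∀ v, ext f v ≤ g v) → g = ext f := by
  intro g hg hge
  by_contra hne
  have h1 := ext_res hg.supp
  have h2 : Irredundant theG (fun v : Fin 19 => g v) := by
    rw [irredundant_iff, h1]
    exact hg
  refine h.2 (fun v : Fin 19 => g v) h2.1 ?_ ?_ h2
  · intro v
    have := hge v
    rw [ext_val] at this
    exact this
  · intro heq
    apply hne
    rw [← h1, heq]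

theorem good_ext {f : Fin 19 → ℕ} (h : MaximalIrredundant theG f) (hc : cost f ≤ 6) :
    Good dd ec (ext f) := by
  have hirr := (irredundant_iff f).1 h.1
  refine ⟨hirr.supp, hirr.ecc, hirr.irr, ?_, by rw [sum_ext]; exact hc⟩
  intro u hu hund
  have hfu : f ⟨u, hu⟩ = 0 := by
    by_contra hc
    have h1 := hund u (by
      have := ext_val f ⟨u, hu⟩
      have h2 : ext f u = f ⟨u, hu⟩ := this
      rw [h2]; omega)
    rw [dd_self u hu] at h1
    exact h1 (Nat.zero_le _)
  set g : Fin 19 → ℕ := Function.update f ⟨u, hu⟩ 1 with hgdef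
  have hgu : g ⟨u, hu⟩ = 1 := by rw [hgdef, Function.update_self]
  have hgw : ∀ w, w ≠ ⟨u, hu⟩ → g w = f w := by
    intro w hw; rw [hgdef, Function.update_of_ne hw]
  have hb : IsBroadcast theG g := by
    rw [isBroadcast_iff]
    intro w
    by_cases hw : w = ⟨u, hu⟩
    · rw [hw, hgu]; exact ec_pos u hu
    · rw [hgw w hw]
      exact (isBroadcast_iff f).1 h.1.1 w
  have hnot := h.2 g hb (by
    intro w
    by_cases hw : w = ⟨u, hu⟩
    · rw [hw, hgu, hfu]; exact Nat.zero_le _
    · rw [hgw w hw]) (by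
    intro heq
    rw [heq] at hgu
    omega)
  have hex : ∃ w, 0 < g w ∧ ¬ (PB theG g w).Nonempty := by
    by_contra hc
    push Not at hc
    exact hnot ⟨hb, fun v hv => by
      have := hc v hv
      exact Set.nonempty_iff_ne_empty.2 this.ne_empty⟩
  obtain ⟨w, hw0, hwe⟩ := hex
  -- coverage under g
  have hcov : ∀ x a : ℕ, 0 < ext g a → dd a x ≤ ext g a → ¬ dd u x ≤ 1 →
      0 < ext f a ∧ dd a x ≤ ext f a := by
    intro x a h1 h2 h3
    have ha := ext_pos h1
    have hga : ext g a = g ⟨a, ha⟩ := ext_val g ⟨a, ha⟩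
    have hfa : ext f a = f ⟨a, ha⟩ := ext_val f ⟨a, ha⟩
    by_cases hau : a = u
    · subst hau
      rw [hga, hgu] at h2
      exact absurd h2 h3
    · have : g ⟨a, ha⟩ = f ⟨a, ha⟩ := hgw _ (by
        intro h'; exact hau (congrArg Fin.val h'))
      rw [hfa, ← this, ← hga]
      exact ⟨h1, h2⟩
  by_cases hwu : w = ⟨u, hu⟩
  · exfalso
    apply hwe
    refine ⟨⟨u, hu⟩, ?_⟩
    rw [mem_PB hw0, hwu, hgu]
    refine ⟨⟨hu, ?_, Or.inl rfl⟩, ?_⟩
    · show dd u u ≤ 1
      rw [dd_self u hu]; omega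
    · rintro ⟨a, b, hab, ha, hb', h3, h4⟩
      have key : ∀ a : ℕ, a ≠ u → 0 < ext g a → dd a u ≤ ext g a → False := by
        intro a hau h1 h2
        have ha := ext_pos h1
        have hga : ext g a = g ⟨a, ha⟩ := ext_val g ⟨a, ha⟩
        have hfa : ext f a = f ⟨a, ha⟩ := ext_val f ⟨a, ha⟩
        have : g ⟨a, ha⟩ = f ⟨a, ha⟩ := hgw _ (by
          intro h'; exact hau (congrArg Fin.val h'))
        refine hund a ?_ ?_
        · rw [hfa, ← this, ← hga]; exact h1
        · rw [hfa, ← this, ← hga]; exact h2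
      by_cases hau : a = u
      · exact key b (by rw [← hau]; exact hab.symm) hb' h4
      · exact key a hau ha h3
  · have hgfw : g w = f w := hgw w hwu
    refine ⟨w, ?_, ?_⟩
    · rw [ext_val, ← hgfw]; exact hw0
    · intro x hx htw
      by_contra hc
      apply hwe
      refine ⟨⟨x, hx.1⟩, ?_⟩
      rw [mem_PB hw0, hgfw]
      rw [ext_val] at hx
      refine ⟨hx, ?_⟩
      rintro ⟨a, b, hab, ha, hb', h3, h4⟩
      apply htw
      obtain ⟨h5, h6⟩ := hcov x a ha h3 hc
      obtain ⟨h7, h8⟩ := hcov x b hb' h4 hc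
      exact ⟨a, b, hab, h5, h7, h6, h8⟩

/-- The target broadcast on the graph. -/
def ft (v : Fin 19) : ℕ := f0 v

theorem ext_ft : ext ft = f0 := ext_res (fun _ hv => f0_supp hv)

theorem ft_maximal : MaximalIrredundant theG ft := by
  refine ⟨?_, ?_⟩
  · rw [irredundant_iff, ext_ft]; exact irrF_f0
  · intro g _ hge hne hg
    apply hne
    have h1 : ext g = f0 := by
      apply max_f0 ((irredundant_iff g).1 hg)
      intro v
      rw [← ext_ft]
      by_cases hv : v < 19
      · have h2 := hge ⟨v, hv⟩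
        have h3 : ext ft v = ft ⟨v, hv⟩ := ext_val ft ⟨v, hv⟩
        have h4 : ext g v = g ⟨v, hv⟩ := ext_val g ⟨v, hv⟩
        rw [h3, h4]; exact h2
      · rw [ext_supp _ (by omega)]; exact Nat.zero_le _
    funext v
    rw [← ext_val g v, h1]
    rfl

theorem ft_cost : cost ft = 6 := by
  rw [← sum_ext, ext_ft]
  decide +kernel

theorem unique_ft {f : Fin 19 → ℕ} (h : MaximalIrredundant theG f) (hc : cost f ≤ 6) :
    f = ft := by
  have := eq_f0 (good_ext h hc) (max_ext h)
  funext v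
  rw [← ext_val f v, this]
  rfl

theorem irB_eq : irB theG = 6 := by
  unfold irB
  have hne : {c | ∃ f, MaximalIrredundant theG f ∧ cost f = c}.Nonempty :=
    ⟨6, ft, ft_maximal, ft_cost⟩
  apply le_antisymm
  · exact Nat.sInf_le ⟨ft, ft_maximal, ft_cost⟩
  · obtain ⟨f, h1, h2⟩ := Nat.sInf_mem hne
    by_contra hc
    push Not at hc
    have : f = ft := unique_ft h1 (by omega)
    rw [this, ft_cost] at h2
    omega

theorem irb_iff (f : Fin 19 → ℕ) : IrbBroadcast theG f ↔ f = ft := by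
  unfold IrbBroadcast
  rw [irB_eq]
  constructor
  · rintro ⟨h1, h2⟩
    exact unique_ft h1 (by omega)
  · rintro rfl
    exact ⟨ft_maximal, ft_cost⟩

end Pool.Agent.LibBcast
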