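import Pool.Agent.LibBcast.Check

/-!
From tables to the graph.
-/

namespace Pool.Agent.LibBcast

/-- the target broadcast -/
def f0 (v : ℕ) : ℕ := if T0.testBit v then 1 else 0

theorem T0_iff : ∀ v < 19, T0.testBit v = true ↔ v ∈ tg := by decide +kernel

theorem T0_lt : T0 < 2 ^ 19 := by decide +kernel

theorem f0_supp {v : ℕ} (hv : 19 ≤ v) : f0 v = 0 := by
  unfold f0
  rw [Nat.testBit_eq_false_of_lt (lt_of_lt_of_le T0_lt (Nat.pow_le_pow_right (by norm_num) hv))]
  rfl

theorem f0_tg : ∀ v ∈ tg, f0 v = 1 := by decide +kernel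

theorem f0_not {v : ℕ} (hv : v ∉ tg) : f0 v = 0 := by
  by_cases h : v < 19
  · unfold f0
    rw [if_neg]
    intro hc
    exact hv ((T0_iff v h).1 hc)
  · exact f0_supp (by omega)

theorem tg_lt : ∀ v ∈ tg, v < 19 := by decide +kernel

theorem gv_target : gv (tg.map fun v => (v, 1)) = f0 := by
  funext v
  by_cases h : v ∈ tg
  · rw [f0_tg v h]
    have := (irrF_of_irrW mkOk target_irr).2 (v, 1) (List.mem_map.2 ⟨v, h, rfl⟩)
    exact this
  · rw [f0_not h]
    by_contra hc
    have := gv_mem (w := tg.map fun v => (v, 1)) (v := v) (by omega)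
    rw [List.mem_map] at this
    obtain ⟨u, hu, hu2⟩ := this
    apply h
    have : u = v := congrArg Prod.fst hu2
    rw [← this]; exact hu

theorem irrF_f0 : IrrF dd ec f0 := by
  rw [← gv_target]
  exact (irrF_of_irrW mkOk target_irr).1

theorem kk_all (v k : ℕ) (h0 : 0 < k) (h : k ≤ ec v) : k ∈ kk := by
  have h14 : ec v ≤ 14 := by
    by_cases hv : v < 19
    · exact ec_le v hv
    · unfold ec
      have : Nat.shiftRight ECT (Nat.mul 4 v) = 0 := by
        show ECT >>> (4 * v) = 0
        rw [Nat.shiftRight_eq_div_pow]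
        apply Nat.div_eq_of_lt
        calc ECT < 2 ^ 76 := by decide +kernel
          _ ≤ 2 ^ (4 * v) := Nat.pow_le_pow_right (by norm_num) (by omega)
      rw [this]
      decide
  have : k ≤ 14 := le_trans h h14
  unfold kk
  interval_cases k <;> simp

theorem ok_all : ∀ v < 19, ∀ k, 0 < k → k ≤ ec v → ok v k = true := by
  intro v hv k h0 hk
  unfold ok
  rw [decide_eq_true_eq]
  exact ⟨hv, h0, hk⟩

theorem cfg_tg : Cfg dd tgF tgC tgT := by
  have key : ∀ l : List ℕ, l.Nodup → (∀ v ∈ l, v < 19) → ∀ F c t, Cfg dd F c t →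
      (∀ v ∈ l, ∀ e ∈ F, v ≠ e.v) →
      Cfg dd ((l.map fun v => mk v 1).reverse ++ F)
        (((l.map fun v => mk v 1).reverse).foldr (fun e c => Nat.lor c e.X) c)
        ((((l.map fun v => mk v 1).reverse).foldr
          (fun e p => (Nat.lor p.1 e.X, Nat.lor p.2 (Nat.land p.1 e.X))) ((c, t) : ℕ × ℕ)).2) := by
    intro l
    induction l with
    | nil => intro _ _ F c t h _; simpa using h
    | cons a l ih =>
      intro hnd hlt F c t h hne
      rw [List.nodup_cons] at hnd
      have hal : a < 19 := hlt a List.mem_cons_self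
      have hoka : ok a 1 = true := ok_all a hal 1 (by norm_num) (by
        have : ∀ v < 19, 1 ≤ ec v := by decide +kernel
        exact this a hal)
      have hc := cfg_cons h (mkOk.valid a 1 hoka) (fun e' he' => hne a List.mem_cons_self e' he')
      have := ih hnd.2 (fun v hv => hlt v (List.mem_cons_of_mem _ hv)) _ _ _ hc (by
        intro v hv e he
        rcases List.mem_cons.1 he with rfl | h'
        · rintro rfl
          exact hnd.1 hv
        · exact hne v (List.mem_cons_of_mem _ hv) e h')
      simpa [List.foldr_append] using this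
  have h := key tg (by decide +kernel) tg_lt [] 0 0 (cfg_nil dd) (by simp)
  simpa [tgF, tgC, tgT] using h

/-- The target is maximal. -/
theorem max_f0 {g : ℕ → ℕ} (hg : IrrF dd ec g) (hge : ∀ v, f0 v ≤ g v) : g = f0 := by
  have hpos : ∀ v ∈ tg, 0 < g v := by
    intro v hv
    have := hge v
    rw [f0_tg v hv] at this
    omega
  obtain ⟨-, h1⟩ := runA_sound mkOk ok_all kk_all hg tg [] 0 0 [] 0 target_max (cfg_nil dd)
    (by simp) (by simp) hpos (by decide +kernel) (by simp)
  funext v
  by_cases hv : v ∈ tg
  · rw [h1 v hv, f0_tg v hv]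
  · rw [f0_not hv]
    by_contra hc
    have hv19 : v < 19 := by
      by_contra h'
      exact hc (hg.supp v (by omega))
    have hF : ∀ e ∈ tgF, g e.v = e.k := by
      intro e he
      unfold tgF at he
      rw [List.mem_reverse, List.mem_map] at he
      obtain ⟨u, hu, rfl⟩ := he
      exact h1 u hu
    obtain ⟨hs, -⟩ := runA_sound mkOk ok_all kk_all hg [v] tgF tgC tgT (tgF.map Ent.b) 1
      (target_max2 v hv19 hv) cfg_tg hF
      (by
        intro m hm
        rw [List.mem_map] at hm
        obtain ⟨e, he, rfl⟩ := hm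
        have hval := cfg_tg.valid e he
        obtain ⟨x, h2, h3⟩ := hg.irr e.v (by rw [hF e he]; exact hval.pos)
        refine ⟨x, ?_, h3⟩
        rw [hval.b_iff, ← hF e he]
        exact h2)
      (by
        intro u hu
        rw [List.mem_singleton] at hu
        rw [hu]; omega)
      (by simp)
      (by
        intro u hu e he
        rw [List.mem_singleton] at hu
        rw [hu]
        rintro rfl
        apply hv
        unfold tgF at he
        rw [List.mem_reverse, List.mem_map] at he
        obtain ⟨w, hw, rfl⟩ := he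
        exact hw)
    exact absurd hs (by norm_num)

/-- The only maximal irredundant broadcast of cost at most 6. -/
theorem eq_f0 {f : ℕ → ℕ} (hg : Good dd ec f)
    (hmax : ∀ g, IrrF dd ec g → (∀ v, f v ≤ g v) → g = f) : f = f0 := by
  obtain ⟨W', hW⟩ := Option.isSome_iff_exists.1 run_ok
  have := run_sound (Concl := ∀ v, f v = if T0.testBit v then 1 else 0) hg dd_symm dd_tri recs
    recs_ok (fun F L E c t M R W W' => leafC_sound hg hmax mkOk F L E c t M R W W')
    [] [] 0 0 0 0 6 wits W' hW ?_ ?_
  · funext v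
    exact this v
  · refine ⟨cfg_nil dd, by simp, by simp, ?_, ?_, ?_⟩
    · intro x hx; rw [Nat.zero_testBit] at hx; exact absurd hx (by simp)
    · intro x hx; rw [Nat.zero_testBit] at hx; exact absurd hx (by simp)
    · simpa using hg.cost
  · intro x hx hne
    obtain ⟨r, hr, hrx⟩ := recs_all x hx
    exact absurd hrx (hne r hr)

end Pool.Agent.LibBcast
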