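import Pool.Agent.LibBcast.Run

/-!
Witness checks at the leaves of the search, and the check of maximality.
-/

namespace Pool.Agent.LibBcast

/-- irredundant broadcasts, with tables -/
structure IrrF (d : ℕ → ℕ → ℕ) (ec : ℕ → ℕ) (f : ℕ → ℕ) : Prop where
  supp : ∀ v, 19 ≤ v → f v = 0
  ecc : ∀ v, f v ≤ ec v
  irr : ∀ v, 0 < f v → ∃ x, InB d v (f v) x ∧ ¬ TW d f x

/-- value of a list of pairs at a vertex -/
noncomputable def gv (w : Wit) (v : ℕ) : ℕ :=
  List.rec 0 (fun p _ ih => br (Nat.beq p.1 v) ih p.2) w

/-- value of a list of entries at a vertex -/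
noncomputable def fv (F : List Ent) (v : ℕ) : ℕ :=
  List.rec 0 (fun e _ ih => br (Nat.beq e.v v) ih e.k) F

/-- the pairs dominate the entries -/
noncomputable def geF (w : Wit) (F : List Ent) : Bool :=
  List.rec true (fun e _ ih => br (Nat.ble e.k (gv w e.v)) false ih) F

/-- some pair is larger than the entries -/
noncomputable def someGt (w : Wit) (F : List Ent) : Bool :=
  List.rec false (fun p _ ih => br (Nat.ble p.2 (fv F p.1)) true ih) w

noncomputable def allOne (F : List Ent) : Bool :=
  List.rec true (fun e _ ih => br (Nat.beq e.k 1) false ih) F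

/-- irredundance of a list of pairs -/
noncomputable def irrW (mk : ℕ → ℕ → Ent) (ok : ℕ → ℕ → Bool) (w : Wit) :
    ℕ → ℕ → List ℕ → Bool :=
  List.rec (fun _ t L => allOk t L)
    (fun p _ ih c t L =>
      br (ok p.1 p.2) false
        (Ent.rec (fun _ _ X b =>
          force (Nat.lor t (Nat.land c X)) fun t' =>
            br (Nat.ble t' 524287) false
              (force (Nat.lor c X) fun c' => ih c' t' (b :: L))) (mk p.1 p.2))) w

/-- the test at a leaf -/
noncomputable def leafC (mk : ℕ → ℕ → Ent) (ok : ℕ → ℕ → Bool) (T0 : ℕ) : Kont :=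
  fun F _ E c t _ _ W =>
    br (Nat.beq (Nat.land E t) E) (some W)
      (List.rec none (fun w W' _ =>
        List.rec (br (Nat.beq (Nat.shiftRight c 19) T0) none (br (allOne F) none (some W')))
          (fun _ _ _ => br (geF w F) none
            (br (someGt w F) none (br (irrW mk ok w 0 0 []) none (some W')))) w) W)

theorem gv_cons (p : ℕ × ℕ) (w : Wit) (v : ℕ) :
    gv (p :: w) v = if p.1 = v then p.2 else gv w v := by
  show br (Nat.beq p.1 v) (gv w v) p.2 = _
  by_cases h : p.1 = v
  · rw [br_true ((beq_true_iff _ _).2 h), if_pos h]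
  · rw [br_false ((beq_false_iff _ _).2 h), if_neg h]

theorem gv_nil (v : ℕ) : gv [] v = 0 := rfl

theorem gv_mem {w : Wit} {v : ℕ} (h : 0 < gv w v) : (v, gv w v) ∈ w := by
  induction w with
  | nil => rw [gv_nil] at h; omega
  | cons p w ih =>
    rw [gv_cons] at h ⊢
    split_ifs at h ⊢ with hp
    · subst hp; exact List.mem_cons_self
    · exact List.mem_cons_of_mem _ (ih h)

theorem gv_of_mem {w : Wit} (hw : w.Pairwise (fun p q => p.1 ≠ q.1)) {p : ℕ × ℕ} (hp : p ∈ w) :
    gv w p.1 = p.2 := by
  induction w with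
  | nil => exact absurd hp (by simp)
  | cons q w ih =>
    rw [gv_cons]
    rw [List.pairwise_cons] at hw
    rcases List.mem_cons.1 hp with rfl | h'
    · rw [if_pos rfl]
    · rw [if_neg (hw.1 p h'), ih hw.2 h']

theorem fv_cons (e : Ent) (F : List Ent) (v : ℕ) :
    fv (e :: F) v = if e.v = v then e.k else fv F v := by
  show br (Nat.beq e.v v) (fv F v) e.k = _
  by_cases h : e.v = v
  · rw [br_true ((beq_true_iff _ _).2 h), if_pos h]
  · rw [br_false ((beq_false_iff _ _).2 h), if_neg h]

theorem fv_mem {F : List Ent} {v : ℕ} (h : 0 < fv F v) : ∃ e ∈ F, e.v = v ∧ e.k = fv F v := by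
  induction F with
  | nil => exact absurd h (by simp [fv])
  | cons e F ih =>
    rw [fv_cons] at h ⊢
    split_ifs at h ⊢ with hp
    · exact ⟨e, List.mem_cons_self, hp, rfl⟩
    · obtain ⟨e', h1, h2⟩ := ih h
      exact ⟨e', List.mem_cons_of_mem _ h1, h2⟩

theorem geF_iff {w : Wit} {F : List Ent} (h : geF w F = true) : ∀ e ∈ F, e.k ≤ gv w e.v := by
  induction F with
  | nil => simp
  | cons e F ih =>
    have h' : br (Nat.ble e.k (gv w e.v)) false (geF w F) = true := h
    by_cases hb : Nat.ble e.k (gv w e.v) = true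
    · rw [br_true hb] at h'
      intro e' he'
      rcases List.mem_cons.1 he' with rfl | h2
      · exact Nat.le_of_ble_eq_true hb
      · exact ih h' e' h2
    · rw [Bool.not_eq_true] at hb
      rw [br_false hb] at h'
      exact absurd h' (by simp)

theorem someGt_iff {w : Wit} {F : List Ent} (h : someGt w F = true) :
    ∃ p ∈ w, fv F p.1 < p.2 := by
  induction w with
  | nil => exact absurd h (by simp [someGt])
  | cons p w ih =>
    have h' : br (Nat.ble p.2 (fv F p.1)) true (someGt w F) = true := h
    by_cases hb : Nat.ble p.2 (fv F p.1) = true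
    · rw [br_true hb] at h'
      obtain ⟨q, hq, hq2⟩ := ih h'
      exact ⟨q, List.mem_cons_of_mem _ hq, hq2⟩
    · refine ⟨p, List.mem_cons_self, ?_⟩
      by_contra hc
      exact hb (Nat.ble_eq_true_of_le (by omega))

theorem allOne_iff {F : List Ent} (h : allOne F = true) : ∀ e ∈ F, e.k = 1 := by
  induction F with
  | nil => simp
  | cons e F ih =>
    have h' : br (Nat.beq e.k 1) false (allOne F) = true := h
    by_cases hb : Nat.beq e.k 1 = true
    · rw [br_true hb] at h'
      intro e' he'
      rcases List.mem_cons.1 he' with rfl | h2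
      · exact Nat.eq_of_beq_eq_true hb
      · exact ih h' e' h2
    · rw [Bool.not_eq_true] at hb
      rw [br_false hb] at h'
      exact absurd h' (by simp)

/-- Tables used for witnesses. -/
structure MkOk (d : ℕ → ℕ → ℕ) (ec : ℕ → ℕ) (mk : ℕ → ℕ → Ent) (ok : ℕ → ℕ → Bool) : Prop where
  v_eq : ∀ v k, (mk v k).v = v
  k_eq : ∀ v k, (mk v k).k = k
  valid : ∀ v k, ok v k = true → Valid d (mk v k)
  ecc : ∀ v k, ok v k = true → k ≤ ec v

theorem irrW_cons (mk : ℕ → ℕ → Ent) (ok : ℕ → ℕ → Bool) (p : ℕ × ℕ) (w : Wit) (c t : ℕ)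
    (L : List ℕ) :
    irrW mk ok (p :: w) c t L =
      br (ok p.1 p.2) false
        (br (Nat.ble (Nat.lor t (Nat.land c (mk p.1 p.2).X)) 524287) false
          (irrW mk ok w (Nat.lor c (mk p.1 p.2).X) (Nat.lor t (Nat.land c (mk p.1 p.2).X))
            ((mk p.1 p.2).b :: L))) := by
  show br (ok p.1 p.2) false
        (Ent.rec (fun _ _ X b =>
          force (Nat.lor t (Nat.land c X)) fun t' =>
            br (Nat.ble t' 524287) false
              (force (Nat.lor c X) fun c' => irrW mk ok w c' t' (b :: L))) (mk p.1 p.2)) = _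
  cases mk p.1 p.2 with
  | mk v k X b => simp only [force_eq]

theorem br_eq_true {b x : Bool} (h : br b false x = true) : b = true ∧ x = true := by
  cases b
  · exact absurd h (by simp [br])
  · exact ⟨rfl, h⟩

theorem irrW_sound {d : ℕ → ℕ → ℕ} {ec : ℕ → ℕ} {mk : ℕ → ℕ → Ent} {ok : ℕ → ℕ → Bool}
    (hmk : MkOk d ec mk ok) (w : Wit) :
    ∀ (F : List Ent) (c t : ℕ) (L : List ℕ), irrW mk ok w c t L = true → Cfg d F c t →
      ∃ c' t', Cfg d ((w.map (fun p => mk p.1 p.2)).reverse ++ F) c' t' ∧
        (∀ m ∈ L, ∃ x, m.testBit x = true ∧ t'.testBit x = false) ∧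
        (∀ p ∈ w, ok p.1 p.2 = true ∧
          ∃ x, (mk p.1 p.2).b.testBit x = true ∧ t'.testBit x = false) := by
  induction w with
  | nil =>
    intro F c t L h hc
    refine ⟨c, t, by simpa using hc, ?_, by simp⟩
    exact (allOk_iff t L).1 h
  | cons p w ih =>
    intro F c t L h hc
    rw [irrW_cons] at h
    obtain ⟨h1, h2⟩ := br_eq_true h
    obtain ⟨h3, h4⟩ := br_eq_true h2
    have hval := hmk.valid _ _ h1
    have hun := unused_of_le hc hval (Nat.le_of_ble_eq_true h3)
    obtain ⟨c', t', hcfg, hL, hw⟩ := ih _ _ _ _ h4 (cfg_cons hc hval hun)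
    refine ⟨c', t', ?_, ?_, ?_⟩
    · simpa using hcfg
    · intro m hm
      exact hL m (List.mem_cons_of_mem _ hm)
    · intro q hq
      rcases List.mem_cons.1 hq with rfl | h'
      · exact ⟨h1, hL _ List.mem_cons_self⟩
      · exact hw q h'

/-- The checked witness is an irredundant broadcast. -/
theorem irrF_of_irrW {d : ℕ → ℕ → ℕ} {ec : ℕ → ℕ} {mk : ℕ → ℕ → Ent} {ok : ℕ → ℕ → Bool}
    (hmk : MkOk d ec mk ok) {w : Wit} (h : irrW mk ok w 0 0 [] = true) :
    IrrF d ec (gv w) ∧ (∀ p ∈ w, gv w p.1 = p.2) := by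
  obtain ⟨c', t', hcfg, -, hw⟩ := irrW_sound hmk w [] 0 0 [] h (cfg_nil d)
  rw [List.append_nil] at hcfg
  have hpw : w.Pairwise (fun p q => p.1 ≠ q.1) := by
    have h1 := hcfg.nd
    rw [List.pairwise_reverse, List.pairwise_map] at h1
    refine h1.imp ?_
    intro p q hpq
    rw [hmk.v_eq, hmk.v_eq] at hpq
    exact fun h => hpq h.symm
  have hgv : ∀ p ∈ w, gv w p.1 = p.2 := fun p hp => gv_of_mem hpw hp
  refine ⟨⟨?_, ?_, ?_⟩, hgv⟩
  · intro v hv
    by_contra hc
    have hmem := gv_mem (w := w) (v := v) (by omega)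
    have := (hmk.valid _ _ (hw _ hmem).1).lt
    rw [hmk.v_eq] at this
    omega
  · intro v
    by_cases hc : gv w v = 0
    · omega
    · have hmem := gv_mem (w := w) (v := v) (by omega)
      exact hmk.ecc _ _ (hw _ hmem).1
  · intro v hv
    have hmem := gv_mem (w := w) (v := v) hv
    obtain ⟨hok, x, hx1, hx2⟩ := hw _ hmem
    have hval := hmk.valid _ _ hok
    refine ⟨x, ?_, ?_⟩
    · have := (hval.b_iff x).1 hx1
      rw [hmk.v_eq, hmk.k_eq] at this
      exact this
    · intro htw
      have hin := (hval.b_iff x).1 hx1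
      have : t'.testBit x = true := by
        refine testBit_of_tw hcfg (f := gv w) ?_ ?_ hin.1 htw
        · intro e he
          rw [List.mem_reverse, List.mem_map] at he
          obtain ⟨p, hp, rfl⟩ := he
          rw [hmk.v_eq, hmk.k_eq]
          exact hgv p hp
        · intro u hu
          have hmem' := gv_mem (w := w) (v := u) hu
          refine ⟨mk u (gv w u), ?_, ?_⟩
          · rw [List.mem_reverse, List.mem_map]
            exact ⟨_, hmem', rfl⟩
          · rw [hmk.v_eq]
      rw [this] at hx2
      exact absurd hx2 (by simp)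

/-- At a leaf all positive values are listed. -/
theorem all_of_done {d : ℕ → ℕ → ℕ} {ec f : ℕ → ℕ} (hg : Good d ec f) {F : List Ent}
    {L : List ℕ} {E c t M R : ℕ} (h : Inv d f F L E c t M R)
    (hdone : ∀ x < 19, c.testBit x = true ∨ M.testBit x = true) :
    ∀ v, 0 < f v → ∃ e ∈ F, v = e.v := by
  intro v hv
  by_contra hc
  push Not at hc
  obtain ⟨x, h1, h2⟩ := hg.irr v hv
  rcases hdone x h1.1 with h3 | h3
  · obtain ⟨e, he, h4⟩ := (h.cfg.c_low x h1.1).1 h3
    apply h2
    refine ⟨v, e.v, hc e he, hv, ?_, h1.2.1, ?_⟩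
    · rw [h.val e he]; exact (h.cfg.valid e he).pos
    · rw [h.val e he]; exact h4
  · exact (h.hM x h3).2 v hv h1.2.1

theorem leafC_sound {d : ℕ → ℕ → ℕ} {ec f : ℕ → ℕ} (hg : Good d ec f)
    (hmax : ∀ g, IrrF d ec g → (∀ v, f v ≤ g v) → g = f)
    {mk : ℕ → ℕ → Ent} {ok : ℕ → ℕ → Bool} (hmk : MkOk d ec mk ok) {T0 : ℕ}
    (F : List Ent) (L : List ℕ) (E c t M R : ℕ) (W W' : List Wit)
    (hr : leafC mk ok T0 F L E c t M R W = some W') (h : Inv d f F L E c t M R)
    (hdone : ∀ x < 19, c.testBit x = true ∨ M.testBit x = true) :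
    ∀ v, f v = if T0.testBit v then 1 else 0 := by
  have hall := all_of_done hg h hdone
  have hE : Nat.land E t = E := by
    rw [land_eq_iff]
    intro x hx
    have := h.hE x hx
    exact testBit_of_tw h.cfg h.val hall this.1 this.2
  unfold leafC at hr
  rw [br_true ((beq_true_iff _ _).2 hE)] at hr
  cases W with
  | nil => exact absurd hr (by simp)
  | cons w W1 =>
    cases w with
    | nil =>
      have hr' : br (Nat.beq (Nat.shiftRight c 19) T0) none (br (allOne F) none (some W1)) =
        some W' := hr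
      by_cases h1 : Nat.beq (Nat.shiftRight c 19) T0 = true
      · rw [br_true h1] at hr'
        by_cases h2 : allOne F = true
        · have h3 : c >>> 19 = T0 := Nat.eq_of_beq_eq_true h1
          intro v
          have h4 : T0.testBit v = c.testBit (19 + v) := by
            rw [← h3, Nat.testBit_shiftRight]
          by_cases h5 : c.testBit (19 + v) = true
          · rw [h4, h5]
            obtain ⟨e, he, hve⟩ := (h.cfg.c_high v).1 h5
            rw [hve, h.val e he, allOne_iff h2 e he]
            rfl
          · rw [h4]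
            rw [if_neg h5]
            by_contra hc
            obtain ⟨e, he, hve⟩ := hall v (by omega)
            exact h5 ((h.cfg.c_high v).2 ⟨e, he, hve⟩)
        · rw [Bool.not_eq_true] at h2
          rw [br_false h2] at hr'
          exact absurd hr' (by simp)
      · rw [Bool.not_eq_true] at h1
        rw [br_false h1] at hr'
        exact absurd hr' (by simp)
    | cons p w =>
      have hr' : br (geF (p :: w) F) none
            (br (someGt (p :: w) F) none (br (irrW mk ok (p :: w) 0 0 []) none (some W1))) =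
        some W' := hr
      have key : ∀ (b : Bool) (x : Option (List Wit)), br b none x = some W' →
          b = true ∧ x = some W' := by
        intro b x hb
        cases b
        · exact absurd hb (by simp [br])
        · exact ⟨rfl, hb⟩
      obtain ⟨h1, hr1⟩ := key _ _ hr'
      obtain ⟨h2, hr2⟩ := key _ _ hr1
      obtain ⟨h3, -⟩ := key _ _ hr2
      exfalso
      obtain ⟨hirr, hgv⟩ := irrF_of_irrW hmk h3
      have hge : ∀ v, f v ≤ gv (p :: w) v := by
        intro v
        by_cases hv : f v = 0
        · omega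
        · obtain ⟨e, he, rfl⟩ := hall v (by omega)
          rw [h.val e he]
          exact geF_iff h1 e he
      have heq := hmax _ hirr hge
      obtain ⟨q, hq, hlt⟩ := someGt_iff h2
      have h5 := hgv q hq
      rw [heq] at h5
      have hq0 : 0 < f q.1 := by omega
      obtain ⟨e, he, hqe⟩ := hall q.1 hq0
      have hfv : fv F q.1 = f q.1 := by
        have hpos : ∀ (F' : List Ent), F' <+: F ∨ True → F'.Pairwise (fun e e' => e.v ≠ e'.v) →
            e ∈ F' → fv F' e.v = e.k := by
          intro F' _
          induction F' with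
          | nil => intro _ h; exact absurd h (by simp)
          | cons a F' ih =>
            intro hp he'
            rw [fv_cons]
            rw [List.pairwise_cons] at hp
            rcases List.mem_cons.1 he' with rfl | h'
            · rw [if_pos rfl]
            · rw [if_neg (hp.1 e h')]
              exact ih (Or.inr trivial) hp.2 h'
        rw [hqe, hpos F (Or.inr trivial) h.cfg.nd he, h.val e he]
      rw [hfv] at hlt
      omega

/-- Search for irredundant broadcasts with all values positive on a list of vertices; `s` is the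
sum of the values minus one. -/
noncomputable def runA (mk : ℕ → ℕ → Ent) (ok : ℕ → ℕ → Bool) (ks : List ℕ) (vs : List ℕ) :
    ℕ → ℕ → List ℕ → ℕ → Bool :=
  List.rec (fun _ _ _ s => Nat.beq s 0)
    (fun v _ ih c t L s =>
      List.rec true (fun k _ ihk =>
        br (br (ok v k) true
          (Ent.rec (fun _ _ X b =>
            force (Nat.lor t (Nat.land c X)) fun t' =>
              br (allOk t' (b :: L)) true
                (force (Nat.lor c X) fun c' =>
                  ih c' t' (b :: L) (Nat.add s (Nat.pred k)))) (mk v k)))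
          false ihk) ks) vs

/-- One step of the search. -/
noncomputable def stepA (mk : ℕ → ℕ → Ent) (ok : ℕ → ℕ → Bool) (ks : List ℕ) (vs : List ℕ)
    (v c t : ℕ) (L : List ℕ) (s k : ℕ) : Bool :=
  br (ok v k) true
    (Ent.rec (fun _ _ X b =>
      force (Nat.lor t (Nat.land c X)) fun t' =>
        br (allOk t' (b :: L)) true
          (force (Nat.lor c X) fun c' =>
            runA mk ok ks vs c' t' (b :: L) (Nat.add s (Nat.pred k)))) (mk v k))

theorem runA_cons {mk : ℕ → ℕ → Ent} {ok : ℕ → ℕ → Bool} {ks : List ℕ} {v : ℕ} {vs : List ℕ}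
    {c t : ℕ} {L : List ℕ} {s : ℕ} (h : runA mk ok ks (v :: vs) c t L s = true) {k : ℕ}
    (hk : k ∈ ks) : stepA mk ok ks vs v c t L s k = true := by
  have h' : ∀ ks' : List ℕ, (List.rec true (fun k _ ihk =>
      br (stepA mk ok ks vs v c t L s k) false ihk) ks' : Bool) = true → k ∈ ks' →
      stepA mk ok ks vs v c t L s k = true := by
    intro ks'
    induction ks' with
    | nil => intro _ h; exact absurd h (by simp)
    | cons a ks' ih =>
      intro h1 h2
      obtain ⟨h3, h4⟩ := br_eq_true h1
      rcases List.mem_cons.1 h2 with rfl | h5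
      · exact h3
      · exact ih h4 h5
  exact h' ks h hk

theorem runA_sound {d : ℕ → ℕ → ℕ} {ec : ℕ → ℕ} {mk : ℕ → ℕ → Ent} {ok : ℕ → ℕ → Bool}
    (hmk : MkOk d ec mk ok) (hok : ∀ v < 19, ∀ k, 0 < k → k ≤ ec v → ok v k = true)
    {ks : List ℕ} (hks : ∀ v k, 0 < k → k ≤ ec v → k ∈ ks) {g : ℕ → ℕ} (hg : IrrF d ec g)
    (vs : List ℕ) :
    ∀ (F : List Ent) (c t : ℕ) (L : List ℕ) (s : ℕ), runA mk ok ks vs c t L s = true →
      Cfg d F c t → (∀ e ∈ F, g e.v = e.k) → (∀ m ∈ L, ∃ x, m.testBit x = true ∧ ¬ TW d g x) →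
      (∀ v ∈ vs, 0 < g v) → vs.Nodup → (∀ v ∈ vs, ∀ e ∈ F, v ≠ e.v) →
      s = 0 ∧ ∀ v ∈ vs, g v = 1 := by
  induction vs with
  | nil =>
    intro F c t L s h _ _ _ _ _ _
    refine ⟨Nat.eq_of_beq_eq_true h, by simp⟩
  | cons v vs ih =>
    intro F c t L s h hcfg hF hL hpos hnd hne
    have hv0 := hpos v List.mem_cons_self
    have hv19 : v < 19 := by
      by_contra hc
      have := hg.supp v (by omega)
      omega
    have hokv := hok v hv19 (g v) hv0 (hg.ecc v)
    have hstep := runA_cons h (hks v (g v) hv0 (hg.ecc v))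
    unfold stepA at hstep
    rw [br_true hokv] at hstep
    have hval := hmk.valid _ _ hokv
    have hve := hmk.v_eq v (g v)
    have hke := hmk.k_eq v (g v)
    have hcfg' := cfg_cons hcfg hval (by
      intro e' he'
      rw [hve]
      exact hne v List.mem_cons_self e' he')
    have hF' : ∀ e ∈ mk v (g v) :: F, g e.v = e.k := by
      intro e he
      rcases List.mem_cons.1 he with rfl | h'
      · rw [hve, hke]
      · exact hF e h'
    have hL' : ∀ m ∈ (mk v (g v)).b :: L, ∃ x, m.testBit x = true ∧ ¬ TW d g x := by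
      intro m hm
      rcases List.mem_cons.1 hm with rfl | h'
      · obtain ⟨x, h1, h2⟩ := hg.irr v hv0
        refine ⟨x, ?_, h2⟩
        rw [hval.b_iff, hve, hke]
        exact h1
      · exact hL m h'
    have hallok : allOk (Nat.lor t (Nat.land c (mk v (g v)).X)) ((mk v (g v)).b :: L) = true := by
      rw [allOk_iff]
      intro m hm
      obtain ⟨x, h1, h2⟩ := hL' m hm
      refine ⟨x, h1, ?_⟩
      by_contra hc
      rw [Bool.not_eq_false] at hc
      exact h2 (tw_of_testBit hcfg' hF' hc)
    have hnext : runA mk ok ks vs (Nat.lor c (mk v (g v)).X)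
        (Nat.lor t (Nat.land c (mk v (g v)).X)) ((mk v (g v)).b :: L)
        (Nat.add s (Nat.pred (g v))) = true := by
      revert hstep hallok
      generalize mk v (g v) = e
      cases e with
      | mk ev ek X b =>
        intro hstep hallok
        simp only [force_eq] at hstep
        rw [br_true hallok] at hstep
        exact hstep
    rw [List.nodup_cons] at hnd
    obtain ⟨hs, h1⟩ := ih _ _ _ _ _ hnext hcfg' hF' hL'
      (fun u hu => hpos u (List.mem_cons_of_mem _ hu)) hnd.2
      (by
        intro u hu e he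
        rcases List.mem_cons.1 he with rfl | h'
        · rw [hve]
          rintro rfl
          exact hnd.1 hu
        · exact hne u (List.mem_cons_of_mem _ hu) e h')
    have hs' : s + (g v - 1) = 0 := hs
    refine ⟨by omega, ?_⟩
    intro u hu
    rcases List.mem_cons.1 hu with rfl | h'
    · omega
    · exact h1 u h'

end Pool.Agent.LibBcast
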