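import Pool.Agent.LibBcast.Sound

/-!
Soundness of the whole search.
-/

namespace Pool.Agent.LibBcast

theorem br_true {α : Type} {b : Bool} (h : b = true) (x y : α) : br b x y = y := by
  subst h; rfl

theorem br_false {α : Type} {b : Bool} (h : b = false) (x y : α) : br b x y = x := by
  subst h; rfl

theorem beq_true_iff (a b : ℕ) : Nat.beq a b = true ↔ a = b :=
  ⟨Nat.eq_of_beq_eq_true, fun h => by rw [h]; exact Nat.beq_refl b⟩

theorem beq_false_iff (a b : ℕ) : Nat.beq a b = false ↔ a ≠ b := by
  rw [← Bool.not_eq_true, beq_true_iff]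

theorem obind_some {o : Option (List Wit)} {f : List Wit → Option (List Wit)} {W' : List Wit}
    (h : obind o f = some W') : ∃ W1, o = some W1 ∧ f W1 = some W' := by
  cases o with
  | none => exact absurd h (by simp [obind])
  | some W1 => exact ⟨W1, rfl, h⟩

theorem tryE_eq {child : Kont} {F : List Ent} {L : List ℕ} {E c t M R N : ℕ} {e : Ent}
    {W : List Wit} (h1 : Nat.land e.X M = 0) (h2 : Nat.lor t (Nat.land c e.X) ≤ 524287)
    (h3 : allOk (Nat.lor t (Nat.land c e.X)) (Nat.land e.b N :: L) = true)
    (h4 : R - e.k = 0 →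
      Nat.land (Nat.lor E (Nat.xor e.b (Nat.land e.b N))) (Nat.lor t (Nat.land c e.X)) =
        Nat.lor E (Nat.xor e.b (Nat.land e.b N))) :
    tryE child F L E c t M R N e W =
      child (e :: F) (Nat.land e.b N :: L) (Nat.lor E (Nat.xor e.b (Nat.land e.b N)))
        (Nat.lor c e.X) (Nat.lor t (Nat.land c e.X)) M (R - e.k) W := by
  cases e with
  | mk v k X b =>
    simp only [tryE, force_eq] at *
    rw [br_true ((beq_true_iff _ _).2 h1), br_true (Nat.ble_eq_true_of_le h2), br_true h3]
    by_cases h : R - k = 0
    · have h' : Nat.sub R k = 0 := h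
      rw [br_true ((beq_true_iff _ _).2 h'), br_true ((beq_true_iff _ _).2 (h4 h))]
      rfl
    · have h' : Nat.sub R k ≠ 0 := h
      rw [br_false ((beq_false_iff _ _).2 h')]
      rfl

theorem loopE_cons (child : Kont) (F : List Ent) (L : List ℕ) (E c t M R N : ℕ) (a : Ent)
    (A : List Ent) (W : List Wit) :
    loopE child F L E c t M R N (a :: A) W =
      br (Nat.ble a.k R) (some W)
        (obind (tryE child F L E c t M R N a W) (loopE child F L E c t M R N A)) := rfl

theorem loopE_some {child : Kont} {F : List Ent} {L : List ℕ} {E c t M R N : ℕ} {A : List Ent}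
    (hs : A.Pairwise (fun a b => a.k ≤ b.k)) {e : Ent} (he : e ∈ A) (hk : e.k ≤ R) :
    ∀ {W W' : List Wit}, loopE child F L E c t M R N A W = some W' →
      ∃ W1 W2, tryE child F L E c t M R N e W1 = some W2 := by
  induction A with
  | nil => exact absurd he (by simp)
  | cons a A ih =>
    intro W W' h
    rw [loopE_cons] at h
    have hak : a.k ≤ R := by
      rcases List.mem_cons.1 he with rfl | h'
      · exact hk
      · exact le_trans ((List.pairwise_cons.1 hs).1 e h') hk
    rw [br_true (Nat.ble_eq_true_of_le hak)] at h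
    obtain ⟨W1, h1, h2⟩ := obind_some h
    rcases List.mem_cons.1 he with rfl | h'
    · exact ⟨W, W1, h1⟩
    · exact ih (List.pairwise_cons.1 hs).2 h' h2

/-- the body of the loop over present killers -/
noncomputable def tryF (child : Kont) (F : List Ent) (L : List Nat) (E c t M R N : Nat) (e : Ent)
    (W : List Wit) : Option (List Wit) :=
  force (Nat.land e.b N) fun m =>
    br (Nat.beq (Nat.land m t) m)
      (force (Nat.lor E (Nat.xor e.b m)) fun E' =>
        br (Nat.beq R 0)
          (child F (m :: L) E' c t M R W)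
          (br (Nat.beq (Nat.land E' t) E') (some W) (child F (m :: L) E' c t M R W)))
      (some W)

theorem loopF_cons (child : Kont) (F : List Ent) (L : List ℕ) (E c t M R N : ℕ) (a : Ent)
    (A : List Ent) (W : List Wit) :
    loopF child F L E c t M R N (a :: A) W =
      obind (tryF child F L E c t M R N a W) (loopF child F L E c t M R N A) := rfl

theorem loopF_some {child : Kont} {F : List Ent} {L : List ℕ} {E c t M R N : ℕ} {A : List Ent}
    {e : Ent} (he : e ∈ A) :
    ∀ {W W' : List Wit}, loopF child F L E c t M R N A W = some W' →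
      ∃ W1 W2, tryF child F L E c t M R N e W1 = some W2 := by
  induction A with
  | nil => exact absurd he (by simp)
  | cons a A ih =>
    intro W W' h
    rw [loopF_cons] at h
    obtain ⟨W1, h1, h2⟩ := obind_some h
    rcases List.mem_cons.1 he with rfl | h'
    · exact ⟨W, W1, h1⟩
    · exact ih h' h2

theorem tryF_eq {child : Kont} {F : List Ent} {L : List ℕ} {E c t M R N : ℕ} {e : Ent}
    {W : List Wit} (h1 : Nat.land (Nat.land e.b N) t ≠ Nat.land e.b N)
    (h4 : R = 0 →
      Nat.land (Nat.lor E (Nat.xor e.b (Nat.land e.b N))) t =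
        Nat.lor E (Nat.xor e.b (Nat.land e.b N))) :
    tryF child F L E c t M R N e W =
      child F (Nat.land e.b N :: L) (Nat.lor E (Nat.xor e.b (Nat.land e.b N))) c t M R W := by
  simp only [tryF, force_eq]
  rw [br_false ((beq_false_iff _ _).2 h1)]
  by_cases h : R = 0
  · rw [br_true ((beq_true_iff _ _).2 h), br_true ((beq_true_iff _ _).2 (h4 h))]
  · rw [br_false ((beq_false_iff _ _).2 h)]

/-- The conditions on `f` used by the search. -/
structure Good (d : ℕ → ℕ → ℕ) (ec : ℕ → ℕ) (f : ℕ → ℕ) : Prop where
  supp : ∀ v, 19 ≤ v → f v = 0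
  ecc : ∀ v, f v ≤ ec v
  irr : ∀ v, 0 < f v → ∃ x, InB d v (f v) x ∧ ¬ TW d f x
  kill : ∀ u < 19, (∀ v, 0 < f v → ¬ d v u ≤ f v) →
    ∃ w, 0 < f w ∧ ∀ x, InB d w (f w) x → ¬ TW d f x → d u x ≤ 1
  cost : ∑ v ∈ Finset.range 19, f v ≤ 6

/-- Validity of a record. -/
structure RecOk (d : ℕ → ℕ → ℕ) (ec : ℕ → ℕ) (r : Rec) : Prop where
  lt : r.u < 19
  U_iff : ∀ x, r.U.testBit x = true ↔ x = r.u
  N_iff : ∀ x < 19, r.N.testBit x = true ↔ d r.u x ≤ 1
  A_sorted : r.A.Pairwise (fun a b => a.k ≤ b.k)
  K_sorted : r.K.Pairwise (fun a b => a.k ≤ b.k)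
  A_valid : ∀ e ∈ r.A, Valid d e
  K_valid : ∀ e ∈ r.K, Valid d e
  A_all : ∀ v < 19, ∀ k, 0 < k → k ≤ 6 → k ≤ ec v → d v r.u ≤ k → ∃ e ∈ r.A, e.v = v ∧ e.k = k
  K_all : ∀ v < 19, ∀ k, 0 < k → k ≤ 6 → k ≤ ec v → d v r.u = k + 1 → ∃ e ∈ r.K, e.v = v ∧ e.k = k

theorem tb_or (a b x : ℕ) : (Nat.lor a b).testBit x = (a.testBit x || b.testBit x) :=
  Nat.testBit_or a b x

theorem tb_and (a b x : ℕ) : (Nat.land a b).testBit x = (a.testBit x && b.testBit x) :=
  Nat.testBit_and a b x

theorem tb_xor (a b x : ℕ) : (Nat.xor a b).testBit x = (a.testBit x ^^ b.testBit x) :=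
  Nat.testBit_xor a b x

theorem le_cost {d : ℕ → ℕ → ℕ} {ec f : ℕ → ℕ} (h : Good d ec f) (v : ℕ) : f v ≤ 6 := by
  by_cases hv : v < 19
  · exact le_trans (Finset.single_le_sum (f := f) (fun _ _ => Nat.zero_le _)
      (Finset.mem_range.2 hv)) h.cost
  · rw [h.supp v (by omega)]; omega

/-- The step of adding an entry. -/
theorem tryE_sound {d : ℕ → ℕ → ℕ} {ec f : ℕ → ℕ} (hg : Good d ec f) {child : Kont}
    {F : List Ent} {L : List ℕ} {E c t M R N : ℕ} (h : Inv d f F L E c t M R) {e : Ent}
    (he : Valid d e) (hf : f e.v = e.k) (hn : ∀ e' ∈ F, e.v ≠ e'.v)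
    (ha : ∃ x, (Nat.land e.b N).testBit x = true ∧ ¬ TW d f x)
    (hb : ∀ x, (Nat.xor e.b (Nat.land e.b N)).testBit x = true → x < 19 ∧ TW d f x)
    {W1 W2 : List Wit} (hr : tryE child F L E c t M R N e W1 = some W2) :
    ∃ L' E', child (e :: F) L' E' (Nat.lor c e.X) (Nat.lor t (Nat.land c e.X)) M (R - e.k) W1 =
      some W2 ∧
      Inv d f (e :: F) L' E' (Nat.lor c e.X) (Nat.lor t (Nat.land c e.X)) M (R - e.k) := by
  have hinv1 := inv_add h he hf hn
  have hinv2 := inv_kill hinv1 ha hb
  refine ⟨_, _, ?_, hinv2⟩
  rw [← hr]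
  symm
  apply tryE_eq
  · apply Nat.eq_of_testBit_eq
    intro x
    rw [tb_and, Nat.zero_testBit]
    by_contra hc
    rw [Bool.not_eq_false, Bool.and_eq_true] at hc
    obtain ⟨hx, hM⟩ := h.hM x hc.2
    have := (he.X_low x hx).1 hc.1
    refine hM e.v ?_ ?_
    · rw [hf]; exact he.pos
    · rw [hf]; exact this
  · apply le_of_testBit
    intro x hx
    exact ((hinv1.cfg.t_iff x).1 hx).1
  · rw [allOk_iff]
    intro m hm
    obtain ⟨x, h1, h2⟩ := hinv2.hL m hm
    refine ⟨x, h1, ?_⟩
    by_contra hc
    rw [Bool.not_eq_false] at hc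
    exact h2 (tw_of_testBit hinv2.cfg hinv2.val hc)
  · intro hR
    rw [land_eq_iff]
    intro x hx
    have htw := hinv2.hE x hx
    have hall := all_of_R0 hinv2 hg.supp hR
    exact testBit_of_tw hinv2.cfg hinv2.val hall htw.1 htw.2

/-- The step of using a present entry as a killer. -/
theorem tryF_sound {d : ℕ → ℕ → ℕ} {ec f : ℕ → ℕ} (hg : Good d ec f) {child : Kont}
    {F : List Ent} {L : List ℕ} {E c t M R N : ℕ} (h : Inv d f F L E c t M R) {e : Ent}
    (ha : ∃ x, (Nat.land e.b N).testBit x = true ∧ ¬ TW d f x)
    (hb : ∀ x, (Nat.xor e.b (Nat.land e.b N)).testBit x = true → x < 19 ∧ TW d f x)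
    {W1 W2 : List Wit} (hr : tryF child F L E c t M R N e W1 = some W2) :
    ∃ L' E', child F L' E' c t M R W1 = some W2 ∧ Inv d f F L' E' c t M R := by
  have hinv2 := inv_kill h ha hb
  refine ⟨_, _, ?_, hinv2⟩
  rw [← hr]
  symm
  apply tryF_eq
  · intro hc
    rw [land_eq_iff] at hc
    obtain ⟨x, h1, h2⟩ := ha
    exact h2 (tw_of_testBit h.cfg h.val (hc x h1))
  · intro hR
    rw [land_eq_iff]
    intro x hx
    have htw := hinv2.hE x hx
    have hall := all_of_R0 hinv2 hg.supp hR
    exact testBit_of_tw hinv2.cfg hinv2.val hall htw.1 htw.2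

theorem run_cons (leaf : Kont) (r : Rec) (rs : List Rec) (F : List Ent) (L : List ℕ)
    (E c t M R : ℕ) (W : List Wit) :
    run leaf (r :: rs) F L E c t M R W =
      br (Nat.beq (Nat.land (Nat.lor c M) r.U) 0)
        (run leaf rs F L E c t M R W)
        (obind (loopE (run leaf rs) F L E c t M R 524287 r.A W) fun W1 =>
          force (Nat.lor M r.U) fun M' =>
            obind (loopF (run leaf rs) F L E c t M' R r.N F W1) fun W2 =>
              loopE (run leaf rs) F L E c t M' R r.N r.K W2) := rfl

theorem run_sound {d : ℕ → ℕ → ℕ} {ec f : ℕ → ℕ} (hg : Good d ec f)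
    (hsymm : ∀ v < 19, ∀ x < 19, d v x = d x v)
    (htri : ∀ v < 19, ∀ x < 19, ∀ w < 19, d v w ≤ d v x + d x w)
    {Concl : Prop} {leaf : Kont} :
    ∀ rs : List Rec, (∀ r ∈ rs, RecOk d ec r) →
    (∀ F L E c t M R W W', leaf F L E c t M R W = some W' → Inv d f F L E c t M R →
      (∀ x < 19, c.testBit x = true ∨ M.testBit x = true) → Concl) →
    ∀ F L E c t M R W W', run leaf rs F L E c t M R W = some W' → Inv d f F L E c t M R →
      (∀ x < 19, (∀ r ∈ rs, r.u ≠ x) → c.testBit x = true ∨ M.testBit x = true) → Concl := by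
  intro rs
  induction rs with
  | nil =>
    intro _ hleaf F L E c t M R W W' hr hinv hdone
    exact hleaf F L E c t M R W W' hr hinv (fun x hx => hdone x hx (by simp))
  | cons r rs ih =>
    intro hrs hleaf F L E c t M R W W' hr hinv hdone
    have hrec := hrs r List.mem_cons_self
    have ih' := ih (fun r' h' => hrs r' (List.mem_cons_of_mem _ h')) hleaf
    rw [run_cons] at hr
    by_cases hcov : Nat.land (Nat.lor c M) r.U = 0
    swap
    · rw [br_false ((beq_false_iff _ _).2 hcov)] at hr
      refine ih' F L E c t M R W W' hr hinv ?_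
      intro x hx hne
      by_cases hxu : r.u = x
      · by_contra hc
        push Not at hc
        apply hcov
        apply Nat.eq_of_testBit_eq
        intro y
        rw [tb_and, tb_or, Nat.zero_testBit]
        by_contra hy
        rw [Bool.not_eq_false, Bool.and_eq_true, Bool.or_eq_true] at hy
        have hyu := (hrec.U_iff y).1 hy.2
        rw [hyu, hxu] at hy
        rcases hy.1 with h1 | h1
        · exact hc.1 h1
        · exact hc.2 h1
      · refine hdone x hx ?_
        intro r' hr'
        rcases List.mem_cons.1 hr' with rfl | h'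
        · exact hxu
        · exact hne r' h'
    · rw [br_true ((beq_true_iff _ _).2 hcov)] at hr
      obtain ⟨W1, hA, hr1⟩ := obind_some hr
      rw [force_eq] at hr1
      obtain ⟨W2, hF, hK⟩ := obind_some hr1
      have hcu : ¬ c.testBit r.u = true := by
        intro hc
        have : (Nat.land (Nat.lor c M) r.U).testBit r.u = true := by
          rw [tb_and, tb_or, Bool.and_eq_true, Bool.or_eq_true]
          exact ⟨Or.inl hc, (hrec.U_iff _).2 rfl⟩
        rw [hcov, Nat.zero_testBit] at this
        exact absurd this (by simp)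
      by_cases hdom : ∃ v, 0 < f v ∧ d v r.u ≤ f v
      · obtain ⟨v, hv0, hvu⟩ := hdom
        have hv19 : v < 19 := by
          by_contra hc
          have := hg.supp v (by omega)
          omega
        have hnF : ∀ e ∈ F, v ≠ e.v := by
          intro e he hve
          apply hcu
          rw [hinv.cfg.c_low _ hrec.lt]
          refine ⟨e, he, ?_⟩
          rw [← hve, ← hinv.val e he, ← hve]
          exact hvu
        obtain ⟨e, heA, hev, hek⟩ := hrec.A_all v hv19 (f v) hv0 (le_cost hg v) (hg.ecc v) hvu
        have heR : e.k ≤ R := by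
          rw [hek]; exact le_R hinv hv19 hnF
        obtain ⟨X1, X2, hX⟩ := loopE_some hrec.A_sorted heA heR hA
        have hval := hrec.A_valid e heA
        have hfe : f e.v = e.k := by rw [hev, hek]
        have hne : ∀ e' ∈ F, e.v ≠ e'.v := by
          intro e' he'; rw [hev]; exact hnF e' he'
        have hbits : ∀ x, (Nat.land e.b 524287).testBit x = e.b.testBit x := by
          intro x
          rw [tb_and]
          by_cases hx : e.b.testBit x = true
          · have hx19 := ((hval.b_iff x).1 hx).1
            rw [hx]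
            have : (524287 : ℕ) = 2 ^ 19 - 1 := by norm_num
            rw [this, Nat.testBit_two_pow_sub_one]
            simp [hx19]
          · rw [Bool.not_eq_true] at hx
            rw [hx]; rfl
        obtain ⟨L', E', hch, hinv'⟩ := tryE_sound (N := 524287) hg hinv hval hfe hne
          (by
            obtain ⟨x, h1, h2⟩ := hg.irr e.v (by rw [hfe]; exact hval.pos)
            refine ⟨x, ?_, h2⟩
            rw [hbits, hval.b_iff x, ← hfe]
            exact h1)
          (by
            intro x hx
            rw [tb_xor, hbits] at hx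
            simp at hx) hX
        refine ih' _ _ _ _ _ _ _ _ _ hch hinv' ?_
        intro x hx hne'
        by_cases hxu : r.u = x
        · left
          rw [tb_or, Bool.or_eq_true]
          right
          rw [hval.X_low x hx, hev, hek, ← hxu]
          exact hvu
        · rcases hdone x hx (by
            intro r' hr'
            rcases List.mem_cons.1 hr' with rfl | h'
            · exact hxu
            · exact hne' r' h') with h1 | h1
          · left
            rw [tb_or, h1]; rfl
          · right; exact h1
      · push Not at hdom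
        have hund : ∀ v, 0 < f v → ¬ d v r.u ≤ f v := by
          intro v hv hle
          have := hdom v hv
          omega
        obtain ⟨w, hw0, hw⟩ := hg.kill r.u hrec.lt hund
        have hinvM : Inv d f F L E c t (Nat.lor M r.U) R := inv_mark hinv hrec.lt hrec.U_iff hund
        have hw19 : w < 19 := by
          by_contra hc
          have := hg.supp w (by omega)
          omega
        have hdone' : ∀ x < 19, (∀ r' ∈ rs, r'.u ≠ x) →
            c.testBit x = true ∨ (Nat.lor M r.U).testBit x = true := by
          intro x hx hne'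
          by_cases hxu : r.u = x
          · right
            rw [tb_or, Bool.or_eq_true]
            right
            exact (hrec.U_iff x).2 hxu.symm
          · rcases hdone x hx (by
              intro r' hr'
              rcases List.mem_cons.1 hr' with rfl | h'
              · exact hxu
              · exact hne' r' h') with h1 | h1
            · left; exact h1
            · right
              rw [tb_or, h1]; rfl
        -- conditions on the masks for an entry at w
        have hmasks : ∀ e : Ent, Valid d e → e.v = w → e.k = f w →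
            (∃ x, (Nat.land e.b r.N).testBit x = true ∧ ¬ TW d f x) ∧
            (∀ x, (Nat.xor e.b (Nat.land e.b r.N)).testBit x = true → x < 19 ∧ TW d f x) := by
          intro e hval hev hek
          constructor
          · obtain ⟨x, h1, h2⟩ := hg.irr w hw0
            refine ⟨x, ?_, h2⟩
            rw [tb_and, Bool.and_eq_true, hval.b_iff x, hev, hek]
            refine ⟨h1, ?_⟩
            rw [hrec.N_iff x h1.1]
            exact hw x h1 h2
          · intro x hx
            rw [tb_xor, tb_and] at hx
            have hb : e.b.testBit x = true := by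
              by_contra hc
              rw [Bool.not_eq_true] at hc
              rw [hc] at hx
              simp at hx
            have hN : ¬ r.N.testBit x = true := by
              intro hc
              rw [hb, hc] at hx
              simp at hx
            have hin := (hval.b_iff x).1 hb
            refine ⟨hin.1, ?_⟩
            by_contra htw
            apply hN
            rw [hrec.N_iff x hin.1]
            rw [hev, hek] at hin
            exact hw x hin htw
        by_cases hwF : ∃ e ∈ F, w = e.v
        · obtain ⟨e, he, hwe⟩ := hwF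
          obtain ⟨X1, X2, hX⟩ := loopF_some he hF
          have hval := hinv.cfg.valid e he
          have hek : e.k = f w := by rw [hwe]; exact (hinv.val e he).symm
          obtain ⟨h1, h2⟩ := hmasks e hval hwe.symm hek
          obtain ⟨L', E', hch, hinv'⟩ := tryF_sound (N := r.N) hg hinvM h1 h2 hX
          exact ih' _ _ _ _ _ _ _ _ _ hch hinv' hdone'
        · push Not at hwF
          have hdw : d w r.u = f w + 1 := by
            obtain ⟨x, h1, h2⟩ := hg.irr w hw0
            have h3 := hw x h1 h2
            have h4 := htri w hw19 x h1.1 r.u hrec.lt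
            have h5 := hsymm r.u hrec.lt x h1.1
            have h6 := h1.2.1
            have h7 := hund w hw0
            omega
          obtain ⟨e, heK, hev, hek⟩ := hrec.K_all w hw19 (f w) hw0 (le_cost hg w) (hg.ecc w) hdw
          have heR : e.k ≤ R := by
            rw [hek]; exact le_R hinv hw19 hwF
          obtain ⟨X1, X2, hX⟩ := loopE_some hrec.K_sorted heK heR hK
          have hval := hrec.K_valid e heK
          obtain ⟨h1, h2⟩ := hmasks e hval hev hek
          obtain ⟨L', E', hch, hinv'⟩ := tryE_sound (N := r.N) hg hinvM hval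
            (by rw [hev, hek]) (by intro e' he'; rw [hev]; exact hwF e' he') h1
            (fun x hx => h2 x hx) hX
          refine ih' _ _ _ _ _ _ _ _ _ hch hinv' ?_
          intro x hx hne'
          rcases hdone' x hx hne' with h3 | h3
          · left
            rw [tb_or, h3]; rfl
          · right; exact h3

end Pool.Agent.LibBcast
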