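import Mathlib

/-!
A search procedure written with explicit recursors, so that the kernel can run it quickly.
-/

namespace Pool.Agent.LibBcast

/-- A candidate: vertex, value, ball mask (with a marker of the vertex shifted by 19), boundary
mask. -/
structure Ent where
  v : Nat
  k : Nat
  X : Nat
  b : Nat

/-- A vertex record: vertex, its bit, its closed neighbourhood, the candidates dominating it and
the candidates at distance exactly one more than their value. -/
structure Rec where
  u : Nat
  U : Nat
  N : Nat
  A : List Ent
  K : List Ent

abbrev Wit := List (Nat × Nat)

/-- Evaluate the number before going on. -/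
noncomputable def force {α : Type} (n : Nat) (k : Nat → α) : α :=
  Nat.rec (k 0) (fun m _ => k (Nat.succ m)) n

theorem force_eq {α : Type} (n : Nat) (k : Nat → α) : force n k = k n := by
  cases n <;> rfl

/-- if-then-else by the recursor (first the value for false). -/
noncomputable abbrev br {α : Type} (b : Bool) (x y : α) : α := Bool.rec x y b

/-- no mask of the list lies inside `t` -/
noncomputable def allOk (t : Nat) (L : List Nat) : Bool :=
  List.rec true (fun m _ ih => br (Nat.beq (Nat.land m t) m) ih false) L

/-- type of a search on the remaining vertices -/
abbrev Kont := List Ent → List Nat → Nat → Nat → Nat → Nat → Nat → List Wit → Option (List Wit)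

/-- try to add one entry -/
noncomputable def tryE (child : Kont) (F : List Ent) (L : List Nat) (E c t M R N : Nat) (e : Ent)
    (W : List Wit) : Option (List Wit) :=
  Ent.rec (fun _ k X b =>
    br (Nat.beq (Nat.land X M) 0) (some W)
     (force (Nat.lor t (Nat.land c X)) fun t' =>
      br (Nat.ble t' 524287) (some W)
       (force (Nat.land b N) fun m =>
        br (allOk t' (m :: L)) (some W)
         (force (Nat.lor E (Nat.xor b m)) fun E' =>
          force (Nat.sub R k) fun R' =>
           br (Nat.beq R' 0)
             (force (Nat.lor c X) fun c' => child (e :: F) (m :: L) E' c' t' M R' W)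
             (br (Nat.beq (Nat.land E' t') E') (some W)
               (force (Nat.lor c X) fun c' => child (e :: F) (m :: L) E' c' t' M R' W)))))) e

/-- bind by recursor -/
noncomputable abbrev obind (o : Option (List Wit)) (f : List Wit → Option (List Wit)) :
    Option (List Wit) := Option.rec none f o

/-- loop over candidate entries sorted by value -/
noncomputable def loopE (child : Kont) (F : List Ent) (L : List Nat) (E c t M R N : Nat)
    (A : List Ent) : List Wit → Option (List Wit) :=
  List.rec (fun W => some W)
    (fun e _ ih W => br (Nat.ble e.k R) (some W) (obind (tryE child F L E c t M R N e W) ih)) A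

/-- loop over the entries present, as killers -/
noncomputable def loopF (child : Kont) (F : List Ent) (L : List Nat) (E c t M R N : Nat)
    (A : List Ent) : List Wit → Option (List Wit) :=
  List.rec (fun W => some W)
    (fun e _ ih W =>
      obind
        (force (Nat.land e.b N) fun m =>
          br (Nat.beq (Nat.land m t) m)
            (force (Nat.lor E (Nat.xor e.b m)) fun E' =>
              br (Nat.beq R 0)
                (child F (m :: L) E' c t M R W)
                (br (Nat.beq (Nat.land E' t) E') (some W) (child F (m :: L) E' c t M R W)))
            (some W)) ih) A

noncomputable def run (leaf : Kont) (rs : List Rec) : Kont :=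
  List.rec leaf
    (fun r _ ih F L E c t M R W =>
      br (Nat.beq (Nat.land (Nat.lor c M) r.U) 0)
        (ih F L E c t M R W)
        (obind (loopE ih F L E c t M R 524287 r.A W) fun W1 =>
          force (Nat.lor M r.U) fun M' =>
            obind (loopF ih F L E c t M' R r.N F W1) fun W2 =>
              loopE ih F L E c t M' R r.N r.K W2)) rs

/-- ball table -/
def Bt (BT : Nat) (v k : Nat) : Nat :=
  Nat.land (Nat.shiftRight BT (Nat.mul 19 (Nat.add (Nat.mul 16 v) k))) 524287

end Pool.Agent.LibBcast
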