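import Pool.Agent.LibBcast.Search

/-!
Soundness of the search: bit masks against broadcasts on `19` vertices, with an abstract
distance function.
-/

namespace Pool.Agent.LibBcast

/-- `x` lies in the ball of radius `k` around `v`, outside the ball of radius `k - 1` unless
`k = 1`. -/
def InB (d : ℕ → ℕ → ℕ) (v k x : ℕ) : Prop := x < 19 ∧ d v x ≤ k ∧ (k = 1 ∨ k - 1 < d v x)

/-- `x` is covered by two different vertices -/
def TW (d : ℕ → ℕ → ℕ) (f : ℕ → ℕ) (x : ℕ) : Prop :=
  ∃ v w, v ≠ w ∧ 0 < f v ∧ 0 < f w ∧ d v x ≤ f v ∧ d w x ≤ f w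

/-- The masks of an entry are right. -/
structure Valid (d : ℕ → ℕ → ℕ) (e : Ent) : Prop where
  lt : e.v < 19
  pos : 0 < e.k
  X_low : ∀ x < 19, e.X.testBit x = true ↔ d e.v x ≤ e.k
  X_high : ∀ v, e.X.testBit (19 + v) = true ↔ v = e.v
  b_iff : ∀ x, e.b.testBit x = true ↔ InB d e.v e.k x

/-- The masks `c` and `t` describe the list of entries exactly. -/
structure Cfg (d : ℕ → ℕ → ℕ) (F : List Ent) (c t : ℕ) : Prop where
  valid : ∀ e ∈ F, Valid d e
  nd : F.Pairwise (fun e e' => e.v ≠ e'.v)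
  c_low : ∀ x < 19, c.testBit x = true ↔ ∃ e ∈ F, d e.v x ≤ e.k
  c_high : ∀ v, c.testBit (19 + v) = true ↔ ∃ e ∈ F, v = e.v
  t_iff : ∀ x, t.testBit x = true ↔
    x < 19 ∧ ∃ e ∈ F, ∃ e' ∈ F, e.v ≠ e'.v ∧ d e.v x ≤ e.k ∧ d e'.v x ≤ e'.k

theorem cfg_nil (d : ℕ → ℕ → ℕ) : Cfg d [] 0 0 := by
  constructor <;> simp

theorem le_of_testBit {t : ℕ} (h : ∀ x, t.testBit x = true → x < 19) : t ≤ 524287 := by
  have : t < 2 ^ 19 := by
    apply Nat.lt_pow_two_of_testBit
    intro i hi
    by_contra hc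
    have := h i (by simpa using hc)
    omega
  omega

theorem not_testBit_of_le {t : ℕ} (h : t ≤ 524287) {x : ℕ} (hx : 19 ≤ x) :
    t.testBit x = false := by
  apply Nat.testBit_eq_false_of_lt
  calc t < 2 ^ 19 := by omega
    _ ≤ 2 ^ x := Nat.pow_le_pow_right (by norm_num) hx

theorem cfg_cons {d : ℕ → ℕ → ℕ} {F : List Ent} {c t : ℕ} (h : Cfg d F c t) {e : Ent}
    (he : Valid d e) (hn : ∀ e' ∈ F, e.v ≠ e'.v) :
    Cfg d (e :: F) (Nat.lor c e.X) (Nat.lor t (Nat.land c e.X)) := by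
  have tb_or : ∀ a b x : ℕ, (Nat.lor a b).testBit x = (a.testBit x || b.testBit x) :=
    fun a b x => Nat.testBit_or a b x
  have tb_and : ∀ a b x : ℕ, (Nat.land a b).testBit x = (a.testBit x && b.testBit x) :=
    fun a b x => Nat.testBit_and a b x
  constructor
  · intro e' he'
    rcases List.mem_cons.1 he' with rfl | h'
    · exact he
    · exact h.valid _ h'
  · exact List.pairwise_cons.2 ⟨fun e' he' => hn e' he', h.nd⟩
  · intro x hx
    rw [tb_or, Bool.or_eq_true, h.c_low x hx, he.X_low x hx]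
    constructor
    · rintro (⟨e', h1, h2⟩ | h1)
      · exact ⟨e', List.mem_cons_of_mem _ h1, h2⟩
      · exact ⟨e, List.mem_cons_self, h1⟩
    · rintro ⟨e', h1, h2⟩
      rcases List.mem_cons.1 h1 with rfl | h'
      · exact Or.inr h2
      · exact Or.inl ⟨e', h', h2⟩
  · intro v
    rw [tb_or, Bool.or_eq_true, h.c_high v, he.X_high v]
    constructor
    · rintro (⟨e', h1, h2⟩ | h1)
      · exact ⟨e', List.mem_cons_of_mem _ h1, h2⟩
      · exact ⟨e, List.mem_cons_self, h1⟩
    · rintro ⟨e', h1, h2⟩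
      rcases List.mem_cons.1 h1 with rfl | h'
      · exact Or.inr h2
      · exact Or.inl ⟨e', h', h2⟩
  · intro x
    rw [tb_or, tb_and, Bool.or_eq_true, Bool.and_eq_true, h.t_iff x]
    constructor
    · rintro (⟨hx, e1, h1, e2, h2, h3⟩ | ⟨h1, h2⟩)
      · exact ⟨hx, e1, List.mem_cons_of_mem _ h1, e2, List.mem_cons_of_mem _ h2, h3⟩
      · by_cases hx : x < 19
        · rw [h.c_low x hx] at h1
          rw [he.X_low x hx] at h2
          obtain ⟨e', h1, h3⟩ := h1
          exact ⟨hx, e, List.mem_cons_self, e', List.mem_cons_of_mem _ h1, hn e' h1, h2, h3⟩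
        · obtain ⟨v, rfl⟩ : ∃ v, x = 19 + v := ⟨x - 19, by omega⟩
          rw [h.c_high v] at h1
          rw [he.X_high v] at h2
          obtain ⟨e', h1, h3⟩ := h1
          exact absurd (h2.symm.trans h3) (hn e' h1)
    · rintro ⟨hx, e1, h1, e2, h2, h3, h4, h5⟩
      rcases List.mem_cons.1 h1 with rfl | h1'
      · rcases List.mem_cons.1 h2 with rfl | h2'
        · exact absurd rfl h3
        · exact Or.inr ⟨(h.c_low x hx).2 ⟨e2, h2', h5⟩, (he.X_low x hx).2 h4⟩
      · rcases List.mem_cons.1 h2 with rfl | h2'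
        · exact Or.inr ⟨(h.c_low x hx).2 ⟨e1, h1', h4⟩, (he.X_low x hx).2 h5⟩
        · exact Or.inl ⟨hx, e1, h1', e2, h2', h3, h4, h5⟩

/-- If the twice-covered mask has no high bit then the new vertex was unused. -/
theorem unused_of_le {d : ℕ → ℕ → ℕ} {F : List Ent} {c t : ℕ} (h : Cfg d F c t) {e : Ent}
    (he : Valid d e) (hle : Nat.lor t (Nat.land c e.X) ≤ 524287) : ∀ e' ∈ F, e.v ≠ e'.v := by
  intro e' he' hv
  have h1 := not_testBit_of_le hle (show 19 ≤ 19 + e.v by omega)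
  have h2 : (Nat.lor t (Nat.land c e.X)).testBit (19 + e.v) = true := by
    show (t ||| (c &&& e.X)).testBit (19 + e.v) = true
    rw [Nat.testBit_or, Nat.testBit_and, Bool.or_eq_true, Bool.and_eq_true]
    exact Or.inr ⟨(h.c_high e.v).2 ⟨e', he', hv⟩, (he.X_high e.v).2 rfl⟩
  rw [h1] at h2
  exact absurd h2 (by simp)

theorem allOk_nil (t : ℕ) : allOk t [] = true := rfl

theorem allOk_cons (t m : ℕ) (L : List ℕ) :
    allOk t (m :: L) = (if Nat.beq (Nat.land m t) m then false else allOk t L) := by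
  show (Bool.rec (allOk t L) false (Nat.beq (Nat.land m t) m) : Bool) = _
  cases Nat.beq (Nat.land m t) m <;> rfl

theorem land_eq_iff (m t : ℕ) : Nat.land m t = m ↔ ∀ x, m.testBit x = true → t.testBit x = true := by
  constructor
  · intro h x hx
    have : (Nat.land m t).testBit x = true := by rw [h]; exact hx
    have h2 : (m &&& t).testBit x = true := this
    rw [Nat.testBit_and, Bool.and_eq_true] at h2
    exact h2.2
  · intro h
    apply Nat.eq_of_testBit_eq
    intro x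
    show (m &&& t).testBit x = _
    rw [Nat.testBit_and]
    cases hm : m.testBit x
    · simp
    · simp [h x hm]

theorem allOk_iff (t : ℕ) (L : List ℕ) :
    allOk t L = true ↔ ∀ m ∈ L, ∃ x, m.testBit x = true ∧ t.testBit x = false := by
  induction L with
  | nil => simp [allOk_nil]
  | cons m L ih =>
    rw [allOk_cons]
    by_cases h : Nat.land m t = m
    · have hb : Nat.beq (Nat.land m t) m = true := by rw [h]; exact Nat.beq_refl m
      rw [hb]
      simp only [if_true]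
      constructor
      · intro h'; exact absurd h' (by simp)
      · intro h'
        obtain ⟨x, hx1, hx2⟩ := h' m List.mem_cons_self
        have := (land_eq_iff m t).1 h x hx1
        rw [this] at hx2
        exact absurd hx2 (by simp)
    · have hb : Nat.beq (Nat.land m t) m = false := by
        cases hc : Nat.beq (Nat.land m t) m
        · rfl
        · exact absurd (Nat.eq_of_beq_eq_true hc) h
      rw [hb]
      simp only [Bool.false_eq_true, if_false]
      rw [ih]
      constructor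
      · intro h' m' hm'
        rcases List.mem_cons.1 hm' with rfl | h''
        · rw [land_eq_iff] at h
          push Not at h
          obtain ⟨x, h1, h2⟩ := h
          exact ⟨x, h1, by simpa using h2⟩
        · exact h' m' h''
      · intro h' m' hm'
        exact h' m' (List.mem_cons_of_mem _ hm')

/-- The invariant of the search for a function `f`. -/
structure Inv (d : ℕ → ℕ → ℕ) (f : ℕ → ℕ) (F : List Ent) (L : List ℕ) (E c t M R : ℕ) : Prop where
  cfg : Cfg d F c t
  val : ∀ e ∈ F, f e.v = e.k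
  hL : ∀ m ∈ L, ∃ x, m.testBit x = true ∧ ¬ TW d f x
  hE : ∀ x, E.testBit x = true → x < 19 ∧ TW d f x
  hM : ∀ x, M.testBit x = true → x < 19 ∧ ∀ v, 0 < f v → ¬ d v x ≤ f v
  hR : ∑ v ∈ (Finset.range 19).filter (fun v => ∀ e ∈ F, v ≠ e.v), f v ≤ R

theorem tw_of_testBit {d : ℕ → ℕ → ℕ} {f : ℕ → ℕ} {F : List Ent} {c t : ℕ} (h : Cfg d F c t)
    (hv : ∀ e ∈ F, f e.v = e.k) {x : ℕ} (hx : t.testBit x = true) : TW d f x := by
  obtain ⟨_, e, he, e', he', hne, h1, h2⟩ := (h.t_iff x).1 hx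
  refine ⟨e.v, e'.v, hne, ?_, ?_, ?_, ?_⟩
  · rw [hv e he]; exact (h.valid e he).pos
  · rw [hv e' he']; exact (h.valid e' he').pos
  · rw [hv e he]; exact h1
  · rw [hv e' he']; exact h2

/-- If all positive values are listed, the mask of twice covered vertices is exact. -/
theorem testBit_of_tw {d : ℕ → ℕ → ℕ} {f : ℕ → ℕ} {F : List Ent} {c t : ℕ} (h : Cfg d F c t)
    (hv : ∀ e ∈ F, f e.v = e.k) (hall : ∀ v, 0 < f v → ∃ e ∈ F, v = e.v) {x : ℕ} (hx : x < 19)
    (htw : TW d f x) : t.testBit x = true := by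
  obtain ⟨v, w, hne, h1, h2, h3, h4⟩ := htw
  obtain ⟨e, he, rfl⟩ := hall v h1
  obtain ⟨e', he', rfl⟩ := hall w h2
  exact (h.t_iff x).2 ⟨hx, e, he, e', he', hne, by rw [← hv e he]; exact h3,
    by rw [← hv e' he']; exact h4⟩

/-- with no budget left, all positive values are listed -/
theorem all_of_R0 {d : ℕ → ℕ → ℕ} {f : ℕ → ℕ} {F : List Ent} {L : List ℕ} {E c t M R : ℕ}
    (h : Inv d f F L E c t M R) (hsupp : ∀ v, 19 ≤ v → f v = 0) (hR : R = 0) :
    ∀ v, 0 < f v → ∃ e ∈ F, v = e.v := by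
  intro v hv
  by_contra hc
  push Not at hc
  have hlt : v < 19 := by
    by_contra h'
    have := hsupp v (by omega)
    omega
  have h1 := h.hR
  have h2 : f v ≤ ∑ v ∈ (Finset.range 19).filter (fun v => ∀ e ∈ F, v ≠ e.v), f v :=
    Finset.single_le_sum (f := f) (fun _ _ => Nat.zero_le _)
      (Finset.mem_filter.2 ⟨Finset.mem_range.2 hlt, hc⟩)
  omega

theorem le_R {d : ℕ → ℕ → ℕ} {f : ℕ → ℕ} {F : List Ent} {L : List ℕ} {E c t M R : ℕ}
    (h : Inv d f F L E c t M R) {v : ℕ} (hlt : v < 19) (hc : ∀ e ∈ F, v ≠ e.v) : f v ≤ R :=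
  le_trans (Finset.single_le_sum (f := f) (fun _ _ => Nat.zero_le _)
      (Finset.mem_filter.2 ⟨Finset.mem_range.2 hlt, hc⟩)) h.hR

/-- Marking one more vertex as undominated. -/
theorem inv_mark {d : ℕ → ℕ → ℕ} {f : ℕ → ℕ} {F : List Ent} {L : List ℕ} {E c t M R U u : ℕ}
    (h : Inv d f F L E c t M R) (hu : u < 19) (hU : ∀ x, U.testBit x = true ↔ x = u)
    (hud : ∀ v, 0 < f v → ¬ d v u ≤ f v) : Inv d f F L E c t (Nat.lor M U) R := by
  refine ⟨h.cfg, h.val, h.hL, h.hE, ?_, h.hR⟩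
  intro x hx
  have hx' : (M ||| U).testBit x = true := hx
  rw [Nat.testBit_or, Bool.or_eq_true] at hx'
  rcases hx' with h1 | h1
  · exact h.hM x h1
  · rw [(hU x).1 h1]
    exact ⟨hu, hud⟩

/-- Adding killer masks. -/
theorem inv_kill {d : ℕ → ℕ → ℕ} {f : ℕ → ℕ} {F : List Ent} {L : List ℕ} {E c t M R m y : ℕ}
    (h : Inv d f F L E c t M R) (hm : ∃ x, m.testBit x = true ∧ ¬ TW d f x)
    (hy : ∀ x, y.testBit x = true → x < 19 ∧ TW d f x) : Inv d f F (m :: L) (Nat.lor E y) c t M R := by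
  refine ⟨h.cfg, h.val, ?_, ?_, h.hM, h.hR⟩
  · intro m' hm'
    rcases List.mem_cons.1 hm' with rfl | h'
    · exact hm
    · exact h.hL m' h'
  · intro x hx
    have hx' : (E ||| y).testBit x = true := hx
    rw [Nat.testBit_or, Bool.or_eq_true] at hx'
    rcases hx' with h1 | h1
    · exact h.hE x h1
    · exact hy x h1

theorem inv_add {d : ℕ → ℕ → ℕ} {f : ℕ → ℕ} {F : List Ent} {L : List ℕ} {E c t M R : ℕ}
    (h : Inv d f F L E c t M R) {e : Ent} (he : Valid d e) (hf : f e.v = e.k)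
    (hn : ∀ e' ∈ F, e.v ≠ e'.v) :
    Inv d f (e :: F) L E (Nat.lor c e.X) (Nat.lor t (Nat.land c e.X)) M (R - e.k) := by
  refine ⟨cfg_cons h.cfg he hn, ?_, h.hL, h.hE, h.hM, ?_⟩
  · intro e' he'
    rcases List.mem_cons.1 he' with rfl | h'
    · exact hf
    · exact h.val e' h'
  · have h1 : (Finset.range 19).filter (fun v => ∀ e' ∈ e :: F, v ≠ e'.v) =
        ((Finset.range 19).filter (fun v => ∀ e' ∈ F, v ≠ e'.v)).erase e.v := by
      ext v
      simp only [Finset.mem_filter, Finset.mem_erase, List.mem_cons, forall_eq_or_imp]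
      tauto
    have h2 : e.v ∈ (Finset.range 19).filter (fun v => ∀ e' ∈ F, v ≠ e'.v) :=
      Finset.mem_filter.2 ⟨Finset.mem_range.2 he.lt, hn⟩
    have h3 := Finset.add_sum_erase _ f h2
    rw [h1]
    have h4 := h.hR
    rw [← h3, hf] at h4
    omega

end Pool.Agent.LibBcast
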